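import Mathlib

/-!
# EXC AN1: the derivative of the free energy is zero at the adsorption point (real analysis)
-/

set_option autoImplicit false

open scoped ENNReal BigOperators Topology
open Filter

namespace EXC

theorem phi_mono (b : ℕ → ℝ) (k : ℝ) (hk : 0 < k) (φ : ℝ → ℝ)
    (h1 : ∀ α t, φ α < t → ENNReal.ofReal (Real.exp (k * α)) * ∑' n : ℕ, ENNReal.ofReal (b n * Real.exp (-(t * (n : ℝ)))) < 1)
    (h2 : ∀ α t, t < φ α → 1 ≤ ENNReal.ofReal (Real.exp (k * α)) * ∑' n : ℕ, ENNReal.ofReal (b n * Real.exp (-(t * (n : ℝ))))) :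
    Monotone φ := by
  intro α β hαβ
  by_contra hlt
  push Not at hlt
  obtain ⟨t, ht1, ht2⟩ := exists_between hlt
  have h3 := h1 β t ht1
  have h4 := h2 α t ht2
  have h5 : ENNReal.ofReal (Real.exp (k * α)) ≤ ENNReal.ofReal (Real.exp (k * β)) :=
    ENNReal.ofReal_le_ofReal (Real.exp_le_exp.2 (mul_le_mul_of_nonneg_left hαβ hk.le))
  have h6 := mul_le_mul_left h5 (∑' n : ℕ, ENNReal.ofReal (b n * Real.exp (-(t * (n : ℝ)))))
  exact absurd (lt_of_le_of_lt (h4.trans h6) h3) (lt_irrefl _)

theorem der_zero (b : ℕ → ℝ) (hb : ∀ n, 0 ≤ b n) (k : ℝ) (hk : 0 < k) (tc : ℝ)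
    (hfin : ∀ t, tc < t → Summable (fun n : ℕ => b n * Real.exp (-(t * (n : ℝ)))))
    (hinf : ∑' n : ℕ, ENNReal.ofReal ((n : ℝ) * b n * Real.exp (-(tc * (n : ℝ)))) = ⊤) (φ : ℝ → ℝ)
    (h1 : ∀ α t, φ α < t → ENNReal.ofReal (Real.exp (k * α)) * ∑' n : ℕ, ENNReal.ofReal (b n * Real.exp (-(t * (n : ℝ)))) < 1)
    (h2 : ∀ α t, t < φ α → 1 ≤ ENNReal.ofReal (Real.exp (k * α)) * ∑' n : ℕ, ENNReal.ofReal (b n * Real.exp (-(t * (n : ℝ)))))
    (hφ : ∀ α, tc ≤ φ α) (α : ℝ) (hα : φ α = tc) : HasDerivAt φ 0 α := by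
  have hmono := phi_mono b k hk φ h1 h2
  set f : ℝ → ℝ := fun t => ∑' n : ℕ, b n * Real.exp (-(t * (n : ℝ))) with hf
  have hF : ∀ t, tc < t → ∑' n : ℕ, ENNReal.ofReal (b n * Real.exp (-(t * (n : ℝ)))) =
      ENNReal.ofReal (f t) := by
    intro t ht
    rw [hf]
    exact (ENNReal.ofReal_tsum_of_nonneg (fun n => mul_nonneg (hb n) (Real.exp_pos _).le)
      (hfin t ht)).symm
  have hf0 : ∀ t, 0 ≤ f t := fun t =>
    tsum_nonneg fun n => mul_nonneg (hb n) (Real.exp_pos _).le
  -- both inequalities in real form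
  have hup : ∀ t, tc < t → f t < Real.exp (-(k * α)) := by
    intro t ht
    have h3 := h1 α t (by rw [hα]; exact ht)
    rw [hF t ht, ← ENNReal.ofReal_mul (Real.exp_pos _).le] at h3
    rw [← ENNReal.ofReal_one, ENNReal.ofReal_lt_ofReal_iff one_pos] at h3
    rw [Real.exp_neg, ← one_div, lt_div_iff₀ (Real.exp_pos _), mul_comm]
    exact h3
  have hlow : ∀ β t, tc < t → t < φ β → Real.exp (-(k * β)) ≤ f t := by
    intro β t ht ht2
    have h3 := h2 β t ht2
    rw [hF t ht, ← ENNReal.ofReal_mul (Real.exp_pos _).le] at h3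
    rw [← ENNReal.ofReal_one] at h3
    have h4 : (1 : ℝ) ≤ Real.exp (k * β) * f t :=
      (ENNReal.ofReal_le_ofReal_iff (mul_nonneg (Real.exp_pos _).le (hf0 t))).1 h3
    rw [Real.exp_neg, ← one_div, div_le_iff₀ (Real.exp_pos _), mul_comm]
    exact h4
  set C : ℝ := Real.exp (-(k * α)) * k with hC
  have hCpos : 0 < C := mul_pos (Real.exp_pos _) hk
  rw [hasDerivAt_iff_isLittleO, Asymptotics.isLittleO_iff]
  intro ε hε
  -- choice of `N` and `η`
  set K : ℝ := C / ε with hK
  have hKpos : 0 < K := div_pos hCpos hε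
  obtain ⟨N, hN⟩ : ∃ N : ℕ, 2 * K <
      ∑ n ∈ Finset.range N, (n : ℝ) * b n * Real.exp (-(tc * (n : ℝ))) := by
    have ht := ENNReal.tendsto_nat_tsum
      (fun n : ℕ => ENNReal.ofReal ((n : ℝ) * b n * Real.exp (-(tc * (n : ℝ)))))
    rw [hinf] at ht
    have hev := ht.eventually (lt_mem_nhds (ENNReal.ofReal_lt_top (r := 2 * K)))
    obtain ⟨N, hN⟩ := hev.exists
    refine ⟨N, ?_⟩
    rw [← ENNReal.ofReal_sum_of_nonneg (fun n _ => mul_nonneg (mul_nonneg (Nat.cast_nonneg n)
      (hb n)) (Real.exp_pos _).le)] at hN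
    exact (ENNReal.ofReal_lt_ofReal_iff_of_nonneg (by positivity)).1 hN
  obtain ⟨η, hη, hηN⟩ : ∃ η > 0, 1 / 2 ≤ Real.exp (-(η * N)) := by
    refine ⟨1 / (2 * (N + 1)), by positivity, ?_⟩
    have h3 : 1 / (2 * ((N : ℝ) + 1)) * N ≤ 1 / 2 := by
      rw [div_mul_eq_mul_div, one_mul, div_le_div_iff₀ (by positivity) (by norm_num)]
      linarith
    have h4 := Real.add_one_le_exp (-(1 / (2 * ((N : ℝ) + 1)) * N))
    linarith
  -- the key estimate
  have key : ∀ β, α < β → ∀ s, tc < s → s < φ β → s < tc + η → s - tc ≤ ε * (β - α) := by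
    intro β hβ s hs1 hs2 hs3
    have hX : ∀ s', tc < s' → s' < s → K * (s - s') ≤ C * (β - α) := by
      intro s' hs'1 hs'2
      have h3 : f s' - f s ≤ C * (β - α) := by
        have h4 := hup s' hs'1
        have h5 := hlow β s hs1 hs2
        have h6 : Real.exp (-(k * β)) = Real.exp (-(k * α)) * Real.exp (-(k * (β - α))) := by
          rw [← Real.exp_add]; congr 1; ring
        have h7 := Real.add_one_le_exp (-(k * (β - α)))
        have h8 : Real.exp (-(k * α)) - Real.exp (-(k * β)) ≤ C * (β - α) := by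
          rw [h6, hC]
          have h9 : Real.exp (-(k * α)) * (1 - Real.exp (-(k * (β - α)))) ≤
              Real.exp (-(k * α)) * (k * (β - α)) :=
            mul_le_mul_of_nonneg_left (by linarith) (Real.exp_pos _).le
          linarith [h9, mul_assoc (Real.exp (-(k * α))) k (β - α)]
        linarith
      have h4 : K * (s - s') ≤ f s' - f s := by
        have h5 : f s' - f s = ∑' n : ℕ, (b n * Real.exp (-(s' * (n : ℝ))) -
            b n * Real.exp (-(s * (n : ℝ)))) :=
          ((hfin s' hs'1).tsum_sub (hfin s hs1)).symm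
        have h6 : ∀ n : ℕ, 0 ≤ b n * Real.exp (-(s' * (n : ℝ))) -
            b n * Real.exp (-(s * (n : ℝ))) := by
          intro n
          rw [← mul_sub]
          refine mul_nonneg (hb n) (sub_nonneg.2 (Real.exp_le_exp.2 ?_))
          have : s' * (n : ℝ) ≤ s * n := mul_le_mul_of_nonneg_right hs'2.le (Nat.cast_nonneg n)
          linarith
        rw [h5]
        refine le_trans ?_ (((hfin s' hs'1).sub (hfin s hs1)).sum_le_tsum (Finset.range N)
          (fun n _ => h6 n))
        calc K * (s - s') ≤ (∑ n ∈ Finset.range N,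
              (n : ℝ) * b n * Real.exp (-(tc * (n : ℝ)))) / 2 * (s - s') := by
              refine mul_le_mul_of_nonneg_right ?_ (by linarith)
              linarith
          _ = ∑ n ∈ Finset.range N,
              ((n : ℝ) * b n * Real.exp (-(tc * (n : ℝ)))) * (1 / 2) * (s - s') := by
              rw [Finset.sum_div, Finset.sum_mul]
              refine Finset.sum_congr rfl fun n _ => ?_
              ring
          _ ≤ _ := by
              refine Finset.sum_le_sum fun n hn => ?_
              rw [Finset.mem_range] at hn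
              have hnN : (n : ℝ) ≤ N := by exact_mod_cast hn.le
              have e1 : Real.exp (-(tc * (n : ℝ))) * (1 / 2) ≤ Real.exp (-(s * (n : ℝ))) := by
                have h7 : Real.exp (-(tc * (n : ℝ))) * Real.exp (-(η * N)) ≤
                    Real.exp (-(s * (n : ℝ))) := by
                  rw [← Real.exp_add]
                  refine Real.exp_le_exp.2 ?_
                  have h8 : s * (n : ℝ) ≤ (tc + η) * n :=
                    mul_le_mul_of_nonneg_right hs3.le (Nat.cast_nonneg n)
                  have h9 : η * (n : ℝ) ≤ η * N := mul_le_mul_of_nonneg_left hnN hη.le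
                  linarith
                exact (mul_le_mul_of_nonneg_left hηN (Real.exp_pos _).le).trans h7
              have e2 : Real.exp (-(s * (n : ℝ))) * ((s - s') * n) ≤
                  Real.exp (-(s' * (n : ℝ))) - Real.exp (-(s * (n : ℝ))) := by
                have h7 : Real.exp (-(s' * (n : ℝ))) =
                    Real.exp (-(s * (n : ℝ))) * Real.exp ((s - s') * n) := by
                  rw [← Real.exp_add]; congr 1; ring
                have h8 := Real.add_one_le_exp ((s - s') * (n : ℝ))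
                rw [h7]
                have h9 : Real.exp (-(s * (n : ℝ))) * ((s - s') * n) ≤
                    Real.exp (-(s * (n : ℝ))) * (Real.exp ((s - s') * n) - 1) :=
                  mul_le_mul_of_nonneg_left (by linarith) (Real.exp_pos _).le
                linarith
              calc (n : ℝ) * b n * Real.exp (-(tc * (n : ℝ))) * (1 / 2) * (s - s')
                  = b n * ((Real.exp (-(tc * (n : ℝ))) * (1 / 2)) * ((s - s') * n)) := by ring
                _ ≤ b n * (Real.exp (-(s * (n : ℝ))) * ((s - s') * n)) := by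
                    refine mul_le_mul_of_nonneg_left ?_ (hb n)
                    exact mul_le_mul_of_nonneg_right e1
                      (mul_nonneg (by linarith) (Nat.cast_nonneg n))
                _ ≤ b n * (Real.exp (-(s' * (n : ℝ))) - Real.exp (-(s * (n : ℝ)))) :=
                    mul_le_mul_of_nonneg_left e2 (hb n)
                _ = _ := by ring
      linarith
    -- let `s'` tend to `tc`
    have hY : K * (s - tc) ≤ C * (β - α) := by
      by_contra hcon
      push Not at hcon
      set δ := min ((K * (s - tc) - C * (β - α)) / (2 * K)) ((s - tc) / 2) with hδ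
      have hδpos : 0 < δ := lt_min (div_pos (by linarith) (by linarith)) (by linarith)
      have h3 : δ ≤ (s - tc) / 2 := min_le_right _ _
      have h4 : δ ≤ (K * (s - tc) - C * (β - α)) / (2 * K) := min_le_left _ _
      have h5 := hX (tc + δ) (by linarith) (by linarith)
      rw [le_div_iff₀ (by linarith)] at h4
      nlinarith
    have hKC : K * ε = C := by rw [hK]; field_simp
    have h3 : K * (s - tc) ≤ K * (ε * (β - α)) := by
      calc K * (s - tc) ≤ C * (β - α) := hY
        _ = K * (ε * (β - α)) := by rw [← hKC]; ring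
    exact le_of_mul_le_mul_left h3 hKpos
  have hev : ∀ᶠ β in 𝓝 α, |β - α| < η / ε := by
    have := Metric.ball_mem_nhds α (div_pos hη hε)
    filter_upwards [this] with β hβ
    rwa [Metric.mem_ball, Real.dist_eq] at hβ
  filter_upwards [hev] with β hβ
  rw [smul_zero, sub_zero, hα, Real.norm_eq_abs, Real.norm_eq_abs]
  rcases le_or_gt β α with hle | hgt
  · have h3 : φ β = tc := le_antisymm (by rw [← hα]; exact hmono hle) (hφ β)
    rw [h3, sub_self, abs_zero]
    positivity
  · rw [abs_of_nonneg (sub_nonneg.2 (hφ β)), abs_of_pos (sub_pos.2 hgt)]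
    rw [abs_of_pos (sub_pos.2 hgt), lt_div_iff₀ hε] at hβ
    by_contra hcon
    push Not at hcon
    obtain ⟨s, hs1, hs2⟩ := exists_between
      (show tc + ε * (β - α) < min (φ β) (tc + η) from lt_min (by linarith) (by linarith))
    have h3 := key β hgt s (by nlinarith [mul_pos hε (sub_pos.2 hgt)])
      (lt_of_lt_of_le hs2 (min_le_left _ _)) (lt_of_lt_of_le hs2 (min_le_right _ _))
    linarith

end EXC
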