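import Pool.Agent.EXC.AN1

/-!
# EXC AN2: the free energy is continuously differentiable (real analysis)

Same data.  `f t = ∑ b n exp (- t n)` is differentiable on `t > tc` with derivative `- D t`, `D t = ∑ n b n exp (- t n) > 0`
(`hasDerivAt_tsum_of_isPreconnected` or power series; `D t > 0` because by `hinf` some `b n > 0` with `n ≥ 1`), `D` is continuous on
`t > tc` and antitone.  If `φ α > tc` then `f (φ α) = exp (- k α)` by continuity, `φ` is continuous at `α`, and
`φ' α = k f (φ α) / D (φ α)` (`HasDerivAt.of_local_left_inverse` with `g t = - log (f t) / k`).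
`φ` is continuous everywhere (differentiable at the other points by `der_zero`).  `deriv φ` is continuous at the points with
`φ α > tc` by the formula; at a point with `φ α = tc`: `f (φ β) = exp (- k β)` and `D (φ β) → ⊤` as `β → α` with `φ β > tc`
(`D t ≥ ∑_{n ≤ N} n b n exp (- t n)`), and `deriv φ β = 0` at the points with `φ β = tc`.
-/

set_option autoImplicit false

open scoped ENNReal BigOperators Topology
open Filter

namespace EXC

/-- the Laplace transform of a sequence -/
noncomputable def lap (b : ℕ → ℝ) (t : ℝ) : ℝ := ∑' n : ℕ, b n * Real.exp (-(t * (n : ℝ)))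

theorem lap_summable_mul {b : ℕ → ℝ} (hb : ∀ n, 0 ≤ b n) {tc : ℝ}
    (hfin : ∀ t, tc < t → Summable (fun n : ℕ => b n * Real.exp (-(t * (n : ℝ))))) {t : ℝ}
    (ht : tc < t) : Summable (fun n : ℕ => ((n : ℝ) * b n) * Real.exp (-(t * (n : ℝ)))) := by
  obtain ⟨s, hs1, hs2⟩ := exists_between ht
  have hsum := (hfin s hs1).mul_left ((t - s)⁻¹)
  apply Summable.of_nonneg_of_le _ _ hsum
  · intro n
    have := hb n
    positivity
  · intro n
    have hc : 0 < t - s := by linarith
    have h1 : (n : ℝ) * (t - s) ≤ Real.exp ((t - s) * n) := by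
      have := Real.add_one_le_exp ((t - s) * (n : ℝ))
      linarith
    have h2 : (n : ℝ) ≤ (t - s)⁻¹ * Real.exp ((t - s) * n) := by
      rw [inv_mul_eq_div, le_div_iff₀ hc]
      exact h1
    have h3 : Real.exp (-(s * (n : ℝ))) = Real.exp ((t - s) * n) * Real.exp (-(t * (n : ℝ))) := by
      rw [← Real.exp_add]
      congr 1
      ring
    have h4 : 0 ≤ b n * Real.exp (-(t * (n : ℝ))) := mul_nonneg (hb n) (Real.exp_pos _).le
    calc ((n : ℝ) * b n) * Real.exp (-(t * (n : ℝ)))
        = (n : ℝ) * (b n * Real.exp (-(t * (n : ℝ)))) := by ring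
      _ ≤ ((t - s)⁻¹ * Real.exp ((t - s) * n)) * (b n * Real.exp (-(t * (n : ℝ)))) :=
          mul_le_mul_of_nonneg_right h2 h4
      _ = (t - s)⁻¹ * (b n * Real.exp (-(s * (n : ℝ)))) := by rw [h3]; ring

theorem lap_hasDerivAt {b : ℕ → ℝ} (hb : ∀ n, 0 ≤ b n) {tc : ℝ}
    (hfin : ∀ t, tc < t → Summable (fun n : ℕ => b n * Real.exp (-(t * (n : ℝ))))) {t : ℝ}
    (ht : tc < t) : HasDerivAt (lap b) (-(lap (fun n => (n : ℝ) * b n) t)) t := by
  obtain ⟨s, hs1, hs2⟩ := exists_between ht
  have hu := lap_summable_mul hb hfin hs1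
  have key := hasDerivAt_tsum_of_isPreconnected (𝕜 := ℝ) (F := ℝ)
    (g := fun (n : ℕ) (y : ℝ) => b n * Real.exp (-(y * (n : ℝ))))
    (g' := fun (n : ℕ) (y : ℝ) => -(((n : ℝ) * b n) * Real.exp (-(y * (n : ℝ)))))
    (u := fun n : ℕ => ((n : ℝ) * b n) * Real.exp (-(s * (n : ℝ))))
    (t := Set.Ioi s) (y₀ := t) (y := t) hu isOpen_Ioi isPreconnected_Ioi
    (by
      intro n y _
      have h0 := ((hasDerivAt_id y).mul_const (n : ℝ)).neg
      rw [one_mul] at h0
      have h1 : HasDerivAt (fun y : ℝ => -(y * (n : ℝ))) (-(n : ℝ)) y := h0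
      refine ((h1.exp).const_mul (b n)).congr_deriv ?_
      ring)
    (by
      intro n y hy
      have hy' : s < y := hy
      rw [norm_neg, Real.norm_of_nonneg
        (mul_nonneg (mul_nonneg (Nat.cast_nonneg n) (hb n)) (Real.exp_pos _).le)]
      apply mul_le_mul_of_nonneg_left _ (mul_nonneg (Nat.cast_nonneg n) (hb n))
      apply Real.exp_le_exp.mpr
      have : s * (n : ℝ) ≤ y * (n : ℝ) := mul_le_mul_of_nonneg_right hy'.le (Nat.cast_nonneg n)
      linarith)
    hs2 (hfin t ht) hs2
  have h5 : (∑' n : ℕ, -(((n : ℝ) * b n) * Real.exp (-(t * (n : ℝ)))))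
      = -(lap (fun n => (n : ℝ) * b n) t) := by
    rw [lap, tsum_neg]
  rw [← h5]
  exact key

theorem phi_c1 (b : ℕ → ℝ) (hb : ∀ n, 0 ≤ b n) (k : ℝ) (hk : 0 < k) (tc : ℝ)
    (hfin : ∀ t, tc < t → Summable (fun n : ℕ => b n * Real.exp (-(t * (n : ℝ)))))
    (hinf : ∑' n : ℕ, ENNReal.ofReal ((n : ℝ) * b n * Real.exp (-(tc * (n : ℝ)))) = ⊤) (φ : ℝ → ℝ)
    (h1 : ∀ α t, φ α < t → ENNReal.ofReal (Real.exp (k * α)) * ∑' n : ℕ, ENNReal.ofReal (b n * Real.exp (-(t * (n : ℝ)))) < 1)
    (h2 : ∀ α t, t < φ α → 1 ≤ ENNReal.ofReal (Real.exp (k * α)) * ∑' n : ℕ, ENNReal.ofReal (b n * Real.exp (-(t * (n : ℝ)))))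
    (hφ : ∀ α, tc ≤ φ α) : ContDiff ℝ 1 φ := by
  set f : ℝ → ℝ := lap b with hf
  set c : ℕ → ℝ := fun n => (n : ℝ) * b n with hc
  set D : ℝ → ℝ := lap c with hD
  have hcn : ∀ n, 0 ≤ c n := fun n => mul_nonneg (Nat.cast_nonneg n) (hb n)
  have hfinc : ∀ t, tc < t → Summable (fun n : ℕ => c n * Real.exp (-(t * (n : ℝ)))) :=
    fun t ht => lap_summable_mul hb hfin ht
  have hfd : ∀ t, tc < t → HasDerivAt f (-(D t)) t := fun t ht => lap_hasDerivAt hb hfin ht
  have hDc : ∀ t, tc < t → ContinuousAt D t :=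
    fun t ht => (lap_hasDerivAt hcn hfinc ht).continuousAt
  have hfc : ∀ t, tc < t → ContinuousAt f t := fun t ht => (hfd t ht).continuousAt
  -- translation of the two hypotheses
  have hconv : ∀ α t, tc < t → ENNReal.ofReal (Real.exp (k * α)) *
      ∑' n : ℕ, ENNReal.ofReal (b n * Real.exp (-(t * (n : ℝ))))
      = ENNReal.ofReal (Real.exp (k * α) * f t) := by
    intro α t ht
    rw [← ENNReal.ofReal_tsum_of_nonneg
      (fun n => mul_nonneg (hb n) (Real.exp_pos _).le) (hfin t ht),
      ← ENNReal.ofReal_mul (Real.exp_pos _).le]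
    rfl
  have h1' : ∀ α t, φ α < t → f t < Real.exp (-(k * α)) := by
    intro α t ht
    have htc : tc < t := lt_of_le_of_lt (hφ α) ht
    have h := h1 α t ht
    rw [hconv α t htc, ENNReal.ofReal_lt_one] at h
    rw [Real.exp_neg, ← one_div, lt_div_iff₀ (Real.exp_pos _), mul_comm]
    exact h
  have h2' : ∀ α t, tc < t → t < φ α → Real.exp (-(k * α)) ≤ f t := by
    intro α t htc ht
    have h := h2 α t ht
    rw [hconv α t htc, ENNReal.one_le_ofReal] at h
    rw [Real.exp_neg, ← one_div, div_le_iff₀ (Real.exp_pos _), mul_comm]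
    exact h
  -- positivity of the derivative
  have hDpos : ∀ t, tc < t → 0 < D t := by
    intro t ht
    have hex : ∃ n, 0 < c n := by
      by_contra hcon
      push Not at hcon
      have hz : ∀ n : ℕ, ENNReal.ofReal ((n : ℝ) * b n * Real.exp (-(tc * (n : ℝ)))) = 0 := by
        intro n
        apply ENNReal.ofReal_of_nonpos
        exact mul_nonpos_of_nonpos_of_nonneg (hcon n) (Real.exp_pos _).le
      simp [hz] at hinf
    obtain ⟨n, hn⟩ := hex
    have hle : c n * Real.exp (-(t * (n : ℝ))) ≤ D t :=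
      (hfinc t ht).le_tsum n (fun m _ => mul_nonneg (hcn m) (Real.exp_pos _).le)
    exact lt_of_lt_of_le (mul_pos hn (Real.exp_pos _)) hle
  -- strict monotonicity
  have hanti : StrictAntiOn f (Set.Ioi tc) := by
    apply strictAntiOn_of_deriv_neg (convex_Ioi tc)
    · intro t ht
      exact (hfc t ht).continuousWithinAt
    · intro t ht
      rw [interior_Ioi] at ht
      rw [(hfd t ht).deriv]
      exact neg_neg_of_pos (hDpos t ht)
  -- the value at the points above tc
  have hval : ∀ α, tc < φ α → f (φ α) = Real.exp (-(k * α)) := by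
    intro α hα
    apply le_antisymm
    · have hcont : Tendsto f (𝓝[>] (φ α)) (𝓝 (f (φ α))) := (hfc _ hα).continuousWithinAt
      apply le_of_tendsto hcont
      filter_upwards [self_mem_nhdsWithin] with t ht
      exact (h1' α t ht).le
    · have hcont : Tendsto f (𝓝[<] (φ α)) (𝓝 (f (φ α))) := (hfc _ hα).continuousWithinAt
      apply ge_of_tendsto hcont
      have hmem : Set.Ioo tc (φ α) ∈ 𝓝[<] (φ α) := Ioo_mem_nhdsLT hα
      filter_upwards [hmem] with t ht
      exact h2' α t ht.1 ht.2
  -- continuity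
  have hexpc : Continuous (fun β : ℝ => Real.exp (-(k * β))) := by fun_prop
  have hcont1 : ∀ α, tc < φ α → ContinuousAt φ α := by
    intro α hα
    rw [Metric.continuousAt_iff']
    intro ε hε
    obtain ⟨t1, ht1, ht1'⟩ := exists_between (max_lt hα (by linarith : φ α - ε < φ α))
    have ht1c : tc < t1 := lt_of_le_of_lt (le_max_left _ _) ht1
    have ht1e : φ α - ε < t1 := lt_of_le_of_lt (le_max_right _ _) ht1
    obtain ⟨t2, ht2, ht2'⟩ := exists_between (by linarith : φ α < φ α + ε)
    have ha : Real.exp (-(k * α)) < f t1 := by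
      rw [← hval α hα]
      exact hanti ht1c hα ht1'
    have hb' : f t2 < Real.exp (-(k * α)) := by
      rw [← hval α hα]
      exact hanti hα (hα.trans ht2) ht2
    have e1 : ∀ᶠ β in 𝓝 α, Real.exp (-(k * β)) < f t1 := hexpc.continuousAt.eventually_lt_const ha
    have e2 : ∀ᶠ β in 𝓝 α, f t2 < Real.exp (-(k * β)) :=
      hexpc.continuousAt.eventually_const_lt hb'
    filter_upwards [e1, e2] with β hβ1 hβ2
    have hge : t1 ≤ φ β := by
      by_contra hcon
      push Not at hcon
      have := h1' β t1 hcon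
      linarith
    have hle : φ β ≤ t2 := by
      by_contra hcon
      push Not at hcon
      have := h2' β t2 (hα.trans ht2) hcon
      linarith
    rw [Real.dist_eq, abs_lt]
    constructor <;> linarith
  have hder1 : ∀ α, tc < φ α → HasDerivAt φ (k * Real.exp (-(k * α)) / D (φ α)) α := by
    intro α hα
    have hfpos : 0 < f (φ α) := by rw [hval α hα]; exact Real.exp_pos _
    have hg : HasDerivAt (fun t => -(Real.log (f t)) / k) (-(-(D (φ α)) / f (φ α)) / k) (φ α) :=
      (((hfd _ hα).log hfpos.ne').neg).div_const k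
    have hne : (-(-(D (φ α)) / f (φ α)) / k) ≠ 0 := by
      have h9 := hDpos _ hα
      have h10 : (-(-(D (φ α)) / f (φ α)) / k) = D (φ α) / f (φ α) / k := by ring
      rw [h10]
      positivity
    have hev : ∀ᶠ β in 𝓝 α, -(Real.log (f (φ β))) / k = β := by
      have h3 : ∀ᶠ β in 𝓝 α, tc < φ β := (hcont1 α hα).eventually_const_lt hα
      filter_upwards [h3] with β hβ
      rw [hval β hβ, Real.log_exp]
      field_simp
    have h4 := HasDerivAt.of_local_left_inverse (hcont1 α hα) hg hne hev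
    refine h4.congr_deriv ?_
    rw [hval α hα]
    have h5 := (hDpos _ hα).ne'
    have h6 := (Real.exp_pos (-(k * α))).ne'
    field_simp
  have hder0 : ∀ α, φ α = tc → HasDerivAt φ 0 α := fun α hα =>
    der_zero b hb k hk tc hfin hinf φ h1 h2 hφ α hα
  have hdiff : Differentiable ℝ φ := by
    intro α
    rcases (hφ α).lt_or_eq with h | h
    · exact (hder1 α h).differentiableAt
    · exact (hder0 α h.symm).differentiableAt
  rw [contDiff_one_iff_deriv]
  refine ⟨hdiff, continuous_iff_continuousAt.2 fun α => ?_⟩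
  rcases (hφ α).lt_or_eq with h | h
  · -- above tc
    have h3 : ∀ᶠ β in 𝓝 α, tc < φ β := (hcont1 α h).eventually_const_lt h
    have h4 : (fun β => k * Real.exp (-(k * β)) / D (φ β)) =ᶠ[𝓝 α] deriv φ := by
      filter_upwards [h3] with β hβ
      exact (hder1 β hβ).deriv.symm
    refine ContinuousAt.congr ?_ h4
    apply ContinuousAt.div
    · exact (continuous_const.mul hexpc).continuousAt
    · exact ContinuousAt.comp (g := D) (hDc _ h) (hcont1 α h)
    · exact (hDpos _ h).ne'
  · -- at tc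
    have hα : φ α = tc := h.symm
    have hd0 : deriv φ α = 0 := (hder0 α hα).deriv
    rw [Metric.continuousAt_iff']
    intro ε hε
    set E : ℝ := Real.exp (-(k * (α - 1))) with hE
    have hEpos : 0 < E := Real.exp_pos _
    set K : ℝ := k * E / ε with hK
    have hKpos : 0 < K := by positivity
    -- a large partial sum
    have hpart : ∃ s : Finset ℕ, K < ∑ n ∈ s, c n * Real.exp (-(tc * (n : ℝ))) := by
      by_contra hcon
      push Not at hcon
      have hsum : Summable (fun n : ℕ => c n * Real.exp (-(tc * (n : ℝ)))) :=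
        summable_of_sum_le (fun n => mul_nonneg (hcn n) (Real.exp_pos _).le) hcon
      have h7 := ENNReal.ofReal_tsum_of_nonneg
        (fun n => mul_nonneg (hcn n) (Real.exp_pos (-(tc * (n : ℝ)))).le) hsum
      have h8 : ∑' n : ℕ, ENNReal.ofReal (c n * Real.exp (-(tc * (n : ℝ)))) = ⊤ := hinf
      rw [← h7] at h8
      exact ENNReal.ofReal_ne_top h8
    obtain ⟨s, hs⟩ := hpart
    have hφc : ContinuousAt φ α := (hdiff α).continuousAt
    have hPc : Continuous (fun t : ℝ => ∑ n ∈ s, c n * Real.exp (-(t * (n : ℝ)))) := by fun_prop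
    have e1 : ∀ᶠ β in 𝓝 α, K < ∑ n ∈ s, c n * Real.exp (-(φ β * (n : ℝ))) := by
      have h9 : ContinuousAt (fun β => ∑ n ∈ s, c n * Real.exp (-(φ β * (n : ℝ)))) α :=
        ContinuousAt.comp (g := fun t : ℝ => ∑ n ∈ s, c n * Real.exp (-(t * (n : ℝ))))
          hPc.continuousAt hφc
      apply h9.eventually_const_lt
      change K < ∑ n ∈ s, c n * Real.exp (-(φ α * (n : ℝ)))
      rw [hα]
      exact hs
    have e2 : ∀ᶠ β in 𝓝 α, α - 1 < β := eventually_gt_nhds (by linarith)
    filter_upwards [e1, e2] with β hβ1 hβ2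
    rw [hd0, dist_zero_right]
    rcases (hφ β).lt_or_eq with hb1 | hb1
    · rw [(hder1 β hb1).deriv, Real.norm_of_nonneg (by
        have := hDpos _ hb1
        positivity)]
      have hDK : K < D (φ β) := lt_of_lt_of_le hβ1
        ((hfinc _ hb1).sum_le_tsum s (fun m _ => mul_nonneg (hcn m) (Real.exp_pos _).le))
      have hEle : Real.exp (-(k * β)) ≤ E := by
        apply Real.exp_le_exp.mpr
        nlinarith
      rw [div_lt_iff₀ (hDpos _ hb1)]
      calc k * Real.exp (-(k * β)) ≤ k * E := by gcongr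
        _ = ε * K := by rw [hK]; field_simp
        _ < ε * D (φ β) := by gcongr
    · rw [(hder0 β hb1.symm).deriv, norm_zero]
      exact hε

end EXC
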