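import Mathlib

/-!
# EXC ANA: the final contradiction (real sequences)

1. `a n / s (n + 1) → 0` by `h1`, `h2` (the sum of the squares is at most `2 K`), so `s (n + 1) ≤ r * s n` eventually for every
   `r > 1`, hence `s n ≤ C * r ^ n`; take `r = 2 ^ (1/12)`.
2. Choose `c > 0` with `(E + 1) ^ c = 2 ^ (1/4)`, `Q = ⌊c n⌋`, `h = 2 ^ (n + 2) / (Q + 1) + 1` in `h3`: the fast parts are
   summable.  The slow parts: `b ^ 2 ≤ h * F ≤ 8 * 2 ^ n * F / (Q + 1)`, so
   `∑ b n / s (n + 1) ≤ sqrt (8 K) * sqrt (∑ 1 / (Q n + 1)) ≤ C * sqrt (1 + log N)`.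
3. `log (s N) ≤ C + ∑_{n < N} log (s (n + 1) / s n) ≤ C + 2 * ∑ a n / s (n + 1) ≤ C + C * sqrt (1 + log N)`, in contradiction
   with `h4`.
-/

set_option autoImplicit false

open scoped BigOperators Topology
open Filter

namespace EXC

private theorem ana_zero (θ : ℕ → ℝ) (h0 : ∀ n, 0 ≤ θ n) (K : ℝ)
    (h : ∀ N, ∑ n ∈ Finset.range N, θ n ^ 2 ≤ K) : Tendsto θ atTop (𝓝 0) := by
  have h1 : Summable (fun n => θ n ^ 2) :=
    summable_of_sum_range_le (fun n => sq_nonneg _) h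
  have h2 := h1.tendsto_atTop_zero
  have h3 := h2.sqrt
  rw [Real.sqrt_zero] at h3
  refine h3.congr (fun n => ?_)
  exact Real.sqrt_sq (h0 n)

private theorem ana_grow (s : ℕ → ℝ) (r : ℝ) (hr : 1 ≤ r) (hs : ∀ n, 1 ≤ s n)
    (h : ∀ᶠ n in atTop, s (n + 1) ≤ r * s n) : ∃ C : ℝ, 0 < C ∧ ∀ n, s n ≤ C * r ^ n := by
  obtain ⟨n0, hn0⟩ := eventually_atTop.mp h
  have hr0 : 0 < r := by linarith
  refine ⟨∑ i ∈ Finset.range (n0 + 1), s i, ?_, ?_⟩
  · refine Finset.sum_pos (fun i _ => lt_of_lt_of_le one_pos (hs i)) ⟨0, by simp⟩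
  · have hsmall : ∀ n, n ≤ n0 → s n ≤ ∑ i ∈ Finset.range (n0 + 1), s i := by
      intro n hn
      refine Finset.single_le_sum (f := s) (fun i _ => le_trans zero_le_one (hs i)) ?_
      rw [Finset.mem_range]
      omega
    intro n
    induction n with
    | zero =>
      rw [pow_zero, mul_one]
      exact hsmall 0 (Nat.zero_le _)
    | succ n ih =>
      by_cases hn : n0 ≤ n
      · calc s (n + 1) ≤ r * s n := hn0 n hn
          _ ≤ r * ((∑ i ∈ Finset.range (n0 + 1), s i) * r ^ n) := mul_le_mul_of_nonneg_left ih hr0.le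
          _ = _ := by ring
      · have h2 := hsmall (n + 1) (by omega)
        have h3 : (1 : ℝ) ≤ r ^ (n + 1) := one_le_pow₀ hr
        have h4 : 0 ≤ ∑ i ∈ Finset.range (n0 + 1), s i :=
          Finset.sum_nonneg (fun i _ => le_trans zero_le_one (hs i))
        calc s (n + 1) ≤ (∑ i ∈ Finset.range (n0 + 1), s i) * 1 := by rw [mul_one]; exact h2
          _ ≤ _ := mul_le_mul_of_nonneg_left h3 h4

private theorem ana_geo (E : ℝ) (hE : 1 ≤ E) (Q : ℕ) : ∑ q ∈ Finset.range Q, E ^ q ≤ Q * (E + 1) ^ Q := by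
  have h : ∀ q ∈ Finset.range Q, E ^ q ≤ (E + 1) ^ Q := by
    intro q hq
    rw [Finset.mem_range] at hq
    calc E ^ q ≤ (E + 1) ^ q := pow_le_pow_left₀ (by linarith) (by linarith) q
      _ ≤ (E + 1) ^ Q := pow_le_pow_right₀ (by linarith) hq.le
  have h2 := Finset.sum_le_card_nsmul _ _ _ h
  rw [Finset.card_range, nsmul_eq_mul] at h2
  exact h2

private theorem ana_cs (x y : ℕ → ℝ) (hx : ∀ n, 0 ≤ x n) (hy : ∀ n, 0 ≤ y n) (N : ℕ) (A B : ℝ)
    (hA : ∑ n ∈ Finset.range N, x n ^ 2 ≤ A) (hB : ∑ n ∈ Finset.range N, y n ^ 2 ≤ B) :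
    ∑ n ∈ Finset.range N, x n * y n ≤ Real.sqrt A * Real.sqrt B := by
  have h := Finset.sum_mul_sq_le_sq_mul_sq (Finset.range N) x y
  have h0 : 0 ≤ ∑ n ∈ Finset.range N, x n * y n := Finset.sum_nonneg (fun n _ => mul_nonneg (hx n) (hy n))
  have hx2 : 0 ≤ ∑ n ∈ Finset.range N, x n ^ 2 := Finset.sum_nonneg (fun n _ => sq_nonneg _)
  have hy2 : 0 ≤ ∑ n ∈ Finset.range N, y n ^ 2 := Finset.sum_nonneg (fun n _ => sq_nonneg _)
  have hA0 : 0 ≤ A := hx2.trans hA
  rw [← Real.sqrt_mul hA0, Real.le_sqrt h0 (mul_nonneg hA0 (hy2.trans hB))]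
  exact h.trans (mul_le_mul hA hB hy2 hA0)

private theorem ana_harm (N : ℕ) : ∑ n ∈ Finset.range N, 1 / ((n : ℝ) + 1) ≤ 1 + Real.log N := by
  by_cases hN : N = 0
  · subst hN
    simp
  · have h := harmonic_le_one_add_log N
    unfold harmonic at h
    push_cast at h
    refine le_trans (le_of_eq ?_) h
    refine Finset.sum_congr rfl (fun n _ => ?_)
    rw [one_div]

theorem ana (a F s : ℕ → ℝ) (K E ε : ℝ) (ha : ∀ n, 0 ≤ a n) (hF : ∀ n, 0 ≤ F n)
    (hs : ∀ n, s n = 1 + ∑ i ∈ Finset.range n, a i) (hE : 1 ≤ E) (hε : 0 < ε)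
    (h1 : ∀ N, ∑ n ∈ Finset.range N, 2 ^ n * F n / s (n + 1) ^ 2 ≤ K)
    (h2 : ∀ n, a n ^ 2 ≤ 2 ^ (n + 1) * F n)
    (h3 : ∀ n Q h : ℕ, 2 ^ (n + 2) ≤ (Q + 1) * h → ∃ b c : ℝ, 0 ≤ b ∧ 0 ≤ c ∧ a n ≤ b + c ∧ b ^ 2 ≤ h * F n ∧
      h * c ≤ 2 * s (n + 1) ^ 3 * ∑ q ∈ Finset.range Q, E ^ q)
    (h4 : ∀ C : ℝ, ∃ n : ℕ, ε * n + C < s n ^ 2) : False := by
  have hs1 : ∀ n, 1 ≤ s n := by
    intro n
    rw [hs n]
    have := Finset.sum_nonneg (s := Finset.range n) (fun i _ => ha i)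
    linarith
  have hs0 : ∀ n, 0 < s n := fun n => lt_of_lt_of_le one_pos (hs1 n)
  have hstep : ∀ n, s (n + 1) = s n + a n := by
    intro n
    rw [hs, hs, Finset.sum_range_succ]
    ring
  have hK : 0 ≤ K := by
    have := h1 0
    simpa using this
  -- the ratios
  have hθ0 : ∀ n, 0 ≤ a n / s (n + 1) := fun n => div_nonneg (ha n) (hs0 _).le
  have hθ : Tendsto (fun n => a n / s (n + 1)) atTop (𝓝 0) := by
    refine ana_zero _ hθ0 (2 * K) ?_
    intro N
    have h5 : ∀ n ∈ Finset.range N, (a n / s (n + 1)) ^ 2 ≤ 2 * (2 ^ n * F n / s (n + 1) ^ 2) := by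
      intro n _
      rw [div_pow, ← mul_div_assoc]
      refine div_le_div_of_nonneg_right ?_ (sq_nonneg _)
      have h6 := h2 n
      have h7 : (2 : ℝ) ^ (n + 1) = 2 * 2 ^ n := by ring
      rw [h7] at h6
      linarith
    refine (Finset.sum_le_sum h5).trans ?_
    rw [← Finset.mul_sum]
    have := h1 N
    linarith
  have hratio : ∀ r : ℝ, 1 < r → ∀ᶠ n in atTop, s (n + 1) ≤ r * s n := by
    intro r hr
    have hη : 0 < 1 - 1 / r := by
      have : 1 / r < 1 := by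
        rw [div_lt_one (by linarith)]
        exact hr
      linarith
    filter_upwards [hθ.eventually (gt_mem_nhds hη)] with n hn
    have hr0 : 0 < r := by linarith
    rw [div_lt_iff₀ (hs0 _)] at hn
    have h5 := hstep n
    have h6 : s (n + 1) * (1 / r) ≤ s n := by
      have h7 : s (n + 1) - (1 - 1 / r) * s (n + 1) < s n := by linarith
      have h8 : s (n + 1) - (1 - 1 / r) * s (n + 1) = s (n + 1) * (1 / r) := by ring
      linarith
    have h7 := mul_le_mul_of_nonneg_left h6 hr0.le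
    have h8 : r * (s (n + 1) * (1 / r)) = s (n + 1) := by
      field_simp
    linarith
  have hl2 : 0 < Real.log 2 := Real.log_pos one_lt_two
  obtain ⟨r, hr⟩ : ∃ r : ℝ, r = Real.exp (Real.log 2 / 12) := ⟨_, rfl⟩
  obtain ⟨μ, hμ⟩ : ∃ μ : ℝ, μ = Real.exp (Real.log 2 / 4) := ⟨_, rfl⟩
  have hr1 : 1 < r := by
    rw [hr]
    exact Real.one_lt_exp_iff.mpr (by positivity)
  have hμ1 : 1 < μ := by
    rw [hμ]
    exact Real.one_lt_exp_iff.mpr (by positivity)
  have hμ0 : 0 < μ := by linarith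
  have hr3 : r ^ 3 = μ := by
    rw [hr, hμ, ← Real.exp_nat_mul]
    congr 1
    push_cast
    ring
  have hμ4 : μ ^ 4 = 2 := by
    rw [hμ, ← Real.exp_nat_mul]
    have : ((4 : ℕ) : ℝ) * (Real.log 2 / 4) = Real.log 2 := by
      push_cast
      ring
    rw [this, Real.exp_log two_pos]
  obtain ⟨C1, hC1, hC1s⟩ := ana_grow s r hr1.le hs1 (hratio r hr1)
  -- the choice of `Q`
  have hE1 : 0 < Real.log (E + 1) := Real.log_pos (by linarith)
  obtain ⟨c, hc⟩ : ∃ c : ℝ, c = Real.log 2 / 4 / Real.log (E + 1) := ⟨_, rfl⟩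
  have hc0 : 0 < c := by
    rw [hc]
    positivity
  have hcE : c * Real.log (E + 1) = Real.log 2 / 4 := by
    rw [hc]
    field_simp
  have hc1 : c ≤ 1 := by
    rw [hc, div_le_one hE1]
    have : Real.log 2 ≤ Real.log (E + 1) := Real.log_le_log two_pos (by linarith)
    linarith
  obtain ⟨Q, hQ⟩ : ∃ Q : ℕ → ℕ, Q = fun n : ℕ => Nat.floor (c * (n : ℝ)) := ⟨_, rfl⟩
  have hQle : ∀ n, (Q n : ℝ) ≤ c * n := by
    intro n
    rw [hQ]
    exact Nat.floor_le (by positivity)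
  have hQn : ∀ n, Q n ≤ n := by
    intro n
    have h5 : (Q n : ℝ) ≤ (n : ℝ) := (hQle n).trans (by
      have : c * (n : ℝ) ≤ 1 * (n : ℝ) := mul_le_mul_of_nonneg_right hc1 (Nat.cast_nonneg n)
      linarith)
    exact_mod_cast h5
  have hQge : ∀ n : ℕ, c / 2 * ((n : ℝ) + 1) ≤ (Q n : ℝ) + 1 := by
    intro n
    have h5 : c * (n : ℝ) < (Q n : ℝ) + 1 := by
      rw [hQ]
      exact Nat.lt_floor_add_one _
    by_cases hn : n = 0
    · subst hn
      have h6 : (0 : ℝ) ≤ (Q 0 : ℝ) := Nat.cast_nonneg _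
      push_cast
      linarith
    · have h6 : (1 : ℝ) ≤ (n : ℝ) := by exact_mod_cast Nat.one_le_iff_ne_zero.mpr hn
      have h7 : c / 2 * ((n : ℝ) + 1) ≤ c * n := by
        have := mul_le_mul_of_nonneg_left h6 hc0.le
        linarith
      linarith
  have hQE : ∀ n, (E + 1) ^ Q n ≤ μ ^ n := by
    intro n
    have h5 : (E + 1) ^ Q n = Real.exp (Q n * Real.log (E + 1)) := by
      rw [Real.exp_nat_mul, Real.exp_log (by linarith)]
    rw [h5, hμ, ← Real.exp_nat_mul]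
    apply Real.exp_le_exp.mpr
    have h6 := mul_le_mul_of_nonneg_right (hQle n) hE1.le
    have h7 : c * (n : ℝ) * Real.log (E + 1) = n * (Real.log 2 / 4) := by
      rw [← hcE]
      ring
    linarith
  -- the fast and the slow parts
  have hparts : ∀ n : ℕ, ∃ b e : ℝ, 0 ≤ b ∧ 0 ≤ e ∧ a n ≤ b + e ∧
      (b / s (n + 1)) ^ 2 ≤ 2 ^ n * F n / s (n + 1) ^ 2 * (16 / c * (1 / ((n : ℝ) + 1))) ∧
      e ≤ C1 ^ 3 * (((n : ℝ) + 1) ^ 2 * (1 / μ ^ 2) ^ n) := by
    intro n
    have h5 : 2 ^ (n + 2) ≤ (Q n + 1) * (2 ^ (n + 2) / (Q n + 1) + 1) :=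
      (Nat.lt_mul_div_succ (2 ^ (n + 2)) (Nat.succ_pos (Q n))).le
    obtain ⟨b, e, hb, he, h6, h7, h8⟩ := h3 n (Q n) (2 ^ (n + 2) / (Q n + 1) + 1) h5
    obtain ⟨h, hh⟩ : ∃ h : ℕ, h = 2 ^ (n + 2) / (Q n + 1) + 1 := ⟨_, rfl⟩
    rw [← hh] at h5 h7 h8
    have hQ1 : (0 : ℝ) < (Q n : ℝ) + 1 := by positivity
    have h5r : (2 : ℝ) ^ (n + 2) ≤ ((Q n : ℝ) + 1) * (h : ℝ) := by exact_mod_cast h5
    have hh0 : (0 : ℝ) < (h : ℝ) := by
      rw [hh]
      positivity
    refine ⟨b, e, hb, he, h6, ?_, ?_⟩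
    · -- slow
      have h9 : ((Q n : ℝ) + 1) * (h : ℝ) ≤ 8 * 2 ^ n := by
        have h10 : (Q n + 1) * h ≤ 2 * 2 ^ (n + 2) := by
          have h11 : (Q n + 1) * (2 ^ (n + 2) / (Q n + 1)) ≤ 2 ^ (n + 2) := Nat.mul_div_le _ _
          have h12 : Q n + 1 ≤ 2 ^ (n + 2) := by
            have h13 := hQn n
            have h14 : n + 2 < 2 ^ (n + 2) := Nat.lt_two_pow_self
            omega
          rw [hh, mul_add, mul_one]
          omega
        have h11 : (((Q n + 1) * h : ℕ) : ℝ) ≤ ((2 * 2 ^ (n + 2) : ℕ) : ℝ) := by exact_mod_cast h10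
        push_cast at h11
        rw [pow_add] at h11
        linarith
      have h10 : (h : ℝ) ≤ 8 * 2 ^ n * (2 / c * (1 / ((n : ℝ) + 1))) := by
        have h11 : c / 2 * ((n : ℝ) + 1) * (h : ℝ) ≤ 8 * 2 ^ n :=
          (mul_le_mul_of_nonneg_right (hQge n) hh0.le).trans h9
        have h12 : (0 : ℝ) < (n : ℝ) + 1 := by positivity
        have h13 : 8 * 2 ^ n * (2 / c * (1 / ((n : ℝ) + 1))) = 8 * 2 ^ n / (c / 2 * ((n : ℝ) + 1)) := by
          field_simp
        rw [h13, le_div_iff₀ (by positivity)]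
        linarith
      rw [div_pow, div_mul_eq_mul_div]
      refine div_le_div_of_nonneg_right ?_ (sq_nonneg _)
      calc b ^ 2 ≤ h * F n := h7
        _ ≤ 8 * 2 ^ n * (2 / c * (1 / ((n : ℝ) + 1))) * F n := mul_le_mul_of_nonneg_right h10 (hF n)
        _ = _ := by ring
    · -- fast
      have h9 : s (n + 1) ^ 3 ≤ C1 ^ 3 * μ ^ (n + 1) := by
        have h10 := pow_le_pow_left₀ (hs0 (n + 1)).le (hC1s (n + 1)) 3
        rw [mul_pow, ← pow_mul, mul_comm (n + 1) 3, pow_mul, hr3] at h10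
        exact h10
      have h10 : ∑ q ∈ Finset.range (Q n), E ^ q ≤ ((n : ℝ) + 1) * μ ^ n := by
        refine (ana_geo E hE (Q n)).trans ?_
        have h11 : (Q n : ℝ) ≤ (n : ℝ) + 1 := by
          have : (Q n : ℝ) ≤ (n : ℝ) := by exact_mod_cast hQn n
          linarith
        exact mul_le_mul h11 (hQE n) (by positivity) (by positivity)
      have h11 : h * e ≤ 2 * (C1 ^ 3 * μ ^ (n + 1)) * (((n : ℝ) + 1) * μ ^ n) := by
        refine h8.trans ?_
        have h12 : 0 ≤ ∑ q ∈ Finset.range (Q n), E ^ q :=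
          Finset.sum_nonneg (fun q _ => pow_nonneg (by linarith) q)
        refine mul_le_mul ?_ h10 h12 (by positivity)
        linarith
      have h12 : (2 : ℝ) ^ (n + 2) * e ≤
          ((Q n : ℝ) + 1) * (2 * (C1 ^ 3 * μ ^ (n + 1)) * (((n : ℝ) + 1) * μ ^ n)) := by
        calc (2 : ℝ) ^ (n + 2) * e ≤ ((Q n : ℝ) + 1) * (h : ℝ) * e := mul_le_mul_of_nonneg_right h5r he
          _ = ((Q n : ℝ) + 1) * (h * e) := by ring
          _ ≤ _ := mul_le_mul_of_nonneg_left h11 hQ1.le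
      have h13 : ((Q n : ℝ) + 1) ≤ (n : ℝ) + 1 := by
        have : (Q n : ℝ) ≤ (n : ℝ) := by exact_mod_cast hQn n
        linarith
      have h14 : (2 : ℝ) ^ (n + 2) * e ≤
          ((n : ℝ) + 1) * (2 * (C1 ^ 3 * μ ^ (n + 1)) * (((n : ℝ) + 1) * μ ^ n)) :=
        h12.trans (mul_le_mul_of_nonneg_right h13 (by positivity))
      have h2n : (0 : ℝ) < (2 : ℝ) ^ (n + 2) := by positivity
      have h15 : C1 ^ 3 * (((n : ℝ) + 1) ^ 2 * (1 / μ ^ 2) ^ n) * (2 : ℝ) ^ (n + 2) =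
          4 * C1 ^ 3 * ((n : ℝ) + 1) ^ 2 * μ ^ (2 * n) := by
        have h16 : (2 : ℝ) ^ (n + 2) = 4 * (μ ^ (2 * n) * μ ^ (2 * n)) := by
          rw [← pow_add, pow_add, show 2 * n + 2 * n = 4 * n by ring, pow_mul, hμ4]
          ring
        have h17 : (1 / μ ^ 2) ^ n * μ ^ (2 * n) = 1 := by
          rw [pow_mul, ← mul_pow, one_div, inv_mul_cancel₀ (by positivity), one_pow]
        rw [h16]
        calc C1 ^ 3 * (((n : ℝ) + 1) ^ 2 * (1 / μ ^ 2) ^ n) * (4 * (μ ^ (2 * n) * μ ^ (2 * n)))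
            = 4 * C1 ^ 3 * ((n : ℝ) + 1) ^ 2 * μ ^ (2 * n) * ((1 / μ ^ 2) ^ n * μ ^ (2 * n)) := by ring
          _ = _ := by rw [h17, mul_one]
      have hμ2 : μ ≤ 2 := by
        rw [← hμ4]
        calc μ = μ ^ 1 := (pow_one μ).symm
          _ ≤ μ ^ 4 := pow_le_pow_right₀ hμ1.le (by norm_num)
      have h16 : ((n : ℝ) + 1) * (2 * (C1 ^ 3 * μ ^ (n + 1)) * (((n : ℝ) + 1) * μ ^ n)) ≤
          4 * C1 ^ 3 * ((n : ℝ) + 1) ^ 2 * μ ^ (2 * n) := by
        have h17 : ((n : ℝ) + 1) * (2 * (C1 ^ 3 * μ ^ (n + 1)) * (((n : ℝ) + 1) * μ ^ n)) =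
            2 * C1 ^ 3 * ((n : ℝ) + 1) ^ 2 * μ ^ (2 * n) * μ := by
          rw [show μ ^ (2 * n) = μ ^ n * μ ^ n by rw [← pow_add]; ring_nf, pow_succ]
          ring
        rw [h17]
        have h18 : 0 ≤ 2 * C1 ^ 3 * ((n : ℝ) + 1) ^ 2 * μ ^ (2 * n) := by positivity
        have h19 := mul_le_mul_of_nonneg_left hμ2 h18
        linarith
      have h17 := h14.trans h16
      rw [← h15, mul_comm _ ((2 : ℝ) ^ (n + 2))] at h17
      exact le_of_mul_le_mul_left h17 h2n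
  choose b e hb he hbe hslow hfast using hparts
  -- the fast parts are summable
  have hsum : Summable (fun n : ℕ => C1 ^ 3 * (((n : ℝ) + 1) ^ 2 * (1 / μ ^ 2) ^ n)) := by
    have hx1 : |1 / μ ^ 2| < 1 := by
      rw [abs_of_nonneg (by positivity), div_lt_one (by positivity)]
      exact one_lt_pow₀ hμ1 (by norm_num)
    have h5 := summable_pow_mul_geometric_of_norm_lt_one 2 (r := 1 / μ ^ 2) hx1
    have h6 := summable_pow_mul_geometric_of_norm_lt_one 1 (r := 1 / μ ^ 2) hx1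
    have h7 := summable_geometric_of_norm_lt_one (x := 1 / μ ^ 2) hx1
    have h8 := ((h5.add (h6.mul_left 2)).add h7).mul_left (C1 ^ 3)
    refine h8.congr (fun n => ?_)
    ring
  obtain ⟨D, hD⟩ : ∃ D : ℝ, ∀ N, ∑ n ∈ Finset.range N, e n ≤ D := by
    refine ⟨∑' n : ℕ, C1 ^ 3 * (((n : ℝ) + 1) ^ 2 * (1 / μ ^ 2) ^ n), fun N => ?_⟩
    refine (Finset.sum_le_sum fun n _ => hfast n).trans ?_
    exact hsum.sum_le_tsum _ (fun n _ => by positivity)
  -- the slow parts
  have hsl : ∀ N : ℕ, ∑ n ∈ Finset.range N, b n / s (n + 1) ≤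
      Real.sqrt K * Real.sqrt (16 / c * (1 + Real.log N)) := by
    intro N
    have h5 : ∀ n ∈ Finset.range N, b n / s (n + 1) ≤
        Real.sqrt (2 ^ n * F n / s (n + 1) ^ 2) * Real.sqrt (16 / c * (1 / ((n : ℝ) + 1))) := by
      intro n _
      have h6 : 0 ≤ 2 ^ n * F n / s (n + 1) ^ 2 :=
        div_nonneg (mul_nonneg (by positivity) (hF n)) (sq_nonneg _)
      rw [← Real.sqrt_mul h6]
      exact Real.le_sqrt_of_sq_le (hslow n)
    refine (Finset.sum_le_sum h5).trans ?_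
    refine ana_cs _ _ (fun n => Real.sqrt_nonneg _) (fun n => Real.sqrt_nonneg _) N K _ ?_ ?_
    · refine le_trans (le_of_eq ?_) (h1 N)
      refine Finset.sum_congr rfl (fun n _ => ?_)
      exact Real.sq_sqrt (div_nonneg (mul_nonneg (by positivity) (hF n)) (sq_nonneg _))
    · have h6 : ∀ n ∈ Finset.range N, Real.sqrt (16 / c * (1 / ((n : ℝ) + 1))) ^ 2 =
          16 / c * (1 / ((n : ℝ) + 1)) := by
        intro n _
        exact Real.sq_sqrt (by positivity)
      rw [Finset.sum_congr rfl h6, ← Finset.mul_sum]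
      exact mul_le_mul_of_nonneg_left (ana_harm N) (by positivity)
  -- the logarithm
  obtain ⟨n1, hn1⟩ := eventually_atTop.mp (hratio 2 one_lt_two)
  have hlog : ∀ N : ℕ, Real.log (s N) ≤ Real.log (s n1) + 2 * ∑ n ∈ Finset.range N, a n / s (n + 1) := by
    intro N
    induction N with
    | zero =>
      have h5 : s 0 ≤ s n1 := by
        rw [hs 0, hs n1]
        have := Finset.sum_nonneg (s := Finset.range n1) (fun i _ => ha i)
        simp only [Finset.range_zero, Finset.sum_empty]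
        linarith
      have := Real.log_le_log (hs0 0) h5
      simpa using this
    | succ N ih =>
      by_cases hN : n1 ≤ N
      · have h5 : Real.log (s (N + 1)) ≤ Real.log (s N) + 2 * (a N / s (N + 1)) := by
          have h6 : Real.log (s (N + 1)) - Real.log (s N) = Real.log (s (N + 1) / s N) :=
            (Real.log_div (hs0 _).ne' (hs0 _).ne').symm
          have h7 := Real.log_le_sub_one_of_pos (div_pos (hs0 (N + 1)) (hs0 N))
          have h8 : s (N + 1) / s N - 1 = a N / s N := by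
            rw [hstep N]
            have := (hs0 N).ne'
            field_simp
            ring
          have h9 : a N / s N ≤ 2 * (a N / s (N + 1)) := by
            rw [← mul_div_assoc, div_le_div_iff₀ (hs0 _) (hs0 _)]
            have := mul_le_mul_of_nonneg_left (hn1 N hN) (ha N)
            linarith
          linarith
        rw [Finset.sum_range_succ]
        linarith
      · have h5 : s (N + 1) ≤ s n1 := by
          rw [hs (N + 1), hs n1]
          have := Finset.sum_le_sum_of_subset_of_nonneg (f := a) (Finset.range_mono (show N + 1 ≤ n1 by omega))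
            (fun i _ _ => ha i)
          linarith
        have h6 := Real.log_le_log (hs0 (N + 1)) h5
        have h7 : 0 ≤ ∑ n ∈ Finset.range (N + 1), a n / s (n + 1) := Finset.sum_nonneg (fun n _ => hθ0 n)
        linarith
  have hfin : ∀ N : ℕ, Real.log (s N) ≤ Real.log (s n1) + 2 * D +
      2 * (Real.sqrt K * Real.sqrt (16 / c * (1 + Real.log N))) := by
    intro N
    have h5 : ∑ n ∈ Finset.range N, a n / s (n + 1) ≤
        ∑ n ∈ Finset.range N, b n / s (n + 1) + ∑ n ∈ Finset.range N, e n := by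
      rw [← Finset.sum_add_distrib]
      refine Finset.sum_le_sum (fun n _ => ?_)
      have h6 : a n / s (n + 1) ≤ (b n + e n) / s (n + 1) := div_le_div_of_nonneg_right (hbe n) (hs0 _).le
      have h7 : e n / s (n + 1) ≤ e n := div_le_self (he n) (hs1 _)
      rw [add_div] at h6
      linarith
    have h6 := hlog N
    have h7 := hsl N
    have h8 := hD N
    linarith
  -- conclusion
  obtain ⟨A, hA⟩ : ∃ A : ℝ, A = Real.log (s n1) + 2 * D := ⟨_, rfl⟩
  obtain ⟨B, hB⟩ : ∃ B : ℝ, B = 2 * (Real.sqrt K * Real.sqrt (16 / c)) := ⟨_, rfl⟩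
  have hB0 : 0 ≤ B := by
    rw [hB]
    positivity
  obtain ⟨M, hM⟩ : ∃ M : ℝ, M = Real.exp (2 * A + 2 * B ^ 2 + 1 / 2) := ⟨_, rfl⟩
  have hM0 : 0 < M := by
    rw [hM]
    exact Real.exp_pos _
  obtain ⟨N, hN⟩ := h4 (M ^ 2 / (4 * ε) + 1)
  by_cases hN0 : N = 0
  · subst hN0
    have h5 : s 0 = 1 := by
      rw [hs 0]
      simp
    rw [h5] at hN
    have h6 : 0 ≤ M ^ 2 / (4 * ε) := by positivity
    push_cast at hN
    linarith
  · have hN1 : (1 : ℝ) ≤ (N : ℝ) := by exact_mod_cast Nat.one_le_iff_ne_zero.mpr hN0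
    have hL : 0 ≤ Real.log N := Real.log_nonneg hN1
    obtain ⟨y, hy⟩ : ∃ y : ℝ, y = Real.sqrt (1 + Real.log N) := ⟨_, rfl⟩
    have hy2 : y ^ 2 = 1 + Real.log N := by
      rw [hy]
      exact Real.sq_sqrt (by linarith)
    have h5 : Real.log (s N) ≤ A + B * y := by
      have h6 := hfin N
      have h7 : Real.sqrt (16 / c * (1 + Real.log N)) = Real.sqrt (16 / c) * y := by
        rw [Real.sqrt_mul (by positivity), hy]
      rw [h7] at h6
      rw [hA, hB]
      linarith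
    have h6 : s N ^ 2 ≤ M * Real.sqrt N := by
      have h7 : s N ^ 2 = Real.exp (2 * Real.log (s N)) := by
        rw [two_mul, Real.exp_add, Real.exp_log (hs0 N), sq]
      have h8 : Real.sqrt N = Real.exp (Real.log N / 2) := by
        rw [← Real.log_sqrt (by linarith), Real.exp_log (Real.sqrt_pos.mpr (by linarith))]
      rw [h7, h8, hM, ← Real.exp_add]
      apply Real.exp_le_exp.mpr
      have h9 : 2 * (B * y) ≤ y ^ 2 / 2 + 2 * B ^ 2 := by
        have := sq_nonneg (y / 2 - B)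
        nlinarith
      rw [hy2] at h9
      linarith
    have h7 : M * Real.sqrt N ≤ ε * N + M ^ 2 / (4 * ε) := by
      have h8 : Real.sqrt N ^ 2 = N := Real.sq_sqrt (by linarith)
      have h9 : 0 ≤ (2 * ε * Real.sqrt N - M) ^ 2 / (4 * ε) := by positivity
      have h10 : (2 * ε * Real.sqrt N - M) ^ 2 / (4 * ε) = ε * Real.sqrt N ^ 2 - M * Real.sqrt N + M ^ 2 / (4 * ε) := by
        field_simp
        ring
      rw [h10, h8] at h9
      linarith
    linarith

end EXC
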