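import Pool.Agent.EXC.GLU

/-!
# EXC ASM: the total length

`G j n` consists of excursions `γ` with `2 ^ (n + 1) ≤ γ.length + 1 < 2 ^ (n + 2)` (`glu_length`), so for every `γ` at most
one `n` has `γ ∈ G j n`, and `2 ^ n ≤ γ.length` for it.  Exchange the sums (`ENNReal.tsum_comm`).
-/

set_option autoImplicit false

open scoped ENNReal BigOperators
open CNP

namespace EXC

variable {d : ℕ}

theorem G_length (j : Fin (d + 1)) {n : ℕ} {l : Wlk d} (h : l ∈ G j n) :
    2 ^ (n + 1) ≤ l.length + 1 ∧ l.length + 1 < 2 ^ (n + 2) := by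
  obtain ⟨σ, hσ, τ, hτ, -, rfl⟩ := h
  obtain ⟨-, h1, h2⟩ := hσ
  obtain ⟨-, h3, h4⟩ := hτ
  rw [glu_length]
  rw [pow_succ] at h2 h4
  have e1 : (2 : ℕ) ^ (n + 1) = 2 ^ n * 2 := pow_succ _ _
  have e2 : (2 : ℕ) ^ (n + 2) = 2 ^ n * 4 := by rw [pow_add]; norm_num
  rw [e1, e2]
  omega

theorem G_unique (j : Fin (d + 1)) {n m : ℕ} {l : Wlk d} (h : l ∈ G j n) (h' : l ∈ G j m) : n = m := by
  obtain ⟨h1, h2⟩ := G_length j h
  obtain ⟨h3, h4⟩ := G_length j h'
  have h5 : n + 1 < m + 2 := (Nat.pow_lt_pow_iff_right (by norm_num : 1 < 2)).mp (lt_of_le_of_lt h1 h4)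
  have h6 : m + 1 < n + 2 := (Nat.pow_lt_pow_iff_right (by norm_num : 1 < 2)).mp (lt_of_le_of_lt h3 h2)
  omega

theorem asm (j : Fin (d + 1)) (hj : j ≠ 0) : ∑' n : ℕ, 2 ^ n * ms (zc d) (G j n) ≤ AA d := by
  have e : ∀ n : ℕ, 2 ^ n * ms (zc d) (G j n) =
      ∑' l : Wlk d, 2 ^ n * (G j n).indicator (fun l => zc d ^ l.length) l := by
    intro n
    unfold ms
    rw [ENNReal.tsum_mul_left]
  rw [tsum_congr e, ENNReal.tsum_comm]
  unfold AA
  refine ENNReal.tsum_le_tsum fun l => ?_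
  by_cases hl : ∃ n : ℕ, l ∈ G j n
  · obtain ⟨n, hn⟩ := hl
    rw [tsum_eq_single n]
    · have hE : Exc l := by
        obtain ⟨σ, hσ, τ, hτ, hh, rfl⟩ := hn
        exact Exc_glu j hj hσ.1 hτ.1 hh
      rw [Set.indicator_of_mem hn, Set.indicator_of_mem (show l ∈ {l : Wlk d | Exc l} from hE)]
      have h1 := (G_length j hn).1
      have h2 : 2 ^ n ≤ l.length := by
        rw [pow_succ] at h1
        have := Nat.one_le_two_pow (n := n)
        omega
      have h3 : (2 : ℝ≥0∞) ^ n ≤ (l.length : ℝ≥0∞) := by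
        exact_mod_cast h2
      exact mul_le_mul_left h3 _
    · intro m hm
      rw [Set.indicator_of_notMem, mul_zero]
      intro h
      exact hm (G_unique j h hn)
  · have h0 : ∀ n : ℕ, 2 ^ n * (G j n).indicator (fun l => zc d ^ l.length) l = 0 := by
      intro n
      rw [Set.indicator_of_notMem, mul_zero]
      intro h
      exact hl ⟨n, h⟩
    rw [tsum_congr h0, tsum_zero]
    exact zero_le

end EXC
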