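import Pool.Agent.EXC.FLI

/-!
# EXC GLU: gluing legs

* `SA_glue`: `u ++ ej :: v` is self-avoiding if `u`, `v` are, every final segment of `u` and every initial segment of `v`
  has nonnegative `j`-displacement (a block that contains the middle step has `j`-displacement at least one;
  use `block_cases`).
* `Exc_glu`: two legs with the same end height: `σ ++ ej :: (flp 0 τ).reverse` is an excursion.  Initial segments of
  `(flp 0 τ).reverse` are reversed final segments of `flp 0 τ`: their `j`-displacement is the one of a final segment of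
  `τ`, so `≥ 0`; final segments are reversed initial segments of `flp 0 τ`: their height displacement is negative.
* `glu_split`: if `glu j σ τ = glu j σ' τ'` with `σ.length < σ'.length` then `σ' = σ ++ P`, `P` is a weak bridge in the
  direction `j` (`P` starts with `ej j`; `P` is a final segment of the leg `σ'`; a nonempty initial segment of `P` is
  `ej j` followed by an initial segment of `(flp 0 τ).reverse`).
-/

set_option autoImplicit false

open scoped ENNReal BigOperators
open CNP

namespace EXC

variable {d : ℕ}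

theorem pos_ej_self (j : Fin (d + 1)) : pos [ej j] j = 1 := by
  simp [pos, stp, ej]

theorem pos_ej_ne (j i : Fin (d + 1)) (hi : i ≠ j) : pos [ej j] i = 0 := by
  simp [pos, stp, ej, Pi.single_eq_of_ne hi]

theorem pos_cons_ej (j : Fin (d + 1)) (v : Wlk d) : pos (ej j :: v) j = 1 + pos v j := by
  have h : ej j :: v = [ej j] ++ v := rfl
  rw [h, pos_append_apply, pos_ej_self]

theorem pos_cons_ej_ne (j i : Fin (d + 1)) (hi : i ≠ j) (v : Wlk d) : pos (ej j :: v) i = pos v i := by
  have h : ej j :: v = [ej j] ++ v := rfl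
  rw [h, pos_append_apply, pos_ej_ne j i hi, zero_add]

theorem SA_glue (j : Fin (d + 1)) (u v : Wlk d) (hu : SA u) (hv : SA v)
    (h1 : ∀ a b : Wlk d, u = a ++ b → 0 ≤ pos b j) (h2 : ∀ a b : Wlk d, v = a ++ b → 0 ≤ pos a j) :
    SA (u ++ (ej j :: v)) := by
  intro a b c h h0
  have h0j : pos b j = 0 := by
    rw [h0]
    rfl
  rcases block_cases h with ⟨c', h3, h4⟩ | ⟨a', h3, h4⟩ | ⟨b1, b2, h3, h4, h5, h6, h7⟩
  · exact hu _ _ _ h3 h0
  · -- the block is in `ej j :: v`
    by_contra hb
    cases a' with
    | nil =>
      rw [List.nil_append] at h3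
      cases b with
      | nil => exact hb rfl
      | cons s b' =>
        rw [List.cons_append, List.cons.injEq] at h3
        obtain ⟨h8, h9⟩ := h3
        rw [← h8, pos_cons_ej] at h0j
        have := h2 b' c h9
        omega
    | cons s a'' =>
      rw [List.cons_append, List.cons_append, List.cons.injEq] at h3
      exact hb (hv a'' b c h3.2 h0)
  · exfalso
    cases b2 with
    | nil => exact h4 rfl
    | cons s b2' =>
      rw [List.cons_append, List.cons.injEq] at h7
      obtain ⟨h8, h9⟩ := h7
      rw [h5, pos_append_apply, ← h8, pos_cons_ej] at h0j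
      have h10 := h1 a b1 h6
      have h11 := h2 b2' c h9
      omega

/-- Final segments of a leg. -/
theorem Leg_fin {j : Fin (d + 1)} {l a b : Wlk d} (h : Leg j l) (hl : l = a ++ b) : 0 ≤ pos b j := by
  have h1 := h.2.2.2 a b hl
  rw [hl, pos_append_apply] at h1
  omega

/-- The second part of a glued walk, initial segments. -/
theorem snd_ini {j : Fin (d + 1)} (hj : j ≠ 0) {τ a b : Wlk d} (h : Leg j τ) (hl : (flp 0 τ).reverse = a ++ b) :
    0 ≤ pos a j := by
  have h1 : flp 0 τ = b.reverse ++ a.reverse := by
    have h2 := congrArg List.reverse hl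
    rw [List.reverse_reverse, List.reverse_append] at h2
    exact h2
  have h3 := flp_split h1
  have h4 := Leg_fin h h3
  rw [pos_flp_ne 0 _ j hj, pos_reverse] at h4
  exact h4

/-- The second part of a glued walk, final segments. -/
theorem snd_fin {j : Fin (d + 1)} {τ a b : Wlk d} (h : Leg j τ) (hl : (flp 0 τ).reverse = a ++ b) (hb : b ≠ []) :
    pos b 0 < 0 := by
  have h1 : flp 0 τ = b.reverse ++ a.reverse := by
    have h2 := congrArg List.reverse hl
    rw [List.reverse_reverse, List.reverse_append] at h2
    exact h2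
  have h3 := flp_split h1
  have h4 := h.2.2.1 _ _ h3 (flp_ne_nil (by
    intro h5
    exact hb (List.reverse_eq_nil_iff.mp h5)))
  rw [pos_flp_self, pos_reverse] at h4
  omega

theorem pos_snd (τ : Wlk d) : pos (flp 0 τ).reverse 0 = - pos τ 0 := by
  rw [pos_reverse, pos_flp_self]

theorem Exc_glu (j : Fin (d + 1)) (hj : j ≠ 0) {σ τ : Wlk d} (h1 : Leg j σ) (h2 : Leg j τ) (h : pos σ 0 = pos τ 0) :
    Exc (glu j σ τ) := by
  have hj' : (0 : Fin (d + 1)) ≠ j := fun h => hj h.symm
  have htot : pos (glu j σ τ) 0 = 0 := by
    unfold glu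
    rw [pos_append_apply, pos_cons_ej_ne j 0 hj', pos_snd, h]
    ring
  refine ⟨?_, ?_, htot, ?_⟩
  · unfold glu
    intro h3
    exact h1.1 (List.append_eq_nil_iff.mp h3).1
  · unfold glu
    refine SA_glue j σ _ h1.2.1 ?_ (fun a b hab => Leg_fin h1 hab) (fun a b hab => snd_ini hj h2 hab)
    exact SA_reverse.mpr (SA_flp h2.2.1)
  · intro u v huv hu hv
    have hsum : pos u 0 + pos v 0 = 0 := by
      rw [← pos_append_apply, ← huv, htot]
    unfold glu at huv
    rcases List.append_eq_append_iff.mp huv with ⟨s, h3, h4⟩ | ⟨s, h3, h4⟩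
    · -- u = σ ++ s, ej :: _ = s ++ v
      cases s with
      | nil =>
        rw [List.append_nil] at h3
        rw [h3]
        exact h1.2.2.1 σ [] (List.append_nil σ).symm h1.1
      | cons t s' =>
        rw [List.cons_append, List.cons.injEq] at h4
        have h5 := snd_fin h2 h4.2 hv
        omega
    · -- σ = u ++ s
      exact h1.2.2.1 u s h3 hu

theorem glu_length (j : Fin (d + 1)) (σ τ : Wlk d) : (glu j σ τ).length = σ.length + τ.length + 1 := by
  unfold glu
  rw [List.length_append, List.length_cons, List.length_reverse, flp_length]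
  ring

theorem glu_inj (j : Fin (d + 1)) {σ τ σ' τ' : Wlk d} (h : glu j σ τ = glu j σ' τ') (hl : σ.length = σ'.length) :
    σ = σ' ∧ τ = τ' := by
  unfold glu at h
  obtain ⟨h1, h2⟩ := List.append_inj h hl
  refine ⟨h1, ?_⟩
  rw [List.cons.injEq] at h2
  exact flp_inj (List.reverse_injective h2.2)

theorem glu_split (j : Fin (d + 1)) (hj : j ≠ 0) {σ τ σ' τ' : Wlk d} (h2 : Leg j τ) (h3 : Leg j σ')
    (h : glu j σ τ = glu j σ' τ') (hl : σ.length < σ'.length) :
    ∃ P : Wlk d, σ' = σ ++ P ∧ WB j P := by
  unfold glu at h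
  rcases List.append_eq_append_iff.mp h with ⟨s, h4, h5⟩ | ⟨s, h4, h5⟩
  · -- σ' = σ ++ s, ej :: _ = s ++ ej :: _
    refine ⟨s, h4, ?_⟩
    have hs : s ≠ [] := by
      intro h6
      rw [h6, List.append_nil] at h4
      rw [h4] at hl
      exact lt_irrefl _ hl
    refine ⟨hs, ?_, ?_, ?_⟩
    · have h6 := h3.2.1
      rw [h4] at h6
      exact SA_right h6
    · intro u v huv hu
      rw [huv, List.append_assoc] at h5
      cases u with
      | nil => exact absurd rfl hu
      | cons t u' =>
        rw [List.cons_append, List.cons.injEq] at h5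
        obtain ⟨h6, h7⟩ := h5
        rw [← h6, pos_cons_ej]
        have := snd_ini hj h2 h7
        omega
    · intro u v huv
      have h6 := Leg_fin (a := σ ++ u) (b := v) h3 (by rw [h4, huv, List.append_assoc])
      rw [huv, pos_append_apply]
      omega
  · exfalso
    have h6 := congrArg List.length h4
    rw [List.length_append] at h6
    omega

end EXC
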