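import Pool.Agent.EXC.RET
import Pool.Agent.EXC.GLU

/-!
# EXC BLX: blocks with one long excursion

`j ≠ 0` horizontal.  If `γ` is an excursion with `pos γ j ≤ 0` then `List.replicate (k - 1) (j, false) ++ γ` is a
`k`-block (`block_cases`: a crossing block is `b1 ++ b2`, `b1` consists of `m ≥ 1` steps `(j, false)`, `b2` is a nonempty initial
segment of `γ`: if `b2 ≠ γ` then its height is positive, if `b2 = γ` the `j`-displacement is negative).
* `Blk_mean`: the weighted sum over the excursions with `pos γ j ≤ 0` is at least half of `AA d` (`flp j`), so it is `⊤` if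
  `AA d = ⊤`; multiply by `zc d ^ (k - 1)`.
* `BW_len`: the excursions `flp j (glu j [e0] [e0])` (length `3`), `flp j (glu j [e0, ej] [e0])` (length `4`) give blocks of length
  `k + 2`, `k + 3`; every `n ≥ (k + 2) * (k + 3)` is `a * (k + 2) + b * (k + 3)`.
-/

set_option autoImplicit false

open scoped ENNReal BigOperators
open CNP

namespace EXC

variable {d : ℕ}

theorem blx_pos_rep (s : Stp d) (m : ℕ) (i : Fin (d + 1)) :
    pos (List.replicate m s) i = (m : ℤ) * stp s i := by
  induction m with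
  | zero => simp [pos_nil_apply]
  | succ m ih =>
    rw [List.replicate_succ, pos_cons, Pi.add_apply, ih]
    push_cast
    ring

theorem blx_stp_self (j : Fin (d + 1)) : stp ((j, false) : Stp d) j = -1 := by
  simp [stp]

theorem blx_stp_ne (j i : Fin (d + 1)) (h : i ≠ j) : stp ((j, false) : Stp d) i = 0 := by
  simp [stp, Pi.single_eq_of_ne h]

theorem blx_rep_self (j : Fin (d + 1)) (m : ℕ) :
    pos (List.replicate m ((j, false) : Stp d)) j = -(m : ℤ) := by
  rw [blx_pos_rep, blx_stp_self]; ring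

theorem blx_rep_ne (j i : Fin (d + 1)) (h : i ≠ j) (m : ℕ) :
    pos (List.replicate m ((j, false) : Stp d)) i = 0 := by
  rw [blx_pos_rep, blx_stp_ne j i h]; ring

theorem blx_SA_rep (j : Fin (d + 1)) (m : ℕ) : SA (List.replicate m ((j, false) : Stp d)) := by
  intro a b c h h0
  have h1 := (List.append_eq_replicate_iff.mp h.symm).2.1
  have h2 := (List.append_eq_replicate_iff.mp h1).2.2
  have h3 : pos b j = 0 := by rw [h0]; rfl
  rw [h2, blx_rep_self] at h3
  have h4 : b.length = 0 := by omega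
  exact List.length_eq_zero_iff.mp h4

theorem Exc_flp {j : Fin (d + 1)} (hj : j ≠ 0) {l : Wlk d} (h : Exc l) : Exc (flp j l) := by
  refine ⟨flp_ne_nil h.1, SA_flp h.2.1, ?_, ?_⟩
  · rw [pos_flp_ne j l 0 hj.symm]
    exact h.2.2.1
  · intro u v huv hu hv
    have h1 := flp_split huv
    have h2 := h.2.2.2 _ _ h1 (flp_ne_nil hu) (flp_ne_nil hv)
    rw [pos_flp_ne j u 0 hj.symm] at h2
    exact h2

theorem blx_LE {l : Wlk d} (h : Exc l) : LE l :=
  ⟨h.1, h.2.1, h.2.2.1, fun u v huv hu hv => (h.2.2.2 u v huv hu hv).ne'⟩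

theorem Blk_exc {j : Fin (d + 1)} (hj : j ≠ 0) (m : ℕ) {γ : Wlk d} (h : Exc γ) (h0 : pos γ j ≤ 0) :
    Blk (m + 1) (List.replicate m (j, false) ++ γ) := by
  have hj' : (0 : Fin (d + 1)) ≠ j := hj.symm
  have hini : ∀ s b : Wlk d, γ = s ++ b → 0 ≤ pos s 0 := by
    intro s b hsb
    by_cases hs : s = []
    · rw [hs, pos_nil_apply]
    · by_cases hb : b = []
      · rw [hb, List.append_nil] at hsb
        rw [← hsb, h.2.2.1]
      · exact (h.2.2.2 s b hsb hs hb).le
  refine ⟨⟨?_, ?_, ?_⟩, ?_⟩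
  · intro a b c hab hb0
    rcases block_cases hab with ⟨c', h3, h4⟩ | ⟨a', h3, h4⟩ | ⟨b1, b2, h3, h4, h5, h6, h7⟩
    · exact blx_SA_rep j m _ _ _ h3 hb0
    · exact h.2.1 _ _ _ h3 hb0
    · exfalso
      have h8 := (List.append_eq_replicate_iff.mp h6.symm).2.2
      have h9 : 0 < b1.length := List.length_pos_iff.mpr h3
      have h10 : pos b 0 = 0 := by rw [hb0]; rfl
      have h11 : pos b j = 0 := by rw [hb0]; rfl
      rw [h5, pos_append_apply, h8, blx_rep_ne j 0 hj', zero_add] at h10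
      rw [h5, pos_append_apply, h8, blx_rep_self] at h11
      by_cases hc : c = []
      · rw [hc, List.append_nil] at h7
        rw [← h7] at h11
        omega
      · have := h.2.2.2 b2 c h7 h4 hc
        omega
  · intro u v huv
    rcases List.append_eq_append_iff.mp huv with ⟨s, h1, h2⟩ | ⟨s, h1, h2⟩
    · rw [h1, pos_append_apply, blx_rep_ne j 0 hj', zero_add]
      exact hini s v h2
    · have h3 := (List.append_eq_replicate_iff.mp h1.symm).2.1
      rw [h3, blx_rep_ne j 0 hj']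
  · rw [pos_append_apply, blx_rep_ne j 0 hj', zero_add]
    exact h.2.2.1
  · rw [ret_append _ _ (blx_rep_ne j 0 hj' m), ret_LE (blx_LE h), ret_rep _ (by exact hj)]

theorem blx_half {j : Fin (d + 1)} (hj : j ≠ 0) :
    AA d ≤ 2 * ∑' l : Wlk d, {l : Wlk d | Exc l ∧ pos l j ≤ 0}.indicator
      (fun l => (l.length : ℝ≥0∞) * zc d ^ l.length) l := by
  have hinv : Function.Involutive (flp j : Wlk d → Wlk d) := flp_flp j
  have h1 : ∑' l : Wlk d, {l : Wlk d | Exc l ∧ pos l j ≤ 0}.indicator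
      (fun l => (l.length : ℝ≥0∞) * zc d ^ l.length) (flp j l) =
      ∑' l : Wlk d, {l : Wlk d | Exc l ∧ pos l j ≤ 0}.indicator
      (fun l => (l.length : ℝ≥0∞) * zc d ^ l.length) l :=
    (hinv.toPerm).tsum_eq (fun l => {l : Wlk d | Exc l ∧ pos l j ≤ 0}.indicator
      (fun l => (l.length : ℝ≥0∞) * zc d ^ l.length) l)
  rw [two_mul]
  conv_rhs => enter [2]; rw [← h1]
  rw [← ENNReal.tsum_add]
  unfold AA
  refine ENNReal.tsum_le_tsum fun l => ?_
  by_cases hl : Exc l
  · rw [Set.indicator_of_mem (show l ∈ {l : Wlk d | Exc l} from hl)]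
    by_cases h2 : pos l j ≤ 0
    · rw [Set.indicator_of_mem (show l ∈ {l : Wlk d | Exc l ∧ pos l j ≤ 0} from ⟨hl, h2⟩)]
      exact le_self_add
    · have h3 : flp j l ∈ {l : Wlk d | Exc l ∧ pos l j ≤ 0} := by
        refine ⟨Exc_flp hj hl, ?_⟩
        rw [pos_flp_self]
        omega
      rw [Set.indicator_of_mem h3, flp_length]
      exact le_add_self
  · rw [Set.indicator_of_notMem (show l ∉ {l : Wlk d | Exc l} from hl)]
    exact zero_le

theorem Blk_mean (hd : 1 ≤ d) (hA : AA d = ⊤) (k : ℕ) (hk : 1 ≤ k) :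
    ∑' l : Wlk d, {l : Wlk d | Blk k l}.indicator (fun l => (l.length : ℝ≥0∞) * zc d ^ l.length) l = ⊤ := by
  obtain ⟨m, rfl⟩ : ∃ m, k = m + 1 := ⟨k - 1, by omega⟩
  have hj : (⟨1, by omega⟩ : Fin (d + 1)) ≠ 0 := by
    intro h
    have := congrArg Fin.val h
    simp at this
  set j : Fin (d + 1) := ⟨1, by omega⟩ with hjdef
  have h1 := blx_half hj
  rw [hA, top_le_iff] at h1
  have hT : ∑' l : Wlk d, {l : Wlk d | Exc l ∧ pos l j ≤ 0}.indicator
      (fun l => (l.length : ℝ≥0∞) * zc d ^ l.length) l = ⊤ := by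
    by_contra h2
    exact (ENNReal.mul_ne_top (by norm_num) h2) h1
  have hz : zc d ^ m ≠ 0 := pow_ne_zero _ (zc_ne_zero d)
  rw [← top_le_iff]
  calc ⊤ = zc d ^ m * ∑' l : Wlk d, {l : Wlk d | Exc l ∧ pos l j ≤ 0}.indicator
        (fun l => (l.length : ℝ≥0∞) * zc d ^ l.length) l := by
        rw [hT, ENNReal.mul_top hz]
    _ = ∑' l : Wlk d, zc d ^ m * {l : Wlk d | Exc l ∧ pos l j ≤ 0}.indicator
        (fun l => (l.length : ℝ≥0∞) * zc d ^ l.length) l := ENNReal.tsum_mul_left.symm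
    _ ≤ ∑' l : Wlk d, {l : Wlk d | Blk (m + 1) l}.indicator
        (fun l => (l.length : ℝ≥0∞) * zc d ^ l.length) (List.replicate m (j, false) ++ l) := by
        refine ENNReal.tsum_le_tsum fun l => ?_
        by_cases hl : l ∈ {l : Wlk d | Exc l ∧ pos l j ≤ 0}
        · have h3 : List.replicate m (j, false) ++ l ∈ {l : Wlk d | Blk (m + 1) l} :=
            Blk_exc hj m hl.1 hl.2
          rw [Set.indicator_of_mem hl, Set.indicator_of_mem h3, List.length_append,
            List.length_replicate, pow_add]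
          calc zc d ^ m * ((l.length : ℝ≥0∞) * zc d ^ l.length)
              = (l.length : ℝ≥0∞) * (zc d ^ m * zc d ^ l.length) := by ring
            _ ≤ ((m + l.length : ℕ) : ℝ≥0∞) * (zc d ^ m * zc d ^ l.length) := by
                refine mul_le_mul' ?_ le_rfl
                exact_mod_cast Nat.le_add_left _ _
        · rw [Set.indicator_of_notMem hl, mul_zero]
          exact zero_le
    _ ≤ _ := ENNReal.tsum_comp_le_tsum_of_injective (List.append_right_injective _) _

theorem blx_Leg1 (j : Fin (d + 1)) (hj : j ≠ 0) : Leg j [e0 d] := by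
  refine ⟨by simp, SA_single _, Ips_e0, ?_⟩
  intro u v h
  rcases List.append_eq_singleton_iff.mp h.symm with ⟨h1, h2⟩ | ⟨h1, h2⟩
  · rw [h1, pos_nil_apply, pos_e0_ne j hj]
  · rw [h1]

theorem blx_Leg2 (j : Fin (d + 1)) (hj : j ≠ 0) : Leg j [e0 d, ej j] := by
  have hj' : (0 : Fin (d + 1)) ≠ j := hj.symm
  have e1 : pos [e0 d, ej j] 0 = 1 := by
    have : ([e0 d, ej j] : Wlk d) = [e0 d] ++ [ej j] := rfl
    rw [this, pos_append_apply, pos_e0, pos_ej_ne j 0 hj']; norm_num
  have e2 : pos [e0 d, ej j] j = 1 := by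
    have : ([e0 d, ej j] : Wlk d) = [e0 d] ++ [ej j] := rfl
    rw [this, pos_append_apply, pos_e0_ne j hj, pos_ej_self]; norm_num
  have hu : ∀ u v : Wlk d, [e0 d, ej j] = u ++ v → u = [] ∨ u = [e0 d] ∨ u = [e0 d, ej j] := by
    intro u v h
    rcases u with _ | ⟨s, _ | ⟨t, _ | ⟨r, u⟩⟩⟩
    · exact Or.inl rfl
    · simp only [List.cons_append, List.nil_append, List.cons.injEq] at h
      right; left; rw [h.1]
    · simp only [List.cons_append, List.nil_append, List.cons.injEq] at h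
      right; right; rw [h.1, h.2.1]
    · simp at h
  refine ⟨by simp, ?_, ?_, ?_⟩
  · have h1 := SA_glue j [e0 d] [] (SA_single _) SA_nil ?_ ?_
    · exact h1
    · intro a b h
      rcases List.append_eq_singleton_iff.mp h.symm with ⟨h1, h2⟩ | ⟨h1, h2⟩
      · rw [h2, pos_e0_ne j hj]
      · rw [h2, pos_nil_apply]
    · intro a b h
      have h1 := (List.append_eq_nil_iff.mp h.symm).1
      rw [h1, pos_nil_apply]
  · intro u v h hne
    rcases hu u v h with h1 | h1 | h1
    · exact absurd h1 hne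
    · rw [h1, pos_e0]; norm_num
    · rw [h1, e1]; norm_num
  · intro u v h
    rcases hu u v h with h1 | h1 | h1
    · rw [h1, pos_nil_apply, e2]; norm_num
    · rw [h1, pos_e0_ne j hj, e2]; norm_num
    · rw [h1]

theorem blx_pos_glu (j : Fin (d + 1)) (hj : j ≠ 0) {σ τ : Wlk d} (h1 : Leg j σ) (h2 : Leg j τ) :
    0 ≤ pos (glu j σ τ) j := by
  unfold glu
  rw [pos_append_apply, pos_cons_ej]
  have h3 := Leg_fin (a := []) (b := σ) h1 rfl
  have h4 := snd_ini (a := (flp 0 τ).reverse) (b := []) hj h2 (List.append_nil _).symm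
  omega

theorem blx_blk (j : Fin (d + 1)) (hj : j ≠ 0) {σ τ : Wlk d} (h1 : Leg j σ) (h2 : Leg j τ)
    (h : pos σ 0 = pos τ 0) (m : ℕ) :
    Blk (m + 1) (List.replicate m (j, false) ++ flp j (glu j σ τ)) := by
  apply Blk_exc hj m (Exc_flp hj (Exc_glu j hj h1 h2 h))
  rw [pos_flp_self]
  have := blx_pos_glu j hj h1 h2
  omega

theorem BW_len (hd : 1 ≤ d) (k : ℕ) (hk : 1 ≤ k) : ∃ n0 : ℕ, ∀ n, n0 ≤ n → ∃ w : Wlk d, BW k w ∧ w.length = n := by
  obtain ⟨m, rfl⟩ : ∃ m, k = m + 1 := ⟨k - 1, by omega⟩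
  have hj : (⟨1, by omega⟩ : Fin (d + 1)) ≠ 0 := by
    intro h
    have := congrArg Fin.val h
    simp at this
  set j : Fin (d + 1) := ⟨1, by omega⟩ with hjdef
  have hj' : (0 : Fin (d + 1)) ≠ j := hj.symm
  set B1 : Wlk d := List.replicate m (j, false) ++ flp j (glu j [e0 d] [e0 d]) with hB1
  set B2 : Wlk d := List.replicate m (j, false) ++ flp j (glu j [e0 d, ej j] [e0 d]) with hB2
  have b1 : Blk (m + 1) B1 := blx_blk j hj (blx_Leg1 j hj) (blx_Leg1 j hj) rfl m
  have b2 : Blk (m + 1) B2 := blx_blk j hj (blx_Leg2 j hj) (blx_Leg1 j hj) (by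
    have : ([e0 d, ej j] : Wlk d) = [e0 d] ++ [ej j] := rfl
    rw [this, pos_append_apply, pos_ej_ne j 0 hj', add_zero]) m
  have l1 : B1.length = m + 3 := by
    rw [hB1, List.length_append, List.length_replicate, flp_length, glu_length]
    simp
  have l2 : B2.length = m + 4 := by
    rw [hB2, List.length_append, List.length_replicate, flp_length, glu_length]
    simp
  refine ⟨(m + 3) * (m + 4), fun n hn => ?_⟩
  -- n = a (m+3) + b (m+4), b = n % (m+3)
  obtain ⟨a, b, hab⟩ : ∃ a b : ℕ, n = a * (m + 3) + b * (m + 4) := by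
    have h1 := Nat.div_add_mod n (m + 3)
    have h2 : n % (m + 3) < m + 3 := Nat.mod_lt _ (by omega)
    have h3 : m + 4 ≤ n / (m + 3) := by
      rw [Nat.le_div_iff_mul_le (by omega)]
      calc (m + 4) * (m + 3) = (m + 3) * (m + 4) := by ring
        _ ≤ n := hn
    obtain ⟨c, hc⟩ : ∃ c, n / (m + 3) = c + n % (m + 3) := ⟨n / (m + 3) - n % (m + 3), by omega⟩
    refine ⟨c, n % (m + 3), ?_⟩
    have h4 : (m + 3) * (c + n % (m + 3)) + n % (m + 3) = n := by rw [← hc]; exact h1
    calc n = (m + 3) * (c + n % (m + 3)) + n % (m + 3) := h4.symm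
      _ = c * (m + 3) + n % (m + 3) * (m + 4) := by ring
  refine ⟨(List.replicate a B1 ++ List.replicate b B2).flatten,
    ⟨List.replicate a B1 ++ List.replicate b B2, ?_, rfl⟩, ?_⟩
  · intro x hx
    rw [List.mem_append] at hx
    rcases hx with hx | hx
    · rw [List.eq_of_mem_replicate hx]; exact b1
    · rw [List.eq_of_mem_replicate hx]; exact b2
  · rw [List.length_flatten, List.map_append, List.sum_append, List.map_replicate, List.map_replicate,
      List.sum_replicate, List.sum_replicate, l1, l2, hab]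
    simp

/-- Straight walks along the wall are loops. -/
theorem Loop_len (hd : 1 ≤ d) (n : ℕ) : ∃ w : Wlk d, Loop w ∧ w.length = n ∧ ret w = n := by
  have hj : (⟨1, by omega⟩ : Fin (d + 1)) ≠ 0 := by
    intro h
    have := congrArg Fin.val h
    simp at this
  set j : Fin (d + 1) := ⟨1, by omega⟩ with hjdef
  have hj' : (0 : Fin (d + 1)) ≠ j := hj.symm
  refine ⟨List.replicate n (j, false), ⟨blx_SA_rep j n, ?_, blx_rep_ne j 0 hj' n⟩, List.length_replicate,
    ret_rep _ (by exact hj) n⟩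
  intro u v huv
  have h3 := (List.append_eq_replicate_iff.mp huv.symm).2.1
  rw [h3, blx_rep_ne j 0 hj']

end EXC
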