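import Pool.Agent.EXC.FLI

/-!
# EXC BRL: the mass of the short bridges is at most the square of the mass of the legs

Let `l` be a bridge with `l.length + 1 < 2 ^ n`.  By `cut_max j l`: `l = u ++ v`, `u` is empty or a leg, and
`v' = flp j v.reverse` is empty or a leg (`Ips`: a nonempty initial segment of `v'` is `flp j b.reverse` with a nonempty
final segment `b` of `v`, `pos b 0 > 0` by `Fps l`; maximum: `pos (flp j b.reverse) j = - pos b j ≤ - pos v j` because
`v = a ++ b` with `pos a j ≤ 0`).  The pair `(u, v')` determines `l`.  Use `ms_pair_le` with `k = 0` and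
`A = B = {l | (l = [] ∨ Leg j l) ∧ l.length + 1 < 2 ^ n}` and `ms_LgB`.
-/

set_option autoImplicit false

open scoped ENNReal BigOperators
open CNP

namespace EXC

variable {d : ℕ}

theorem BRL_dec (j : Fin (d + 1)) (hj : j ≠ 0) (l : Wlk d) (h : SB l) : ∃ u v : Wlk d, l = u ++ v ∧
    (u = [] ∨ Leg j u) ∧ (flp j v.reverse = [] ∨ Leg j (flp j v.reverse)) := by
  obtain ⟨u, v, h1, h2, h3⟩ := cut_max j l
  have hSA : SA (u ++ v) := by rw [← h1]; exact h.2.1
  have hI : Ips (u ++ v) := by rw [← h1]; exact h.2.2.1
  have hF : Fps (u ++ v) := by rw [← h1]; exact h.2.2.2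
  refine ⟨u, v, h1, ?_, ?_⟩
  · by_cases hu : u = []
    · exact Or.inl hu
    · exact Or.inr ⟨hu, SA_left hSA, Ips_left hI, h2⟩
  · by_cases hv : v = []
    · left
      rw [hv, List.reverse_nil, flp_nil]
    · right
      have hsplit : ∀ a b : Wlk d, flp j v.reverse = a ++ b →
          v = (flp j b).reverse ++ (flp j a).reverse := by
        intro a b hab
        have h4 := flp_split hab
        have h5 := congrArg List.reverse h4
        rw [List.reverse_reverse, List.reverse_append] at h5
        exact h5
      refine ⟨?_, ?_, ?_, ?_⟩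
      · apply flp_ne_nil
        intro h4
        exact hv (List.reverse_eq_nil_iff.mp h4)
      · exact SA_flp (SA_reverse.2 (SA_right hSA))
      · intro a b hab ha
        have h4 := hsplit a b hab
        have h5 : (flp j a).reverse ≠ [] := by
          intro h6
          exact flp_ne_nil ha (List.reverse_eq_nil_iff.mp h6)
        have h6 := (Fps_right hF) _ _ h4 h5
        rw [pos_reverse, pos_flp_ne j a 0 (fun h7 => hj h7.symm)] at h6
        exact h6
      · intro a b hab
        have h4 := hsplit a b hab
        have h5 : pos v j = pos (flp j b).reverse j + pos (flp j a).reverse j := by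
          conv_lhs => rw [h4]
          rw [pos_append_apply]
        have h6 : pos (flp j a).reverse j = - pos a j := by
          rw [pos_reverse, pos_flp_self]
        have h7 : pos (flp j v.reverse) j = - pos v j := by
          rw [pos_flp_self, pos_reverse]
        have h8 : pos (flp j b).reverse j ≤ 0 := by
          by_cases hb : (flp j b).reverse = []
          · rw [hb, pos_nil_apply]
          · exact (h3 _ _ h4 hb).le
        omega

theorem bet_le (j : Fin (d + 1)) (hj : j ≠ 0) (n : ℕ) : bet d n ≤ S j n ^ 2 := by
  have hex : ∀ l : Wlk d, SB l → ∃ u v : Wlk d, l = u ++ v ∧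
      (u = [] ∨ Leg j u) ∧ (flp j v.reverse = [] ∨ Leg j (flp j v.reverse)) := BRL_dec j hj
  choose! f g h1 h2 h3 using hex
  have h4 := ms_pair_le (zc d) 0 {l : Wlk d | SB l ∧ l.length + 1 < 2 ^ n}
    {l : Wlk d | (l = [] ∨ Leg j l) ∧ l.length + 1 < 2 ^ n}
    {l : Wlk d | (l = [] ∨ Leg j l) ∧ l.length + 1 < 2 ^ n}
    f (fun l => flp j (g l).reverse)
    (fun l hl => by
      have h5 := congrArg List.length (h1 l hl.1)
      rw [List.length_append] at h5
      have h6 := hl.2
      exact ⟨h2 l hl.1, by omega⟩)
    (fun l hl => by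
      have h5 := congrArg List.length (h1 l hl.1)
      rw [List.length_append] at h5
      have h6 := hl.2
      refine ⟨h3 l hl.1, ?_⟩
      rw [flp_length, List.length_reverse]
      omega)
    (fun l hl => by
      have h5 := congrArg List.length (h1 l hl.1)
      rw [List.length_append] at h5
      rw [flp_length, List.length_reverse]
      omega)
    (fun l hl l' hl' h5 h6 => by
      have h7 := flp_inj h6
      have h8 := List.reverse_injective h7
      rw [h1 l hl.1, h1 l' hl'.1, h5, h8])
  rw [pow_zero, one_mul] at h4
  have h5 := ms_LgB j n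
  unfold bet
  refine h4.trans ?_
  rw [pow_two]
  exact mul_le_mul' h5 h5

end EXC
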