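import Pool.Agent.EXC.RET

/-!
# EXC BUQ: the walks of the block model are lists of blocks

* `Blk_inj`: if `b ++ r = b' ++ r'` with `k`-blocks `b`, `b'` then `b = b'`, `r = r'`: otherwise `b' = b ++ s` (or the other way
  round), `s ≠ []`, `pos s 0 = 0`, `k = ret b' = k + ret s` and `ret s ≥ 1`.
* `Wm k m` = the walks `L.flatten` with `L.length = m`; `ms z (Wm k m) = (ms z {Blk k}) ^ m` (induction, `ms_mul`).
* `GE_BW`: a walk in `BW k` is in exactly one `Wm k m`, `m = ret w / k`; its weight is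
  `exp (α k) ^ m * exp (-t) ^ length`.
-/

set_option autoImplicit false

open scoped ENNReal BigOperators
open CNP

namespace EXC

variable {d : ℕ}

theorem Blk_app_nil {k : ℕ} {b t : Wlk d} (h : Blk k b) (h' : Blk k (b ++ t)) : t = [] := by
  by_contra hne
  have h1 := h'.1.2.2
  rw [pos_append_apply, h.1.2.2, zero_add] at h1
  have h2 := h'.2
  rw [ret_append b t h.1.2.2, h.2] at h2
  have h3 := ret_pos hne h1
  omega

theorem Blk_inj {k : ℕ} {b r b' r' : Wlk d} (h : Blk k b) (h' : Blk k b') (he : b ++ r = b' ++ r') :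
    b = b' ∧ r = r' := by
  rcases List.append_eq_append_iff.mp he with ⟨t, h1, h2⟩ | ⟨t, h1, h2⟩
  · subst h1
    have h3 := Blk_app_nil h h'
    subst h3
    exact ⟨by rw [List.append_nil], by rw [h2, List.nil_append]⟩
  · subst h1
    have h3 := Blk_app_nil h' h
    subst h3
    exact ⟨by rw [List.append_nil], by rw [h2, List.nil_append]⟩

/-- Concatenations of `m` blocks. -/
def Wm (d k m : ℕ) : Set (Wlk d) := {w | ∃ L : List (Wlk d), L.length = m ∧ (∀ b ∈ L, Blk k b) ∧ w = L.flatten}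

theorem Wm_zero (k : ℕ) : Wm d k 0 = {[]} := by
  ext w
  constructor
  · rintro ⟨L, hL, -, hw⟩
    rw [List.length_eq_zero_iff] at hL
    subst hL
    rw [hw]
    rfl
  · intro h
    rw [Set.mem_singleton_iff] at h
    subst h
    exact ⟨[], rfl, fun b hb => absurd hb List.not_mem_nil, rfl⟩

theorem Wm_succ (k m : ℕ) :
    Wm d k (m + 1) = {l : Wlk d | ∃ s ∈ {l : Wlk d | Blk k l}, ∃ t ∈ Wm d k m, l = s ++ t} := by
  ext w
  constructor
  · rintro ⟨L, hL, hA, hw⟩
    cases L with
    | nil =>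
      rw [List.length_nil] at hL
      omega
    | cons a L =>
      refine ⟨a, hA a List.mem_cons_self, L.flatten, ⟨L, ?_, ?_, rfl⟩, ?_⟩
      · rw [List.length_cons] at hL
        omega
      · intro b hb
        exact hA b (List.mem_cons_of_mem a hb)
      · rw [hw, List.flatten_cons]
  · rintro ⟨a, ha, t, ⟨L, hL, hA, ht⟩, hw⟩
    refine ⟨a :: L, ?_, ?_, ?_⟩
    · rw [List.length_cons, hL]
    · intro b hb
      rcases List.mem_cons.mp hb with h | h
      · rw [h]; exact ha
      · exact hA b h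
    · rw [List.flatten_cons, hw, ht]

theorem ms_Wm (z : ℝ≥0∞) (k m : ℕ) : ms z (Wm d k m) = ms z {l : Wlk d | Blk k l} ^ m := by
  induction m with
  | zero => rw [Wm_zero, ms_singleton, List.length_nil, pow_zero, pow_zero]
  | succ m ih =>
    rw [Wm_succ, ms_mul, ih, pow_succ']
    intro s hs t _ s' hs' t' _ he
    exact Blk_inj hs hs' he

theorem Wm_ret {k m : ℕ} {w : Wlk d} (h : w ∈ Wm d k m) : ret w = k * m := by
  obtain ⟨L, hL, hb, rfl⟩ := h
  rw [ret_flatten L hb, hL]

theorem BW_iff {k : ℕ} {w : Wlk d} : BW k w ↔ ∃ m : ℕ, w ∈ Wm d k m := by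
  constructor
  · rintro ⟨L, hb, hw⟩
    exact ⟨L.length, L, rfl, hb, hw⟩
  · rintro ⟨m, L, -, hb, hw⟩
    exact ⟨L, hb, hw⟩

theorem GE_BW (k : ℕ) (hk : 1 ≤ k) (α t : ℝ) :
    GE {w : Wlk d | BW k w} α t = ∑' m : ℕ, (ENNReal.ofReal (Real.exp (α * k)) *
      ms (ENNReal.ofReal (Real.exp (-t))) {l : Wlk d | Blk k l}) ^ m := by
  set z : ℝ≥0∞ := ENNReal.ofReal (Real.exp (-t)) with hz
  set c : ℝ≥0∞ := ENNReal.ofReal (Real.exp (α * k)) with hc
  have h1 : ∀ m : ℕ, (c * ms z {l : Wlk d | Blk k l}) ^ m =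
      ∑' w : Wlk d, (Wm d k m).indicator (fun w => c ^ m * z ^ w.length) w := by
    intro m
    rw [mul_pow, ← ms_Wm, ms, ← ENNReal.tsum_mul_left]
    refine tsum_congr fun w => ?_
    by_cases h : w ∈ Wm d k m
    · rw [Set.indicator_of_mem h, Set.indicator_of_mem h]
    · rw [Set.indicator_of_notMem h, Set.indicator_of_notMem h, mul_zero]
  simp_rw [h1]
  rw [ENNReal.tsum_comm]
  unfold GE
  refine tsum_congr fun w => ?_
  by_cases hw : BW k w
  · obtain ⟨m, hm⟩ := BW_iff.1 hw
    have hr := Wm_ret hm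
    rw [Set.indicator_of_mem (show w ∈ {w : Wlk d | BW k w} from hw), tsum_eq_single m]
    · rw [Set.indicator_of_mem hm, hc, hz, ← ENNReal.ofReal_pow (Real.exp_pos _).le,
        ← ENNReal.ofReal_pow (Real.exp_pos _).le, ← ENNReal.ofReal_mul (by positivity),
        ← Real.exp_nat_mul, ← Real.exp_nat_mul, ← Real.exp_add, hr]
      congr 2
      push_cast
      ring
    · intro m' hm'
      apply Set.indicator_of_notMem
      intro h
      have h2 := Wm_ret h
      rw [hr] at h2
      exact hm' (Nat.eq_of_mul_eq_mul_left (by omega) h2).symm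
  · rw [Set.indicator_of_notMem (show w ∉ {w : Wlk d | BW k w} from hw)]
    symm
    rw [ENNReal.tsum_eq_zero]
    intro m
    apply Set.indicator_of_notMem
    intro h
    exact hw (BW_iff.2 ⟨m, h⟩)

end EXC
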