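import Pool.Agent.CNP.MSS

/-!
# EXC: critical half-space self-avoiding excursions have infinite mean length: definitions (MP_ec8652_mp)

The lattice is `ℤ^(d+1)`, walks are lists of steps (`CNP.Wlk`), the coordinate `0` is the height, `j ≠ 0` is a horizontal
coordinate, `z = zc d = 1 / μ` is the critical weight of a step.
`Exc`: excursions, from the wall to the wall, strictly above the wall in between (a horizontal step is an excursion).
`Leg j`: walks which are strictly above the wall after the start and end at a maximum of the coordinate `j`.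
`WB j`: walks with positive `j`-coordinate after the start which end at a maximum of the coordinate `j`.
-/

set_option autoImplicit false

open scoped ENNReal BigOperators
open CNP

noncomputable section

namespace EXC

variable {d : ℕ}

/-- Excursions. -/
def Exc (l : Wlk d) : Prop :=
  l ≠ [] ∧ SA l ∧ pos l 0 = 0 ∧ ∀ u v : Wlk d, l = u ++ v → u ≠ [] → v ≠ [] → 0 < pos u 0

/-- Level excursions: from the level `0` to the level `0` without visiting it in between (above or below). -/
def LE (l : Wlk d) : Prop :=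
  l ≠ [] ∧ SA l ∧ pos l 0 = 0 ∧ ∀ u v : Wlk d, l = u ++ v → u ≠ [] → v ≠ [] → pos u 0 ≠ 0

/-- Legs. -/
def Leg (j : Fin (d + 1)) (l : Wlk d) : Prop :=
  l ≠ [] ∧ SA l ∧ Ips l ∧ ∀ u v : Wlk d, l = u ++ v → pos u j ≤ pos l j

/-- Weak bridges in the direction `j`. -/
def WB (j : Fin (d + 1)) (l : Wlk d) : Prop :=
  l ≠ [] ∧ SA l ∧ (∀ u v : Wlk d, l = u ++ v → u ≠ [] → 0 < pos u j) ∧
    ∀ u v : Wlk d, l = u ++ v → pos u j ≤ pos l j

/-- The step in the direction `j`. -/
def ej (j : Fin (d + 1)) : Stp d := (j, true)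

/-- Flip the coordinate `i` of a step. -/
def fls (i : Fin (d + 1)) (s : Stp d) : Stp d := if s.1 = i then (s.1, !s.2) else s

/-- Flip the coordinate `i` of a walk. -/
def flp (i : Fin (d + 1)) (l : Wlk d) : Wlk d := l.map (fls i)

/-- Glue two legs. -/
def glu (j : Fin (d + 1)) (σ τ : Wlk d) : Wlk d := σ ++ (ej j :: (flp 0 τ).reverse)

/-- The legs of class `n`. -/
def Lg (j : Fin (d + 1)) (n : ℕ) : Set (Wlk d) :=
  {l | Leg j l ∧ 2 ^ n ≤ l.length + 1 ∧ l.length + 1 < 2 ^ (n + 1)}

/-- The excursions which are glued of two legs of class `n`. -/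
def G (j : Fin (d + 1)) (n : ℕ) : Set (Wlk d) :=
  {l | ∃ σ ∈ Lg j n, ∃ τ ∈ Lg j n, pos σ 0 = pos τ 0 ∧ l = glu j σ τ}

/-- The mass of the legs of class `n`. -/
def am (j : Fin (d + 1)) (n : ℕ) : ℝ≥0∞ := ms (zc d) (Lg j n)

/-- The mass of the legs of class `n` which end at height `k`. -/
def U (j : Fin (d + 1)) (n : ℕ) (k : ℤ) : ℝ≥0∞ := ms (zc d) (Lg j n ∩ {l | pos l 0 = k})

/-- The sum of the squares. -/
def F (j : Fin (d + 1)) (n : ℕ) : ℝ≥0∞ := ∑' k : ℤ, U j n k ^ 2

/-- One plus the mass of the legs of class less than `n`. -/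
def S (j : Fin (d + 1)) (n : ℕ) : ℝ≥0∞ := 1 + ∑ i ∈ Finset.range n, am j i

/-- The mass of the short bridges. -/
def bet (d n : ℕ) : ℝ≥0∞ := ms (zc d) {l : Wlk d | SB l ∧ l.length + 1 < 2 ^ n}

/-- The mass of the short weak bridges. -/
def wbt (j : Fin (d + 1)) (n : ℕ) : ℝ≥0∞ := ms (zc d) {l : Wlk d | WB j l ∧ l.length < 2 ^ n}

/-- The mean length: the sum of `length * z ^ length` over the excursions. -/
def AA (d : ℕ) : ℝ≥0∞ :=
  ∑' l : Wlk d, {l : Wlk d | Exc l}.indicator (fun l => (l.length : ℝ≥0∞) * zc d ^ l.length) l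

end EXC
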