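import Mathlib

/-!
# EXC FEK: supermultiplicative sequences (Fekete)
-/

set_option autoImplicit false

open scoped ENNReal BigOperators Topology
open Filter

namespace EXC

/-- Superadditive powers. -/
theorem fek_pow (u : ℕ → ℝ) (h0 : ∀ n, 0 ≤ u n) (hm : ∀ m n, u m * u n ≤ u (m + n)) (N r : ℕ) :
    ∀ q : ℕ, u N ^ q * u r ≤ u (q * N + r) := by
  intro q
  induction q with
  | zero => simp
  | succ q ih =>
    calc u N ^ (q + 1) * u r = u N * (u N ^ q * u r) := by ring
      _ ≤ u N * u (q * N + r) := mul_le_mul_of_nonneg_left ih (h0 N)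
      _ ≤ u (N + (q * N + r)) := hm _ _
      _ = u ((q + 1) * N + r) := by congr 1; ring

theorem fek (u : ℕ → ℝ) (h0 : ∀ n, 0 ≤ u n) (hm : ∀ m n, u m * u n ≤ u (m + n)) (n0 : ℕ) (hp : ∀ n, n0 ≤ n → 0 < u n)
    (C : ℝ) (hC : ∀ n : ℕ, u n ≤ Real.exp (C * (n : ℝ))) :
    ∃ L : ℝ, Tendsto (fun n : ℕ => Real.log (u n) / (n : ℝ)) atTop (𝓝 L) ∧
      (∀ t, L < t → ∑' n : ℕ, ENNReal.ofReal (u n * Real.exp (-(t * (n : ℝ)))) < ⊤) ∧
      (∀ t, t < L → ∑' n : ℕ, ENNReal.ofReal (u n * Real.exp (-(t * (n : ℝ)))) = ⊤) := by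
  set N0 : ℕ := max n0 1 with hN0
  have hN0' : ∀ n, N0 ≤ n → n0 ≤ n ∧ 1 ≤ n := fun n hn =>
    ⟨le_trans (le_max_left _ _) hn, le_trans (le_max_right _ _) hn⟩
  set T : Set ℝ := {x | ∃ n : ℕ, N0 ≤ n ∧ x = Real.log (u n) / (n : ℝ)} with hT
  have hne : T.Nonempty := ⟨_, N0, le_rfl, rfl⟩
  have hub : ∀ n : ℕ, N0 ≤ n → Real.log (u n) / (n : ℝ) ≤ C := by
    intro n hn
    have hn1 : (0 : ℝ) < n := by exact_mod_cast (hN0' n hn).2
    rw [div_le_iff₀ hn1]
    rw [Real.log_le_iff_le_exp (hp n (hN0' n hn).1)]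
    exact hC n
  have hbdd : BddAbove T := ⟨C, by rintro x ⟨n, hn, rfl⟩; exact hub n hn⟩
  set L : ℝ := sSup T with hL
  have hle : ∀ n : ℕ, N0 ≤ n → Real.log (u n) / (n : ℝ) ≤ L := fun n hn =>
    le_csSup hbdd ⟨n, hn, rfl⟩
  have hlow : ∀ ε : ℝ, 0 < ε → ∀ᶠ n : ℕ in atTop, L - ε < Real.log (u n) / (n : ℝ) := by
    intro ε hε
    obtain ⟨x, ⟨N, hN, rfl⟩, hx⟩ := exists_lt_of_lt_csSup hne (show L - ε / 2 < sSup T by
      rw [← hL]; linarith)
    have hN1 : 1 ≤ N := (hN0' N hN).2
    have hNr : (0 : ℝ) < N := by exact_mod_cast hN1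
    set a : ℝ := Real.log (u N) / (N : ℝ) with ha
    set B : ℝ := ∑ r ∈ Finset.range (2 * N), |Real.log (u r)| with hB
    have hB0 : 0 ≤ B := Finset.sum_nonneg fun _ _ => abs_nonneg _
    have hBr : ∀ r, r < 2 * N → -B ≤ Real.log (u r) := by
      intro r hr
      have h1 : |Real.log (u r)| ≤ B :=
        Finset.single_le_sum (f := fun r => |Real.log (u r)|) (fun _ _ => abs_nonneg _)
          (Finset.mem_range.2 hr)
      linarith [neg_abs_le (Real.log (u r))]
    have hlim : Tendsto (fun n : ℕ => (2 * N * |a| + B) / (n : ℝ)) atTop (𝓝 0) :=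
      tendsto_const_div_atTop_nhds_zero_nat _
    have hev := (hlim.eventually (gt_mem_nhds (show (0 : ℝ) < ε / 2 by linarith)))
    filter_upwards [hev, eventually_ge_atTop (2 * N)] with n hn1 hn2
    have hnpos : (0 : ℝ) < n := by
      have : 0 < n := by omega
      exact_mod_cast this
    set q : ℕ := n / N - 1 with hq
    set r : ℕ := n - q * N with hr
    have hdiv : 2 ≤ n / N := (Nat.le_div_iff_mul_le (by omega)).2 hn2
    have hmod := Nat.div_add_mod n N
    have hmodlt := Nat.mod_lt n (show 0 < N by omega)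
    have hq1 : q + 1 = n / N := by omega
    have hqn : q * N + N + n % N = n := by
      have : N * (n / N) = q * N + N := by rw [← hq1]; ring
      omega
    have hr1 : r = N + n % N := by omega
    have hrn : q * N + r = n := by omega
    have hrlt : r < 2 * N := by omega
    have hrN : N ≤ r := by omega
    have huN : 0 < u N := hp N (hN0' N hN).1
    have hur : 0 < u r := hp r (le_trans (hN0' N hN).1 hrN)
    have hun : 0 < u n := hp n (by have := (hN0' N hN).1; omega)
    have h1 := fek_pow u h0 hm N r q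
    rw [hrn] at h1
    have h2 : (q : ℝ) * Real.log (u N) + Real.log (u r) ≤ Real.log (u n) := by
      have := Real.log_le_log (by positivity) h1
      rwa [Real.log_mul (pow_pos huN q).ne' hur.ne', Real.log_pow] at this
    have h3 : Real.log (u N) = N * a := by rw [ha]; field_simp
    have h4 : (q : ℝ) * N + r = n := by exact_mod_cast hrn
    have h5 : (r : ℝ) ≤ 2 * N := by exact_mod_cast hrlt.le
    have h6 : (n : ℝ) * a - (2 * N * |a| + B) ≤ Real.log (u n) := by
      have h7 : (q : ℝ) * Real.log (u N) = n * a - r * a := by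
        rw [h3]
        have : (q : ℝ) * N = n - r := by linarith
        calc (q : ℝ) * (N * a) = (q * N) * a := by ring
          _ = (n - r) * a := by rw [this]
          _ = _ := by ring
      have h8 : (r : ℝ) * a ≤ 2 * N * |a| := by
        calc (r : ℝ) * a ≤ r * |a| := mul_le_mul_of_nonneg_left (le_abs_self a) (by positivity)
          _ ≤ 2 * N * |a| := mul_le_mul_of_nonneg_right h5 (abs_nonneg a)
      have h9 := hBr r hrlt
      linarith
    have h10 : a - (2 * N * |a| + B) / n ≤ Real.log (u n) / n := by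
      rw [le_div_iff₀ hnpos, sub_mul, div_mul_cancel₀ _ hnpos.ne']
      linarith
    linarith
  have htend : Tendsto (fun n : ℕ => Real.log (u n) / (n : ℝ)) atTop (𝓝 L) := by
    rw [tendsto_order]
    refine ⟨fun b hb => ?_, fun b hb => ?_⟩
    · filter_upwards [hlow (L - b) (by linarith)] with n hn
      linarith
    · filter_upwards [eventually_ge_atTop N0] with n hn
      exact lt_of_le_of_lt (hle n hn) hb
  refine ⟨L, htend, fun t ht => ?_, fun t ht => ?_⟩
  · have hsum : Summable fun n : ℕ => u n * Real.exp (-(t * (n : ℝ))) := by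
      have hg : Summable fun n : ℕ => Real.exp (-(t - L)) ^ n :=
        summable_geometric_of_lt_one (Real.exp_pos _).le (by
          rw [Real.exp_lt_one_iff]
          linarith)
      refine Summable.of_norm_bounded_eventually_nat hg ?_
      filter_upwards [eventually_ge_atTop N0] with n hn
      have hn1 : (0 : ℝ) < n := by exact_mod_cast (hN0' n hn).2
      have hun := hp n (hN0' n hn).1
      have h1 : u n ≤ Real.exp (L * n) := by
        rw [← Real.log_le_iff_le_exp hun]
        have := hle n hn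
        rwa [div_le_iff₀ hn1] at this
      rw [Real.norm_eq_abs, abs_of_nonneg (by positivity), ← Real.exp_nat_mul]
      calc u n * Real.exp (-(t * (n : ℝ))) ≤ Real.exp (L * n) * Real.exp (-(t * (n : ℝ))) :=
            mul_le_mul_of_nonneg_right h1 (Real.exp_pos _).le
        _ = Real.exp (n * -(t - L)) := by rw [← Real.exp_add]; congr 1; ring
    rw [← ENNReal.ofReal_tsum_of_nonneg (fun n => mul_nonneg (h0 n) (Real.exp_pos _).le) hsum]
    exact ENNReal.ofReal_lt_top
  · by_contra hcon
    have h1 := ENNReal.tendsto_atTop_zero_of_tsum_ne_top hcon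
    have h2 := (tendsto_order.1 h1).2 1 (by norm_num)
    have h3 := (tendsto_order.1 htend).1 t ht
    obtain ⟨n, hn1, hn2, hn3⟩ := (h2.and (h3.and (eventually_ge_atTop N0))).exists
    have hn0 : (0 : ℝ) < n := by exact_mod_cast (hN0' n hn3).2
    have hun := hp n (hN0' n hn3).1
    rw [lt_div_iff₀ hn0] at hn2
    have h4 : Real.exp (t * n) ≤ u n := by
      rw [← Real.le_log_iff_exp_le hun]
      exact hn2.le
    have h5 : 1 ≤ u n * Real.exp (-(t * (n : ℝ))) := by
      calc (1 : ℝ) = Real.exp (t * n) * Real.exp (-(t * (n : ℝ))) := by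
            rw [← Real.exp_add]; simp
        _ ≤ _ := mul_le_mul_of_nonneg_right h4 (Real.exp_pos _).le
    have h6 : (1 : ℝ≥0∞) ≤ ENNReal.ofReal (u n * Real.exp (-(t * (n : ℝ)))) := by
      rw [← ENNReal.ofReal_one]
      exact ENNReal.ofReal_le_ofReal h5
    exact absurd hn1 (not_lt.2 h6)

/-- The growth rate of a positive sequence and its series. -/
theorem limsup_ser (u : ℕ → ℝ) (hp : ∀ n, 0 < u n) (c C : ℝ) (hc : ∀ n : ℕ, Real.exp (c * (n : ℝ)) ≤ u n)
    (hC : ∀ n : ℕ, u n ≤ Real.exp (C * (n : ℝ))) (M : ℝ)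
    (h1 : ∀ t, M < t → ∑' n : ℕ, ENNReal.ofReal (u n * Real.exp (-(t * (n : ℝ)))) < ⊤)
    (h2 : ∀ t, t < M → ∑' n : ℕ, ENNReal.ofReal (u n * Real.exp (-(t * (n : ℝ)))) = ⊤) :
    limsup (fun n : ℕ => Real.log (u n) / (n : ℝ)) atTop = M := by
  have hlo : ∀ᶠ n : ℕ in atTop, c ≤ Real.log (u n) / (n : ℝ) := by
    filter_upwards [eventually_ge_atTop 1] with n hn
    have hn0 : (0 : ℝ) < n := by exact_mod_cast hn
    rw [le_div_iff₀ hn0, Real.le_log_iff_exp_le (hp n)]
    exact hc n
  have hup : ∀ᶠ n : ℕ in atTop, Real.log (u n) / (n : ℝ) ≤ C := by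
    filter_upwards [eventually_ge_atTop 1] with n hn
    have hn0 : (0 : ℝ) < n := by exact_mod_cast hn
    rw [div_le_iff₀ hn0, Real.log_le_iff_le_exp (hp n)]
    exact hC n
  have hbu : IsBoundedUnder (· ≤ ·) atTop (fun n : ℕ => Real.log (u n) / (n : ℝ)) :=
    isBoundedUnder_of_eventually_le hup
  have hbl : IsBoundedUnder (· ≥ ·) atTop (fun n : ℕ => Real.log (u n) / (n : ℝ)) :=
    isBoundedUnder_of_eventually_ge hlo
  apply le_antisymm
  · apply le_of_forall_gt_imp_ge_of_dense
    intro t ht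
    apply limsup_le_of_le hbl.isCoboundedUnder_le
    have h3 := ENNReal.tendsto_atTop_zero_of_tsum_ne_top (h1 t ht).ne
    have h4 := (tendsto_order.1 h3).2 1 (by norm_num)
    filter_upwards [h4, eventually_ge_atTop 1] with n hn1 hn2
    have hn0 : (0 : ℝ) < n := by exact_mod_cast hn2
    rw [div_le_iff₀ hn0, Real.log_le_iff_le_exp (hp n)]
    by_contra hcon
    push Not at hcon
    have h5 : 1 ≤ u n * Real.exp (-(t * (n : ℝ))) := by
      calc (1 : ℝ) = Real.exp (t * n) * Real.exp (-(t * (n : ℝ))) := by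
            rw [← Real.exp_add]; simp
        _ ≤ _ := mul_le_mul_of_nonneg_right hcon.le (Real.exp_pos _).le
    have h6 : (1 : ℝ≥0∞) ≤ ENNReal.ofReal (u n * Real.exp (-(t * (n : ℝ)))) := by
      rw [← ENNReal.ofReal_one]
      exact ENNReal.ofReal_le_ofReal h5
    exact absurd hn1 (not_lt.2 h6)
  · apply le_of_forall_lt_imp_le_of_dense
    intro t ht
    apply le_limsup_of_frequently_le _ hbu
    by_contra hcon
    rw [not_frequently] at hcon
    obtain ⟨s, hs1, hs2⟩ := exists_between ht
    have h3 := h2 s hs2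
    have hsum : Summable fun n : ℕ => u n * Real.exp (-(s * (n : ℝ))) := by
      have hg : Summable fun n : ℕ => Real.exp (-(s - t)) ^ n :=
        summable_geometric_of_lt_one (Real.exp_pos _).le (by
          rw [Real.exp_lt_one_iff]
          linarith)
      refine Summable.of_norm_bounded_eventually_nat hg ?_
      filter_upwards [hcon, eventually_ge_atTop 1] with n hn hn2
      push Not at hn
      have hn1 : (0 : ℝ) < n := by exact_mod_cast hn2
      have h4 : u n ≤ Real.exp (t * n) := by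
        rw [← Real.log_le_iff_le_exp (hp n)]
        rw [div_lt_iff₀ hn1] at hn
        exact hn.le
      rw [Real.norm_eq_abs, abs_of_nonneg (mul_nonneg (hp n).le (Real.exp_pos _).le),
        ← Real.exp_nat_mul]
      calc u n * Real.exp (-(s * (n : ℝ))) ≤ Real.exp (t * n) * Real.exp (-(s * (n : ℝ))) :=
            mul_le_mul_of_nonneg_right h4 (Real.exp_pos _).le
        _ = Real.exp (n * -(s - t)) := by rw [← Real.exp_add]; congr 1; ring
    rw [← ENNReal.ofReal_tsum_of_nonneg (fun n => mul_nonneg (hp n).le (Real.exp_pos _).le) hsum]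
      at h3
    exact absurd h3 ENNReal.ofReal_ne_top

end EXC
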