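import Pool.Agent.EXC.INF
import Pool.Agent.EXC.AN2

/-!
# EXC FIN: the final theorems
-/

set_option autoImplicit false

open scoped ENNReal BigOperators Topology
open CNP Filter

namespace EXC

/-- The series of the mean length diverges. -/
theorem exc_series (d : ℕ) (hd : 1 ≤ d) :
    ¬ Summable (fun n : ℕ => (n : ℝ) * (Set.ncard {l : Wlk d | Exc l ∧ l.length = n} : ℝ) / mu d ^ n) := by
  intro hs
  have h1 : AA d = ⊤ := exc_mean d hd
  unfold AA at h1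
  rw [sum_len {l : Wlk d | Exc l} (fun n => (n : ℝ≥0∞) * zc d ^ n)] at h1
  have h2 : ∀ n : ℕ, (Set.ncard {l : Wlk d | l ∈ {l : Wlk d | Exc l} ∧ l.length = n} : ℝ≥0∞) * ((n : ℝ≥0∞) * zc d ^ n) =
      ENNReal.ofReal ((n : ℝ) * (Set.ncard {l : Wlk d | Exc l ∧ l.length = n} : ℝ) / mu d ^ n) := by
    intro n
    unfold zc
    rw [div_eq_mul_inv, ENNReal.ofReal_mul (by positivity), ENNReal.ofReal_mul (Nat.cast_nonneg _),
      ENNReal.ofReal_natCast, ENNReal.ofReal_natCast, ← inv_pow, ENNReal.ofReal_pow (inv_nonneg.mpr (mu_pos d).le)]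
    simp only [Set.mem_setOf_eq]
    ring
  rw [tsum_congr h2] at h1
  have hnn : ∀ n : ℕ, 0 ≤ (n : ℝ) * (Set.ncard {l : Wlk d | Exc l ∧ l.length = n} : ℝ) / mu d ^ n := by
    intro n
    have := mu_pos d
    positivity
  rw [← ENNReal.ofReal_tsum_of_nonneg hnn hs] at h1
  exact ENNReal.ofReal_ne_top h1

theorem Blk_pow (d k m : ℕ) (z : ℝ≥0∞) : ms z {l : Wlk d | Blk (k * m) l} ≤ ms z {l : Wlk d | Blk k l} ^ m := by
  induction m with
  | zero =>
    have h : {l : Wlk d | Blk (k * 0) l} = {[]} := by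
      ext l
      rw [mul_zero]
      exact Blk_zero
    rw [h, ms_singleton, List.length_nil, pow_zero, pow_zero]
  | succ m ih =>
    have h := ms_app_le z {l : Wlk d | Blk (k * m) l} {l : Wlk d | Blk k l} {l : Wlk d | Blk (k * (m + 1)) l} (by
      intro l hl
      rw [mul_add, mul_one] at hl
      obtain ⟨u, v, h1, h2, h3⟩ := Blk_split hl
      exact ⟨u, h2, v, h3, h1⟩)
    rw [pow_succ]
    exact h.trans (mul_le_mul' ih le_rfl)

/-- The block models. -/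
theorem blocks (d : ℕ) (hd : 1 ≤ d) : ∃ φ : ℕ → ℝ → ℝ,
    (∀ k : ℕ, 1 ≤ k → ∀ α : ℝ,
      Tendsto (fun n : ℕ => Real.log (Zr {w : Wlk d | BW k w} α n) / (n : ℝ)) atTop (𝓝 (φ k α))) ∧
    (∀ k : ℕ, 1 ≤ k → ContDiff ℝ 1 (φ k)) ∧
    (∀ k : ℕ, 1 ≤ k → ∀ α : ℝ, Real.log (mu d) ≤ φ k α) ∧
    (∀ k : ℕ, 1 ≤ k → ∀ α : ℝ, φ k α = Real.log (mu d) → deriv (φ k) α = 0) ∧
    (∀ k m : ℕ, 1 ≤ k → 1 ≤ m → ∀ α : ℝ, φ (k * m) α ≤ φ k α) ∧
    ∀ α : ℝ, limsup (fun n : ℕ => Real.log (Zr {w : Wlk d | Loop w} α n) / (n : ℝ)) atTop =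
      ⨅ k : ℕ, φ (k + 1) α := by
  have hex : ∀ k : ℕ, ∃ φ : ℝ → ℝ, 1 ≤ k →
      (∀ α, Tendsto (fun n : ℕ => Real.log (Zr {w : Wlk d | BW k w} α n) / (n : ℝ)) atTop (𝓝 (φ α))) ∧
      (∀ α t, φ α < t →
        ENNReal.ofReal (Real.exp (k * α)) * ms (ENNReal.ofReal (Real.exp (-t))) {l : Wlk d | Blk k l} < 1) ∧
      (∀ α t, t < φ α →
        1 ≤ ENNReal.ofReal (Real.exp (k * α)) * ms (ENNReal.ofReal (Real.exp (-t))) {l : Wlk d | Blk k l}) ∧
      ∀ α, Real.log (mu d) ≤ φ α := by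
    intro k
    by_cases hk : 1 ≤ k
    · obtain ⟨φ, h⟩ := phi_ex d k hd hk
      exact ⟨φ, fun _ => h⟩
    · exact ⟨fun _ => 0, fun h => absurd h hk⟩
  choose φ hφ using hex
  have hc1 : ∀ k : ℕ, 1 ≤ k → ContDiff ℝ 1 (φ k) := by
    intro k hk
    obtain ⟨-, h1, h2, h3⟩ := hφ k hk
    refine phi_c1 (bn d k) (bn_nonneg d k) k (by exact_mod_cast hk) (Real.log (mu d)) (fun t ht => bn_fin d k t ht)
      (bn_inf d k hd hk) (φ k) ?_ ?_ h3
    · intro α t ht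
      rw [← ms_bn]
      exact h1 α t ht
    · intro α t ht
      rw [← ms_bn]
      exact h2 α t ht
  refine ⟨φ, fun k hk => (hφ k hk).1, hc1, fun k hk => (hφ k hk).2.2.2, ?_, ?_, ?_⟩
  · intro k hk α hα
    obtain ⟨-, h1, h2, h3⟩ := hφ k hk
    refine (der_zero (bn d k) (bn_nonneg d k) k (by exact_mod_cast hk) (Real.log (mu d))
      (fun t ht => bn_fin d k t ht) (bn_inf d k hd hk) (φ k) ?_ ?_ h3 α hα).deriv
    · intro α t ht
      rw [← ms_bn]
      exact h1 α t ht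
    · intro α t ht
      rw [← ms_bn]
      exact h2 α t ht
  · intro k m hk hm α
    by_contra hcon
    rw [not_le] at hcon
    obtain ⟨t, ht1, ht2⟩ := exists_between hcon
    have hkm : 1 ≤ k * m := Nat.one_le_iff_ne_zero.mpr (Nat.mul_ne_zero (by omega) (by omega))
    have h1 := (hφ k hk).2.1 α t ht1
    have h2 := (hφ (k * m) hkm).2.2.1 α t ht2
    have h3 : ENNReal.ofReal (Real.exp ((k * m : ℕ) * α)) *
        ms (ENNReal.ofReal (Real.exp (-t))) {l : Wlk d | Blk (k * m) l} ≤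
        (ENNReal.ofReal (Real.exp (k * α)) * ms (ENNReal.ofReal (Real.exp (-t))) {l : Wlk d | Blk k l}) ^ m := by
      rw [mul_pow, ← ENNReal.ofReal_pow (Real.exp_pos _).le, ← Real.exp_nat_mul]
      refine mul_le_mul' (le_of_eq ?_) (Blk_pow d k m _)
      congr 2
      push_cast
      ring
    have h4 := h2.trans h3
    have h5 : (ENNReal.ofReal (Real.exp (k * α)) * ms (ENNReal.ofReal (Real.exp (-t))) {l : Wlk d | Blk k l}) ^ m < 1 :=
      pow_lt_one₀ zero_le h1 (by omega)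
    exact absurd h4 (not_le.mpr h5)
  · intro α
    exact inf_phi d hd φ (fun k hk => (hφ k hk).2.1) (fun k hk => (hφ k hk).2.2.1) (fun k hk => (hφ k hk).2.2.2) α

end EXC
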