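import Pool.Agent.EXC.Defs
import Pool.Agent.CNP.REV
import Pool.Agent.CNP.CNA
import Pool.Agent.CNP.CNC

/-!
# EXC FLI: flips, cutting at a maximum, finite sets have finite mass
-/

set_option autoImplicit false

open scoped ENNReal BigOperators
open CNP

namespace EXC

variable {d : ℕ}

theorem fls_fls (i : Fin (d + 1)) (s : Stp d) : fls i (fls i s) = s := by
  unfold fls
  obtain ⟨a, b⟩ := s
  by_cases h : a = i
  · simp [h]
  · simp [h]

theorem stp_fls_self (i : Fin (d + 1)) (s : Stp d) : stp (fls i s) i = -stp s i := by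
  unfold fls stp
  obtain ⟨a, b⟩ := s
  by_cases h : a = i
  · subst h
    cases b <;> simp
  · have h' : i ≠ a := fun h' => h h'.symm
    simp [h, Pi.single_eq_of_ne h']

theorem stp_fls_ne (i : Fin (d + 1)) (s : Stp d) (k : Fin (d + 1)) (hk : k ≠ i) : stp (fls i s) k = stp s k := by
  unfold fls stp
  obtain ⟨a, b⟩ := s
  by_cases h : a = i
  · subst h
    simp [Pi.single_eq_of_ne hk]
  · simp [h]

theorem flp_nil (i : Fin (d + 1)) : flp i ([] : Wlk d) = [] := rfl

theorem flp_append (i : Fin (d + 1)) (u v : Wlk d) : flp i (u ++ v) = flp i u ++ flp i v := List.map_append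

theorem flp_length (i : Fin (d + 1)) (l : Wlk d) : (flp i l).length = l.length := List.length_map _

theorem flp_reverse (i : Fin (d + 1)) (l : Wlk d) : (flp i l).reverse = flp i l.reverse := by
  unfold flp
  rw [List.map_reverse]

theorem flp_flp (i : Fin (d + 1)) (l : Wlk d) : flp i (flp i l) = l := by
  unfold flp
  rw [List.map_map]
  conv_rhs => rw [← List.map_id l]
  apply List.map_congr_left
  intro s _
  exact fls_fls i s

theorem flp_ne_nil {i : Fin (d + 1)} {l : Wlk d} (h : l ≠ []) : flp i l ≠ [] := by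
  intro h1
  exact h (List.map_eq_nil_iff.mp h1)

theorem flp_inj {i : Fin (d + 1)} {l l' : Wlk d} (h : flp i l = flp i l') : l = l' := by
  rw [← flp_flp i l, h, flp_flp]

theorem pos_flp_self (i : Fin (d + 1)) (l : Wlk d) : pos (flp i l) i = -pos l i := by
  induction l with
  | nil => simp [flp, pos_nil_apply]
  | cons s l ih =>
    have h1 : flp i (s :: l) = fls i s :: flp i l := rfl
    rw [h1, pos_cons, pos_cons, Pi.add_apply, Pi.add_apply, ih, stp_fls_self]
    ring

theorem pos_flp_ne (i : Fin (d + 1)) (l : Wlk d) (k : Fin (d + 1)) (hk : k ≠ i) : pos (flp i l) k = pos l k := by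
  induction l with
  | nil => simp [flp, pos_nil_apply]
  | cons s l ih =>
    have h1 : flp i (s :: l) = fls i s :: flp i l := rfl
    rw [h1, pos_cons, pos_cons, Pi.add_apply, Pi.add_apply, ih, stp_fls_ne i s k hk]

theorem flp_split {i : Fin (d + 1)} {l a b : Wlk d} (h : flp i l = a ++ b) : l = flp i a ++ flp i b := by
  rw [← flp_append, ← h, flp_flp]

theorem SA_flp {i : Fin (d + 1)} {l : Wlk d} (h : SA l) : SA (flp i l) := by
  intro u v w huv hv
  have h1 : l = flp i u ++ flp i v ++ flp i w := by
    rw [← flp_append, ← flp_append, ← huv, flp_flp]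
  have h2 : pos (flp i v) = 0 := by
    funext k
    by_cases hk : k = i
    · subst hk
      rw [pos_flp_self, hv]
      simp
    · rw [pos_flp_ne i v k hk, hv]
  have h3 := h _ _ _ h1 h2
  exact List.map_eq_nil_iff.mp h3

/-- Cut at the last maximum of the coordinate `i`. -/
theorem cut_max (i : Fin (d + 1)) (l : Wlk d) : ∃ u v : Wlk d, l = u ++ v ∧
    (∀ a b : Wlk d, u = a ++ b → pos a i ≤ pos u i) ∧ (∀ a b : Wlk d, v = a ++ b → a ≠ [] → pos a i < 0) := by
  induction l with
  | nil =>
    refine ⟨[], [], rfl, ?_, ?_⟩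
    · intro a b h
      rw [(List.append_eq_nil_iff.mp h.symm).1]
    · intro a b h ha
      exact absurd (List.append_eq_nil_iff.mp h.symm).1 ha
  | cons s l ih =>
    obtain ⟨u, v, h1, h2, h3⟩ := ih
    by_cases h : pos (s :: u) i < 0
    · refine ⟨[], s :: l, rfl, ?_, ?_⟩
      · intro a b h
        rw [(List.append_eq_nil_iff.mp h.symm).1]
      · intro a b hab ha
        cases a with
        | nil => exact absurd rfl ha
        | cons t a =>
          rw [List.cons_append, List.cons.injEq] at hab
          obtain ⟨h4, h5⟩ := hab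
          subst h4
          rw [pos_cons, Pi.add_apply] at h ⊢
          rw [h1] at h5
          rcases List.append_eq_append_iff.mp h5 with ⟨w, h6, h7⟩ | ⟨w, h6, h7⟩
          · rw [h6, pos_append_apply]
            by_cases hw : w = []
            · subst hw
              rw [pos_nil_apply]
              omega
            · have := h3 w b h7 hw
              omega
          · have := h2 a w h6
            omega
    · refine ⟨s :: u, v, by rw [h1, List.cons_append], ?_, h3⟩
      intro a b hab
      cases a with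
      | nil =>
        rw [pos_nil_apply]
        omega
      | cons t a =>
        rw [List.cons_append, List.cons.injEq] at hab
        obtain ⟨h4, h5⟩ := hab
        subst h4
        rw [pos_cons, pos_cons, Pi.add_apply, Pi.add_apply]
        have := h2 a b h5
        omega

theorem ms_finite {A : Set (Wlk d)} (h : A.Finite) : ms (zc d) A ≠ ⊤ := by
  rw [ms_subtype]
  haveI := h.fintype
  rw [tsum_fintype]
  refine (ENNReal.sum_lt_top.mpr (fun l _ => ?_)).ne
  exact ENNReal.pow_lt_top (lt_top_iff_ne_top.mpr (zc_ne_top d))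

theorem short_finite (N : ℕ) : {l : Wlk d | l.length < N}.Finite := by
  have h : {l : Wlk d | l.length < N} = ⋃ k ∈ Finset.range N, {l : Wlk d | l.length = k} := by
    ext l
    simp
  rw [h]
  exact Set.Finite.biUnion (Finset.finite_toSet _) (fun k _ => len_fin d k)

theorem ms_short {A : Set (Wlk d)} (N : ℕ) (h : ∀ l ∈ A, l.length < N) : ms (zc d) A ≠ ⊤ :=
  ms_finite ((short_finite N).subset h)

theorem am_ne_top (j : Fin (d + 1)) (n : ℕ) : am j n ≠ ⊤ :=
  ms_short (2 ^ (n + 1)) (fun l hl => by
    have := hl.2.2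
    omega)

theorem U_le (j : Fin (d + 1)) (n : ℕ) (k : ℤ) : U j n k ≤ am j n := ms_mono _ Set.inter_subset_left

theorem U_ne_top (j : Fin (d + 1)) (n : ℕ) (k : ℤ) : U j n k ≠ ⊤ :=
  ne_top_of_le_ne_top (am_ne_top j n) (U_le j n k)

theorem S_ne_top (j : Fin (d + 1)) (n : ℕ) : S j n ≠ ⊤ := by
  unfold S
  refine ENNReal.add_ne_top.mpr ⟨ENNReal.one_ne_top, ?_⟩
  exact (ENNReal.sum_lt_top.mpr (fun i _ => lt_top_iff_ne_top.mpr (am_ne_top j i))).ne

theorem S_mono (j : Fin (d + 1)) {m n : ℕ} (h : m ≤ n) : S j m ≤ S j n := by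
  unfold S
  refine add_le_add le_rfl ?_
  exact Finset.sum_le_sum_of_subset (Finset.range_mono h)

theorem one_le_S (j : Fin (d + 1)) (n : ℕ) : 1 ≤ S j n := le_self_add

theorem bet_ne_top (n : ℕ) : bet d n ≠ ⊤ :=
  ms_short (2 ^ n) (fun l hl => by
    have := hl.2
    omega)

theorem wbt_ne_top (j : Fin (d + 1)) (n : ℕ) : wbt j n ≠ ⊤ :=
  ms_short (2 ^ n) (fun l hl => hl.2)

/-- The mass of a set of concatenations. -/
theorem ms_app_le (z : ℝ≥0∞) (A B : Set (Wlk d)) (T : Set (Wlk d)) (h : ∀ l ∈ T, ∃ a ∈ A, ∃ b ∈ B, l = a ++ b) :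
    ms z T ≤ ms z A * ms z B := by
  classical
  choose! f hf g hg hfg using h
  have h1 := ms_pair_le z 0 T A B f g hf hg (fun l hl => by
    have h2 := congrArg List.length (hfg l hl)
    rw [List.length_append] at h2
    omega) (fun l hl l' hl' h3 h4 => by
    rw [hfg l hl, hfg l' hl', h3, h4])
  rw [pow_zero, one_mul] at h1
  exact h1

theorem ms_union_le (z : ℝ≥0∞) (A B : Set (Wlk d)) : ms z (A ∪ B) ≤ ms z A + ms z B := by
  unfold ms
  rw [← ENNReal.tsum_add]
  refine ENNReal.tsum_le_tsum fun l => ?_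
  by_cases hA : l ∈ A
  · rw [Set.indicator_of_mem (Set.mem_union_left B hA), Set.indicator_of_mem hA]
    exact le_self_add
  · by_cases hB : l ∈ B
    · rw [Set.indicator_of_mem (Set.mem_union_right A hB), Set.indicator_of_mem hB]
      exact le_add_self
    · rw [Set.indicator_of_notMem (fun h => h.elim hA hB)]
      exact zero_le

/-- The empty walk and the legs of length less than `2 ^ n - 1`. -/
theorem ms_LgB (j : Fin (d + 1)) (n : ℕ) :
    ms (zc d) {l : Wlk d | (l = [] ∨ Leg j l) ∧ l.length + 1 < 2 ^ n} ≤ S j n := by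
  induction n with
  | zero =>
    have h : {l : Wlk d | (l = [] ∨ Leg j l) ∧ l.length + 1 < 2 ^ 0} = ∅ := by
      ext l
      simp
    rw [h, ms_empty]
    exact zero_le
  | succ n ih =>
    by_cases hn : n = 0
    · subst hn
      have h1 : {l : Wlk d | (l = [] ∨ Leg j l) ∧ l.length + 1 < 2 ^ (0 + 1)} ⊆ {[]} := by
        rintro l ⟨h2, h3⟩
        have h4 : l.length = 0 := by omega
        exact List.length_eq_zero_iff.mp h4
      refine (ms_mono _ h1).trans ?_
      rw [ms_singleton, List.length_nil, pow_zero]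
      exact one_le_S j _
    · have h1 : {l : Wlk d | (l = [] ∨ Leg j l) ∧ l.length + 1 < 2 ^ (n + 1)} ⊆
          {l : Wlk d | (l = [] ∨ Leg j l) ∧ l.length + 1 < 2 ^ n} ∪ Lg j n := by
        rintro l ⟨h2, h3⟩
        by_cases h4 : l.length + 1 < 2 ^ n
        · exact Or.inl ⟨h2, h4⟩
        · rcases h2 with h2 | h2
          · exfalso
            rw [h2, List.length_nil] at h4
            have h5 : 2 ^ 1 ≤ 2 ^ n := Nat.pow_le_pow_right (by norm_num) (by omega)
            omega
          · exact Or.inr ⟨h2, not_lt.mp h4, h3⟩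
      refine (ms_mono _ h1).trans ((ms_union_le _ _ _).trans ?_)
      have h2 : S j (n + 1) = S j n + am j n := by
        unfold S
        rw [Finset.sum_range_succ, ← add_assoc]
      rw [h2]
      exact add_le_add ih le_rfl

end EXC
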