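import Pool.Agent.EXC.LEV

/-!
# EXC FST: fast legs

Let `σ` be a leg of class `n` (length `< 2 ^ (n + 1) - 1`) with end height `≥ h`, where `2 ^ (n + 2) ≤ (Q + 1) * h`.  For
`1 ≤ ℓ ≤ h` let `N ℓ` be the number of nonempty initial segments of `σ` with height `ℓ`.  `∑ ℓ, N ℓ ≤ σ.length < 2 ^ (n + 1)`,
so fewer than `h / 2` of the levels have `N ℓ ≥ Q + 1`: `h ≤ 2 * #{ℓ | N ℓ ≤ Q}`.  Hence
`h * ms z (fast legs) ≤ 2 * ∑ ℓ ∈ [1, h], ms z {fast legs with N ℓ ≤ Q}`.
For one level `ℓ`: `σ = b ++ w`, `b` = up to the first visit to `ℓ` (a bridge of height `ℓ`), and by `ret_dec w`: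
`w = L.flatten ++ τ`, `L.length = N ℓ - 1 < Q`, members of `L` are level excursions, `τ` is empty or a leg (`no_ret`; it ends
at a maximum of the coordinate `j`).  So the mass is at most
`ms z {SB, height ℓ, length + 1 < 2 ^ (n + 1)} * ∑ q < Q, (ms z {LE}) ^ q * S j (n + 1)` (`ms_app_le`, `ms_flat`, `ms_LgB`).
Sum over `ℓ` with `ms_sum_le`.
-/

set_option autoImplicit false

open scoped ENNReal BigOperators
open CNP

namespace EXC

variable {d : ℕ}

/-- The first visit to the height `k`. -/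
private theorem FST_hit (l : Wlk d) : ∀ k : ℤ, 0 ≤ k → k ≤ pos l 0 → ∃ b w : Wlk d, l = b ++ w ∧ pos b 0 = k ∧
    ∀ u v : Wlk d, b = u ++ v → v ≠ [] → pos u 0 < k := by
  induction l with
  | nil =>
    intro k h0 h1
    rw [pos_nil_apply] at h1
    refine ⟨[], [], rfl, ?_, ?_⟩
    · rw [pos_nil_apply]
      omega
    · intro u v h hv
      exact absurd (List.append_eq_nil_iff.mp h.symm).2 hv
  | cons s l ih =>
    intro k h0 h1
    by_cases hk : k = 0
    · refine ⟨[], s :: l, rfl, ?_, ?_⟩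
      · rw [pos_nil_apply]
        omega
      · intro u v h hv
        exact absurd (List.append_eq_nil_iff.mp h.symm).2 hv
    · have hs := abs_le.mp (abs_stp_le s 0)
      rw [pos_cons, Pi.add_apply] at h1
      obtain ⟨b, w, h2, h3, h4⟩ := ih (k - stp s 0) (by omega) (by omega)
      refine ⟨s :: b, w, by rw [h2, List.cons_append], ?_, ?_⟩
      · rw [pos_cons, Pi.add_apply, h3]
        omega
      · intro u v huv hv
        cases u with
        | nil =>
          rw [pos_nil_apply]
          omega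
        | cons t u =>
          rw [List.cons_append, List.cons.injEq] at huv
          obtain ⟨h5, h6⟩ := huv
          subst h5
          have := h4 u v h6 hv
          rw [pos_cons, Pi.add_apply]
          omega

/-- The indices of the visits to the height `k`. -/
private def FST_vis (l : Wlk d) (k : ℤ) : Finset ℕ :=
  (Finset.range l.length).filter (fun i => pos (l.take (i + 1)) 0 = k)

private theorem FST_ret (w : Wlk d) : ret w = (FST_vis w 0).card := by
  unfold ret FST_vis
  rw [List.countP_eq_length_filter]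
  rfl

private theorem FST_sum (l : Wlk d) (h : ℕ) :
    ∑ i ∈ Finset.range h, (FST_vis l ((i : ℤ) + 1)).card ≤ l.length := by
  classical
  rw [← Finset.card_biUnion]
  · calc ((Finset.range h).biUnion fun i => FST_vis l ((i : ℤ) + 1)).card ≤ (Finset.range l.length).card := by
          refine Finset.card_le_card ?_
          intro x hx
          obtain ⟨i, -, hi⟩ := Finset.mem_biUnion.mp hx
          exact (Finset.mem_filter.mp hi).1
      _ = l.length := Finset.card_range _
  · intro i _ k _ hik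
    refine Finset.disjoint_left.mpr ?_
    intro x hx hy
    have h1 := (Finset.mem_filter.mp hx).2
    have h2 := (Finset.mem_filter.mp hy).2
    rw [h1] at h2
    apply hik
    omega

private theorem FST_good (l : Wlk d) (n Q h : ℕ) (hQ : 2 ^ (n + 2) ≤ (Q + 1) * h) (hl : l.length < 2 ^ (n + 1)) :
    h ≤ 2 * ((Finset.range h).filter (fun i : ℕ => (FST_vis l ((i : ℤ) + 1)).card ≤ Q)).card := by
  classical
  have h1 := FST_sum l h
  have h2 : (Q + 1) * ((Finset.range h).filter (fun i : ℕ => ¬ (FST_vis l ((i : ℤ) + 1)).card ≤ Q)).card ≤ l.length := by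
    refine le_trans ?_ h1
    rw [mul_comm, ← smul_eq_mul]
    refine le_trans (Finset.card_nsmul_le_sum _ (fun i : ℕ => (FST_vis l ((i : ℤ) + 1)).card) (Q + 1) ?_) ?_
    · intro i hi
      have := (Finset.mem_filter.mp hi).2
      omega
    · exact Finset.sum_le_sum_of_subset (Finset.filter_subset _ _)
  have h3 := Finset.card_filter_add_card_filter_not (s := Finset.range h)
    (fun i : ℕ => (FST_vis l ((i : ℤ) + 1)).card ≤ Q)
  rw [Finset.card_range] at h3
  set g := ((Finset.range h).filter (fun i : ℕ => (FST_vis l ((i : ℤ) + 1)).card ≤ Q)).card with hg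
  set b := ((Finset.range h).filter (fun i : ℕ => ¬ (FST_vis l ((i : ℤ) + 1)).card ≤ Q)).card with hb
  have h4 : (Q + 1) * (2 * b) < (Q + 1) * h := by
    have h5 : 2 ^ (n + 2) = 2 * 2 ^ (n + 1) := by ring
    calc (Q + 1) * (2 * b) = 2 * ((Q + 1) * b) := by ring
      _ < 2 * 2 ^ (n + 1) := by omega
      _ ≤ (Q + 1) * h := by omega
  have h5 : 2 * b < h := lt_of_mul_lt_mul_left h4 (Nat.zero_le _)
  omega

private theorem FST_vis_split {l b w : Wlk d} {k : ℤ} (hl : l = b ++ w) (hb : pos b 0 = k) (hk : 1 ≤ k) :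
    ret w + 1 ≤ (FST_vis l k).card := by
  classical
  have hb0 : b ≠ [] := by
    rintro rfl
    rw [pos_nil_apply] at hb
    omega
  have hbl : 0 < b.length := List.length_pos_iff.mpr hb0
  have h1 : insert (b.length - 1) ((FST_vis w 0).map (addLeftEmbedding b.length)) ⊆ FST_vis l k := by
    intro x hx
    rw [Finset.mem_insert] at hx
    unfold FST_vis
    rw [Finset.mem_filter, Finset.mem_range]
    rcases hx with rfl | hx
    · constructor
      · rw [hl, List.length_append]
        omega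
      · rw [Nat.sub_add_cancel hbl, hl, List.take_left']
        · exact hb
        · rfl
    · obtain ⟨y, hy, rfl⟩ := Finset.mem_map.mp hx
      obtain ⟨h2, h3⟩ := Finset.mem_filter.mp hy
      rw [Finset.mem_range] at h2
      rw [addLeftEmbedding_apply]
      constructor
      · rw [hl, List.length_append]
        omega
      · rw [hl, List.take_append, add_assoc, Nat.add_sub_cancel_left, List.take_of_length_le (by omega),
          pos_append_apply, hb, h3, add_zero]
  have h2 : b.length - 1 ∉ (FST_vis w 0).map (addLeftEmbedding b.length) := by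
    intro hx
    obtain ⟨y, -, hy⟩ := Finset.mem_map.mp hx
    rw [addLeftEmbedding_apply] at hy
    omega
  have h3 := Finset.card_le_card h1
  rw [Finset.card_insert_of_notMem h2, Finset.card_map, ← FST_ret] at h3
  exact h3

/-- The bridges of the height `k`. -/
private def FST_B (d n : ℕ) (k : ℤ) : Set (Wlk d) := {l : Wlk d | (SB l ∧ l.length + 1 < 2 ^ n) ∧ pos l 0 = k}

/-- The concatenations of fewer than `Q` level excursions. -/
private def FST_X (d Q : ℕ) : Set (Wlk d) :=
  {x : Wlk d | ∃ L : List (Wlk d), L.length < Q ∧ (∀ b ∈ L, b ∈ {l : Wlk d | LE l}) ∧ x = L.flatten}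

private theorem FST_massX (Q : ℕ) :
    ms (zc d) (FST_X d Q) ≤ ∑ q ∈ Finset.range Q, ms (zc d) {l : Wlk d | LE l} ^ q := by
  induction Q with
  | zero =>
    have h : FST_X d 0 = ∅ := by
      ext x
      constructor
      · rintro ⟨L, h1, -⟩
        exact absurd h1 (Nat.not_lt_zero _)
      · intro hx
        exact hx.elim
    rw [h, ms_empty]
    exact zero_le
  | succ Q ih =>
    have h : FST_X d (Q + 1) ⊆ FST_X d Q ∪
        {w : Wlk d | ∃ L : List (Wlk d), L.length = Q ∧ (∀ b ∈ L, b ∈ {l : Wlk d | LE l}) ∧ w = L.flatten} := by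
      rintro x ⟨L, h1, h2, h3⟩
      rcases Nat.lt_succ_iff_lt_or_eq.mp h1 with h4 | h4
      · exact Or.inl ⟨L, h4, h2, h3⟩
      · exact Or.inr ⟨L, h4, h2, h3⟩
    rw [Finset.sum_range_succ]
    exact (ms_mono _ h).trans ((ms_union_le _ _ _).trans (add_le_add ih (ms_flat _ _ _)))

private theorem FST_dec (j : Fin (d + 1)) (n Q h : ℕ) (k : ℤ) (hk : 1 ≤ k) (hkh : k ≤ h) {l : Wlk d}
    (hl : l ∈ Lg j n ∩ {l | (h : ℤ) ≤ pos l 0}) (hv : (FST_vis l k).card ≤ Q) :
    ∃ b ∈ FST_B d (n + 1) k, ∃ w ∈ {w : Wlk d | ∃ x ∈ FST_X d Q,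
      ∃ τ ∈ {l : Wlk d | (l = [] ∨ Leg j l) ∧ l.length + 1 < 2 ^ (n + 1)}, w = x ++ τ}, l = b ++ w := by
  obtain ⟨⟨⟨h1, h2, h3, h4⟩, -, h5⟩, h6⟩ := hl
  change (h : ℤ) ≤ pos l 0 at h6
  obtain ⟨b, w, h7, h8, h9⟩ := FST_hit l k (by omega) (by omega)
  have h10 := FST_vis_split h7 h8 hk
  have hSAb : SA b := by
    rw [h7] at h2
    exact SA_left h2
  have hSAw : SA w := by
    rw [h7] at h2
    exact SA_right h2
  have hlen : l.length = b.length + w.length := by rw [h7, List.length_append]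
  obtain ⟨L, τ, h11, h12, h13, h14⟩ := ret_dec w hSAw
  have hL0 : pos L.flatten 0 = 0 := by
    have hgen : ∀ M : List (Wlk d), (∀ b ∈ M, LE b) → pos M.flatten 0 = 0 := by
      intro M
      induction M with
      | nil =>
        intro _
        exact pos_nil_apply 0
      | cons a M ih =>
        intro hM
        rw [List.flatten_cons, pos_append_apply, (hM a (List.mem_cons_self)).2.2.1,
          ih (fun b hb => hM b (List.mem_cons_of_mem a hb)), add_zero]
    exact hgen L h13
  have hτ0 : 0 ≤ pos τ 0 := by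
    have h15 : pos l 0 = k + pos τ 0 := by
      rw [h7, pos_append_apply, h8, h11, pos_append_apply, hL0, zero_add]
    omega
  have hτI : Ips τ := no_ret τ h14 hτ0
  have hwlen : w.length = L.flatten.length + τ.length := by rw [h11, List.length_append]
  refine ⟨b, ⟨⟨⟨?_, hSAb, ?_, ?_⟩, by omega⟩, h8⟩, w, ⟨L.flatten, ⟨L, by omega, h13, rfl⟩, τ, ⟨?_, by omega⟩, h11⟩, h7⟩
  · rintro rfl
    rw [pos_nil_apply] at h8
    omega
  · rw [h7] at h3
    exact Ips_left h3
  · intro u v huv hv0
    have h15 := h9 u v huv hv0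
    rw [huv, pos_append_apply] at h8
    omega
  · by_cases hτ : τ = []
    · exact Or.inl hτ
    · refine Or.inr ⟨hτ, ?_, hτI, ?_⟩
      · rw [h11] at hSAw
        exact SA_right hSAw
      · intro u v huv
        have h15 := h4 (b ++ L.flatten ++ u) v (by rw [h7, h11, huv]; simp only [List.append_assoc])
        have h16 : pos l j = pos (b ++ L.flatten) j + pos τ j := by
          rw [h7, h11, ← List.append_assoc, pos_append_apply]
        rw [pos_append_apply, h16] at h15
        omega

private theorem FST_level (j : Fin (d + 1)) (n Q h : ℕ) (k : ℤ) (hk : 1 ≤ k) (hkh : k ≤ h) :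
    ms (zc d) ((Lg j n ∩ {l | (h : ℤ) ≤ pos l 0}) ∩ {l | (FST_vis l k).card ≤ Q}) ≤
      ms (zc d) (FST_B d (n + 1) k) * ((∑ q ∈ Finset.range Q, ms (zc d) {l : Wlk d | LE l} ^ q) * S j (n + 1)) := by
  refine (ms_app_le (zc d) _ _ _ (fun l hl => FST_dec j n Q h k hk hkh hl.1 hl.2)).trans ?_
  refine mul_le_mul le_rfl ?_ zero_le zero_le
  refine (ms_app_le (zc d) (FST_X d Q) {l : Wlk d | (l = [] ∨ Leg j l) ∧ l.length + 1 < 2 ^ (n + 1)} _
    (fun l hl => hl)).trans ?_
  exact mul_le_mul (FST_massX Q) (ms_LgB j (n + 1)) zero_le zero_le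

theorem fast (j : Fin (d + 1)) (n Q h : ℕ) (hQ : 2 ^ (n + 2) ≤ (Q + 1) * h) :
    (h : ℝ≥0∞) * ms (zc d) (Lg j n ∩ {l | (h : ℤ) ≤ pos l 0}) ≤
      2 * (bet d (n + 1) * (∑ q ∈ Finset.range Q, (2 * ms (zc d) {l : Wlk d | Exc l}) ^ q) * S j (n + 1)) := by
  classical
  set T : Set (Wlk d) := Lg j n ∩ {l | (h : ℤ) ≤ pos l 0} with hT
  have h1 : (h : ℝ≥0∞) * ms (zc d) T ≤
      2 * ∑ i ∈ Finset.range h, ms (zc d) (T ∩ {l | (FST_vis l ((i : ℤ) + 1)).card ≤ Q}) := by
    unfold ms
    rw [← ENNReal.tsum_mul_left, ← Summable.tsum_finsetSum (fun i _ => ENNReal.summable), ← ENNReal.tsum_mul_left]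
    refine ENNReal.tsum_le_tsum fun l => ?_
    by_cases hl : l ∈ T
    · rw [Set.indicator_of_mem hl]
      have h2 := FST_good l n Q h hQ (by
        have h3 := hl.1.2.2
        omega)
      have h3 : ∑ i ∈ Finset.range h, (T ∩ {l | (FST_vis l ((i : ℤ) + 1)).card ≤ Q}).indicator
          (fun l => zc d ^ l.length) l =
          (((Finset.range h).filter (fun i : ℕ => (FST_vis l ((i : ℤ) + 1)).card ≤ Q)).card : ℝ≥0∞) *
            zc d ^ l.length := by
        rw [← nsmul_eq_mul, ← Finset.sum_const, Finset.sum_filter]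
        refine Finset.sum_congr rfl fun i _ => ?_
        by_cases h4 : (FST_vis l ((i : ℤ) + 1)).card ≤ Q
        · have h5 : l ∈ T ∩ {l | (FST_vis l ((i : ℤ) + 1)).card ≤ Q} := ⟨hl, h4⟩
          rw [if_pos h4, Set.indicator_of_mem h5]
        · have h5 : l ∉ T ∩ {l | (FST_vis l ((i : ℤ) + 1)).card ≤ Q} := fun h6 => h4 h6.2
          rw [if_neg h4, Set.indicator_of_notMem h5]
      rw [h3, ← mul_assoc]
      refine mul_le_mul ?_ le_rfl zero_le zero_le
      exact_mod_cast h2
    · rw [Set.indicator_of_notMem hl, mul_zero]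
      exact zero_le
  have h2 : ∑ i ∈ Finset.range h, ms (zc d) (FST_B d (n + 1) ((i : ℤ) + 1)) ≤ bet d (n + 1) := by
    refine ms_sum_le (zc d) (fun i : ℕ => FST_B d (n + 1) ((i : ℤ) + 1)) _ h ?_ ?_
    · intro i k _ _ hik
      rw [Set.disjoint_left]
      rintro l ⟨-, h3⟩ ⟨-, h4⟩
      rw [h3] at h4
      apply hik
      omega
    · rintro i _ l ⟨h3, -⟩
      exact h3
  refine h1.trans ?_
  refine mul_le_mul le_rfl ?_ zero_le zero_le
  calc ∑ i ∈ Finset.range h, ms (zc d) (T ∩ {l | (FST_vis l ((i : ℤ) + 1)).card ≤ Q})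
      ≤ ∑ i ∈ Finset.range h, ms (zc d) (FST_B d (n + 1) ((i : ℤ) + 1)) *
          ((∑ q ∈ Finset.range Q, ms (zc d) {l : Wlk d | LE l} ^ q) * S j (n + 1)) := by
        refine Finset.sum_le_sum fun i hi => ?_
        have hi' := Finset.mem_range.mp hi
        exact FST_level j n Q h ((i : ℤ) + 1) (by omega) (by omega)
    _ = (∑ i ∈ Finset.range h, ms (zc d) (FST_B d (n + 1) ((i : ℤ) + 1))) *
          ((∑ q ∈ Finset.range Q, ms (zc d) {l : Wlk d | LE l} ^ q) * S j (n + 1)) := by
        exact (Finset.sum_mul _ _ _).symm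
    _ ≤ bet d (n + 1) * ((∑ q ∈ Finset.range Q, (2 * ms (zc d) {l : Wlk d | Exc l}) ^ q) * S j (n + 1)) := by
        refine mul_le_mul h2 ?_ zero_le zero_le
        refine mul_le_mul ?_ le_rfl zero_le zero_le
        refine Finset.sum_le_sum fun q _ => ?_
        exact pow_le_pow_left' (LE_mass (zc d)) q
    _ = bet d (n + 1) * (∑ q ∈ Finset.range Q, (2 * ms (zc d) {l : Wlk d | Exc l}) ^ q) * S j (n + 1) := by
        rw [mul_assoc]

end EXC
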