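import Pool.Agent.EXC.PHI

/-!
# EXC INF: the free energies of the block models decrease to the one of the self-avoiding loops

`GE {Loop} α t = ∑' v, ofReal (exp (α v)) * ms (ofReal (exp (- t))) {Blk v}` (group by `ret`).
* if `t > φ k α` then `x = exp (α k) ms {Blk k} < 1`, all `ms {Blk r} < ⊤` (`t > log μ`, `chi_fin`), and
  `ms {Blk (m k + r)} ≤ (ms {Blk k}) ^ m * ms {Blk r}` (`Blk_split`, `ms_pair_le`), so `GE {Loop} α t < ⊤`.
* if `GE {Loop} α t < ⊤` then the terms tend to zero, so some `k ≥ 1` has `exp (α k) ms {Blk k} < 1`, so `φ k α ≤ t`.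
Then `limsup_ser` with `M = ⨅ k, φ (k + 1) α` (bounded below by `log μ`); `exp (α n) ≤ Zr {Loop} α n` by `Loop_len`, `Zr_ge`.
-/

set_option autoImplicit false

open scoped ENNReal BigOperators Topology
open CNP Filter

namespace EXC

/-- The grand partition function of the loops, grouped by the number of returns. -/
theorem GE_Loop (d : ℕ) (α t : ℝ) :
    GE {w : Wlk d | Loop w} α t = ∑' r : ℕ, ENNReal.ofReal (Real.exp (r * α)) *
      ms (ENNReal.ofReal (Real.exp (-t))) {l : Wlk d | Blk r l} := by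
  set z : ℝ≥0∞ := ENNReal.ofReal (Real.exp (-t)) with hz
  have h1 : ∀ r : ℕ, ENNReal.ofReal (Real.exp (r * α)) * ms z {l : Wlk d | Blk r l} =
      ∑' w : Wlk d, {l : Wlk d | Blk r l}.indicator
        (fun w => ENNReal.ofReal (Real.exp (r * α)) * z ^ w.length) w := by
    intro r
    rw [ms, ← ENNReal.tsum_mul_left]
    refine tsum_congr fun w => ?_
    by_cases h : w ∈ {l : Wlk d | Blk r l}
    · rw [Set.indicator_of_mem h, Set.indicator_of_mem h]
    · rw [Set.indicator_of_notMem h, Set.indicator_of_notMem h, mul_zero]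
  simp_rw [h1]
  rw [ENNReal.tsum_comm]
  unfold GE
  refine tsum_congr fun w => ?_
  by_cases hw : Loop w
  · rw [Set.indicator_of_mem (show w ∈ {w : Wlk d | Loop w} from hw), tsum_eq_single (ret w)]
    · rw [Set.indicator_of_mem (show w ∈ {l : Wlk d | Blk (ret w) l} from ⟨hw, rfl⟩), hz,
        ← ENNReal.ofReal_pow (Real.exp_pos _).le, ← ENNReal.ofReal_mul (by positivity),
        ← Real.exp_nat_mul, ← Real.exp_add]
      congr 2
      ring
    · intro r hr
      exact Set.indicator_of_notMem (show w ∉ {l : Wlk d | Blk r l} from fun h => hr h.2.symm) _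
  · rw [Set.indicator_of_notMem (show w ∉ {w : Wlk d | Loop w} from hw)]
    symm
    rw [ENNReal.tsum_eq_zero]
    intro r
    exact Set.indicator_of_notMem (show w ∉ {l : Wlk d | Blk r l} from fun h => hw h.1) _

/-- The masses of the blocks are submultiplicative. -/
theorem ms_Blk_add (d a b : ℕ) (z : ℝ≥0∞) :
    ms z {l : Wlk d | Blk (a + b) l} ≤ ms z {l : Wlk d | Blk a l} * ms z {l : Wlk d | Blk b l} := by
  classical
  have hex : ∀ l : Wlk d, ∃ p : Wlk d × Wlk d, Blk (a + b) l → l = p.1 ++ p.2 ∧ Blk a p.1 ∧ Blk b p.2 := by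
    intro l
    by_cases h : Blk (a + b) l
    · obtain ⟨u, v, h1, h2, h3⟩ := Blk_split h
      exact ⟨(u, v), fun _ => ⟨h1, h2, h3⟩⟩
    · exact ⟨([], []), fun h' => absurd h' h⟩
  choose F hF using hex
  have := ms_pair_le z 0 {l : Wlk d | Blk (a + b) l} {l : Wlk d | Blk a l} {l : Wlk d | Blk b l}
    (fun l => (F l).1) (fun l => (F l).2) (fun l hl => (hF l hl).2.1) (fun l hl => (hF l hl).2.2)
    (fun l hl => by
      have h := congrArg List.length (hF l hl).1
      rw [List.length_append] at h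
      simpa using h.symm)
    (fun l hl l' hl' h1 h2 => by
      rw [(hF l hl).1, (hF l' hl').1]
      rw [h1, h2])
  simpa using this

theorem ms_Blk_mul (d k r : ℕ) (z : ℝ≥0∞) (m : ℕ) :
    ms z {l : Wlk d | Blk (m * k + r) l} ≤ ms z {l : Wlk d | Blk k l} ^ m * ms z {l : Wlk d | Blk r l} := by
  induction m with
  | zero => simp
  | succ m ih =>
    have e : (m + 1) * k + r = k + (m * k + r) := by ring
    rw [e, pow_succ']
    calc ms z {l : Wlk d | Blk (k + (m * k + r)) l}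
        ≤ ms z {l : Wlk d | Blk k l} * ms z {l : Wlk d | Blk (m * k + r) l} := ms_Blk_add d k _ z
      _ ≤ ms z {l : Wlk d | Blk k l} * (ms z {l : Wlk d | Blk k l} ^ m * ms z {l : Wlk d | Blk r l}) := by
        gcongr
      _ = _ := by ring

theorem GE_Loop_lt (d k : ℕ) (hk : 1 ≤ k) (α t : ℝ) (ht : Real.log (mu d) < t)
    (hx : ENNReal.ofReal (Real.exp (k * α)) * ms (ENNReal.ofReal (Real.exp (-t))) {l : Wlk d | Blk k l} < 1) :
    GE {w : Wlk d | Loop w} α t < ⊤ := by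
  rw [GE_Loop]
  set z : ℝ≥0∞ := ENNReal.ofReal (Real.exp (-t)) with hz
  set T : ℕ → ℝ≥0∞ := fun r => ENNReal.ofReal (Real.exp (r * α)) * ms z {l : Wlk d | Blk r l} with hT
  have hTf : ∀ r, T r < ⊤ := fun r => ENNReal.mul_lt_top ENNReal.ofReal_lt_top (ms_Blk_lt d r t ht)
  have hle : ∀ m r, T (m * k + r) ≤ T k ^ m * T r := by
    intro m r
    simp only [hT]
    have e : ENNReal.ofReal (Real.exp (((m * k + r : ℕ) : ℝ) * α)) =
        ENNReal.ofReal (Real.exp (k * α)) ^ m * ENNReal.ofReal (Real.exp (r * α)) := by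
      rw [← ENNReal.ofReal_pow (Real.exp_pos _).le, ← ENNReal.ofReal_mul (by positivity),
        ← Real.exp_nat_mul, ← Real.exp_add]
      congr 2
      push_cast
      ring
    rw [e, mul_pow]
    calc ENNReal.ofReal (Real.exp (k * α)) ^ m * ENNReal.ofReal (Real.exp (r * α)) *
          ms z {l : Wlk d | Blk (m * k + r) l}
        ≤ ENNReal.ofReal (Real.exp (k * α)) ^ m * ENNReal.ofReal (Real.exp (r * α)) *
          (ms z {l : Wlk d | Blk k l} ^ m * ms z {l : Wlk d | Blk r l}) := by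
            gcongr
            exact ms_Blk_mul d k r z m
      _ = _ := by ring
  have : NeZero k := ⟨by omega⟩
  have h1 : ∑' r, T r = ∑' p : ℕ × Fin k, T (p.1 * k + p.2.1) :=
    ((Nat.divModEquiv k).symm.tsum_eq T).symm
  have hx' : T k < 1 := hx
  calc ∑' r, T r = ∑' p : ℕ × Fin k, T (p.1 * k + p.2.1) := h1
    _ ≤ ∑' p : ℕ × Fin k, T k ^ p.1 * T p.2.1 := ENNReal.tsum_le_tsum fun p => hle _ _
    _ = ∑' m : ℕ, ∑' r : Fin k, T k ^ m * T r.1 := ENNReal.tsum_prod'
    _ = (∑' m : ℕ, T k ^ m) * ∑' r : Fin k, T r.1 := by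
      rw [← ENNReal.tsum_mul_right]
      exact tsum_congr fun m => ENNReal.tsum_mul_left
    _ < ⊤ := by
      refine ENNReal.mul_lt_top ?_ ?_
      · rw [ENNReal.tsum_geometric]
        exact ENNReal.inv_lt_top.2 (tsub_pos_of_lt hx')
      · rw [tsum_fintype]
        exact ENNReal.sum_lt_top.2 fun r _ => hTf r.1

theorem inf_phi (d : ℕ) (hd : 1 ≤ d) (φ : ℕ → ℝ → ℝ)
    (h1 : ∀ k : ℕ, 1 ≤ k → ∀ α t, φ k α < t →
      ENNReal.ofReal (Real.exp (k * α)) * ms (ENNReal.ofReal (Real.exp (-t))) {l : Wlk d | Blk k l} < 1)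
    (h2 : ∀ k : ℕ, 1 ≤ k → ∀ α t, t < φ k α →
      1 ≤ ENNReal.ofReal (Real.exp (k * α)) * ms (ENNReal.ofReal (Real.exp (-t))) {l : Wlk d | Blk k l})
    (h3 : ∀ k : ℕ, 1 ≤ k → ∀ α, Real.log (mu d) ≤ φ k α) (α : ℝ) :
    limsup (fun n : ℕ => Real.log (Zr {w : Wlk d | Loop w} α n) / (n : ℝ)) atTop = ⨅ k : ℕ, φ (k + 1) α := by
  have hbdd : BddBelow (Set.range fun k : ℕ => φ (k + 1) α) :=
    ⟨Real.log (mu d), by rintro x ⟨k, rfl⟩; exact h3 (k + 1) (by omega) α⟩
  refine limsup_ser (fun n => Zr {w : Wlk d | Loop w} α n) ?_ α (Real.log (2 * ((d : ℝ) + 1)) + |α|) ?_ ?_ _ ?_ ?_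
  · intro n
    obtain ⟨w, hw, hn, -⟩ := Loop_len hd n
    exact Zr_pos ⟨w, hw, hn⟩
  · intro n
    obtain ⟨w, hw, hn, hr⟩ := Loop_len hd n
    have h := Zr_ge (A := {w : Wlk d | Loop w}) (α := α) hw
    rw [hn, hr] at h
    exact h
  · intro n
    exact Zr_le _ _ _
  · intro t ht
    rw [← GE_eq]
    obtain ⟨k, hk⟩ := exists_lt_of_ciInf_lt ht
    have hk1 : 1 ≤ k + 1 := by omega
    exact GE_Loop_lt d (k + 1) hk1 α t (lt_of_le_of_lt (h3 (k + 1) hk1 α) hk) (h1 (k + 1) hk1 α t hk)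
  · intro t ht
    rw [← GE_eq]
    by_contra hne
    rw [GE_Loop] at hne
    have hz := ENNReal.tendsto_atTop_zero_of_tsum_ne_top hne
    have hev := hz.eventually (gt_mem_nhds (show (0 : ℝ≥0∞) < 1 from zero_lt_one))
    obtain ⟨n, hn, hn1⟩ := (hev.and (eventually_ge_atTop 1)).exists
    obtain ⟨m, rfl⟩ : ∃ m, n = m + 1 := ⟨n - 1, by omega⟩
    have h4 : t < φ (m + 1) α := lt_of_lt_of_le ht (ciInf_le hbdd m)
    exact absurd hn (not_lt.2 (h2 (m + 1) hn1 α t h4))

end EXC
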