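import Pool.Agent.EXC.FLI

/-!
# EXC LEV: returns to a level

* `ms_flat`: the mass of the walks `L.flatten` with `L.length = q` and all members of `L` in `A` is at most
  `(ms z A) ^ q` (induction, `ms_app_le`).
* `ret_dec`: a walk `w` is `L.flatten ++ τ` where the members of `L` return to height `0` exactly at the end and `τ` never
  returns; the number of members of `L` is the number of nonempty initial segments of `w` with height `0`:
  `((List.range w.length).countP (fun i => pos (w.take (i + 1)) 0 = 0))`.  Induction from the right.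
* `no_ret`: a walk which never returns to height `0` and ends above `0` stays above `0` (heights change by at most one:
  `abs_stp_le`).
* `LE_cases`: a level excursion or its image under `flp 0` is an excursion, so `ms z {LE} ≤ 2 * ms z {Exc}`
  (`ms_union_le`, `ms_image`).
-/

set_option autoImplicit false

open scoped ENNReal BigOperators
open CNP

namespace EXC

variable {d : ℕ}

theorem ms_flat (z : ℝ≥0∞) (A : Set (Wlk d)) (q : ℕ) :
    ms z {w : Wlk d | ∃ L : List (Wlk d), L.length = q ∧ (∀ b ∈ L, b ∈ A) ∧ w = L.flatten} ≤ ms z A ^ q := by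
  induction q with
  | zero =>
    have h1 : {w : Wlk d | ∃ L : List (Wlk d), L.length = 0 ∧ (∀ b ∈ L, b ∈ A) ∧ w = L.flatten} ⊆ {[]} := by
      rintro w ⟨L, hL, -, hw⟩
      rw [List.length_eq_zero_iff] at hL
      subst hL
      rw [hw]
      rfl
    refine (ms_mono _ h1).trans ?_
    rw [ms_singleton, List.length_nil, pow_zero, pow_zero]
  | succ q ih =>
    rw [pow_succ']
    refine (ms_app_le z A _ _ ?_).trans (mul_le_mul' le_rfl ih)
    rintro w ⟨L, hL, hA, hw⟩
    cases L with
    | nil =>
      rw [List.length_nil] at hL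
      omega
    | cons a L =>
      refine ⟨a, hA a List.mem_cons_self, L.flatten, ⟨L, ?_, ?_, rfl⟩, ?_⟩
      · rw [List.length_cons] at hL
        omega
      · intro b hb
        exact hA b (List.mem_cons_of_mem a hb)
      · rw [hw, List.flatten_cons]

/-- The number of returns to height `0`. -/
def ret (w : Wlk d) : ℕ := (List.range w.length).countP (fun i => pos (w.take (i + 1)) 0 = 0)

theorem LEV_ret_concat (w : Wlk d) (s : Stp d) :
    ret (w ++ [s]) = ret w + (if pos (w ++ [s]) 0 = 0 then 1 else 0) := by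
  unfold ret
  rw [List.length_append, List.length_singleton, List.range_succ, List.countP_append]
  congr 1
  · apply List.countP_congr
    intro i hi
    rw [List.mem_range] at hi
    rw [List.take_append_of_le_length (by omega)]
  · have h1 : (w ++ [s]).take (w.length + 1) = w ++ [s] := by
      apply List.take_of_length_le
      rw [List.length_append, List.length_singleton]
    rw [List.countP_cons, List.countP_nil, h1]
    by_cases h : pos (w ++ [s]) 0 = 0
    · simp [h]
    · simp [h]

/-- Initial segments of a walk with one more step. -/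
theorem LEV_ini {w a b : Wlk d} {s : Stp d} (h : w ++ [s] = a ++ b) :
    (b = [] ∧ a = w ++ [s]) ∨ ∃ c : Wlk d, w = a ++ c := by
  rcases List.append_eq_append_iff.mp h with ⟨t, h1, h2⟩ | ⟨t, h1, h2⟩
  · -- a = w ++ t, [s] = t ++ b
    rcases List.append_eq_singleton_iff.mp h2.symm with ⟨h3, h4⟩ | ⟨h3, h4⟩
    · right
      subst h3
      refine ⟨[], ?_⟩
      rw [h1]
      simp
    · left
      refine ⟨h4, ?_⟩
      rw [h1, h3]
  · exact Or.inr ⟨t, h1⟩

theorem LEV_flat_pos (L : List (Wlk d)) (h : ∀ b ∈ L, LE b) : pos L.flatten 0 = 0 := by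
  induction L with
  | nil => rw [List.flatten_nil, pos_nil_apply]
  | cons a L ih =>
    rw [List.flatten_cons, pos_append_apply, ih (fun b hb => h b (List.mem_cons_of_mem a hb)),
      (h a List.mem_cons_self).2.2.1, add_zero]

theorem ret_dec (w : Wlk d) (hw : SA w) : ∃ (L : List (Wlk d)) (τ : Wlk d), w = L.flatten ++ τ ∧ L.length = ret w ∧
    (∀ b ∈ L, LE b) ∧ ∀ a b : Wlk d, τ = a ++ b → a ≠ [] → pos a 0 ≠ 0 := by
  induction w using List.reverseRecOn with
  | nil =>
    refine ⟨[], [], rfl, rfl, ?_, ?_⟩
    · intro b hb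
      simp at hb
    · intro a b hab ha
      exact absurd (List.append_eq_nil_iff.mp hab.symm).1 ha
  | append_singleton w s ih =>
    obtain ⟨L, τ, h1, h2, h3, h4⟩ := ih (SA_left hw)
    have hL := LEV_flat_pos L h3
    have hpos : pos (w ++ [s]) 0 = pos (τ ++ [s]) 0 := by
      rw [h1, List.append_assoc, pos_append_apply, hL, zero_add]
    have hSA : SA (τ ++ [s]) := by
      rw [h1, List.append_assoc] at hw
      exact SA_right hw
    by_cases h : pos (w ++ [s]) 0 = 0
    · refine ⟨L ++ [τ ++ [s]], [], ?_, ?_, ?_, ?_⟩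
      · rw [List.flatten_append, h1]
        simp
      · rw [LEV_ret_concat, if_pos h, List.length_append, List.length_singleton, h2]
      · intro b hb
        rw [List.mem_append, List.mem_singleton] at hb
        rcases hb with hb | hb
        · exact h3 b hb
        · subst hb
          refine ⟨?_, hSA, by rw [← hpos]; exact h, ?_⟩
          · intro h5
            exact List.cons_ne_nil _ _ (List.append_eq_nil_iff.mp h5).2
          · intro u v huv hu hv
            rcases LEV_ini huv with ⟨h5, -⟩ | ⟨c, h5⟩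
            · exact absurd h5 hv
            · exact h4 u c h5 hu
      · intro a b hab ha
        exact absurd (List.append_eq_nil_iff.mp hab.symm).1 ha
    · refine ⟨L, τ ++ [s], ?_, ?_, h3, ?_⟩
      · rw [h1, List.append_assoc]
      · rw [LEV_ret_concat, if_neg h, h2, add_zero]
      · intro a b hab ha
        rcases LEV_ini hab with ⟨-, h5⟩ | ⟨c, h5⟩
        · rw [h5, ← hpos]
          exact h
        · exact h4 a c h5 ha

theorem no_ret (w : Wlk d) (h : ∀ a b : Wlk d, w = a ++ b → a ≠ [] → pos a 0 ≠ 0) (h0 : 0 ≤ pos w 0) : Ips w := by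
  induction w using List.reverseRecOn with
  | nil => exact Ips_nil
  | append_singleton w s ih =>
    have hne : w ++ [s] ≠ [] := by
      intro h5
      exact List.cons_ne_nil _ _ (List.append_eq_nil_iff.mp h5).2
    have h1 : pos (w ++ [s]) 0 ≠ 0 := h (w ++ [s]) [] (by rw [List.append_nil]) hne
    have h2 : 0 < pos (w ++ [s]) 0 := lt_of_le_of_ne h0 (Ne.symm h1)
    have h3 : ∀ a b : Wlk d, w = a ++ b → a ≠ [] → pos a 0 ≠ 0 := by
      intro a b hab ha
      refine h a (b ++ [s]) ?_ ha
      rw [hab, List.append_assoc]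
    have h4 : 0 ≤ pos w 0 := by
      have h5 : pos (w ++ [s]) 0 = pos w 0 + stp s 0 := by
        rw [pos_append_apply, pos_cons, pos_nil, add_zero]
      have h6 := abs_le.mp (abs_stp_le s 0)
      omega
    have h5 := ih h3 h4
    intro u v huv hu
    rcases LEV_ini huv with ⟨-, h6⟩ | ⟨c, h6⟩
    · rw [h6]
      exact h2
    · exact h5 u c h6 hu

/-- A walk which never returns stays on one side. -/
theorem LEV_side (w : Wlk d) (h : ∀ a b : Wlk d, w = a ++ b → a ≠ [] → pos a 0 ≠ 0) :
    Ips w ∨ Ips (flp 0 w) := by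
  by_cases h0 : 0 ≤ pos w 0
  · exact Or.inl (no_ret w h h0)
  · right
    apply no_ret
    · intro a b hab ha
      have h1 := h _ _ (flp_split hab) (flp_ne_nil ha)
      rw [pos_flp_self] at h1
      omega
    · rw [pos_flp_self]
      omega

theorem LE_cases {l : Wlk d} (h : LE l) : Exc l ∨ Exc (flp 0 l) := by
  obtain ⟨w, s, hws⟩ : ∃ (w : Wlk d) (s : Stp d), l = w ++ [s] :=
    ⟨l.dropLast, l.getLast h.1, (List.dropLast_append_getLast h.1).symm⟩
  have h1 : ∀ a b : Wlk d, w = a ++ b → a ≠ [] → pos a 0 ≠ 0 := by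
    intro a b hab ha
    refine h.2.2.2 a (b ++ [s]) ?_ ha ?_
    · rw [hws, hab, List.append_assoc]
    · intro h5
      exact List.cons_ne_nil _ _ (List.append_eq_nil_iff.mp h5).2
  rcases LEV_side w h1 with h2 | h2
  · left
    refine ⟨h.1, h.2.1, h.2.2.1, ?_⟩
    intro u v huv hu hv
    rw [hws] at huv
    rcases LEV_ini huv with ⟨h3, -⟩ | ⟨c, h3⟩
    · exact absurd h3 hv
    · exact h2 u c h3 hu
  · right
    refine ⟨flp_ne_nil h.1, SA_flp h.2.1, ?_, ?_⟩
    · rw [pos_flp_self, h.2.2.1, neg_zero]
    · intro u v huv hu hv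
      have h3 := flp_split huv
      rw [hws] at h3
      rcases LEV_ini h3 with ⟨h4, -⟩ | ⟨c, h4⟩
      · exact absurd h4 (flp_ne_nil hv)
      · have h5 : flp 0 w = u ++ flp 0 c := by
          rw [h4, flp_append, flp_flp]
        exact h2 u _ h5 hu

theorem LE_mass (z : ℝ≥0∞) : ms z {l : Wlk d | LE l} ≤ 2 * ms z {l : Wlk d | Exc l} := by
  have h1 : {l : Wlk d | LE l} ⊆ {l : Wlk d | Exc l} ∪ flp 0 '' {l : Wlk d | Exc l} := by
    intro l hl
    rcases LE_cases hl with h | h
    · exact Or.inl h
    · exact Or.inr ⟨flp 0 l, h, flp_flp 0 l⟩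
  refine (ms_mono z h1).trans ((ms_union_le z _ _).trans ?_)
  rw [ms_image z _ (flp 0) (fun l _ => flp_length 0 l) (fun l _ l' _ h => flp_inj h), two_mul]

end EXC
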