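import Pool.Agent.EXC.LEV

/-!
# EXC MDF: the block models: definitions

`Loop`: self-avoiding walks in the closed half space from the wall to the wall.  `ret w`: the number of returns
(visits to the wall after the start).  `Blk k`: loops with exactly `k` returns, so loops which consist of `k` excursions.
`BW k`: concatenations of `k`-blocks: only the steps inside one block see each other.
`Zr A α n`: the partition function of the walks of length `n` in `A` with the weight `exp (α * ret w)`.
`GE A α t`: the grand partition function `∑ exp (α * ret w - t * length)`.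
-/

set_option autoImplicit false

open scoped ENNReal BigOperators
open CNP

noncomputable section

namespace EXC

variable {d : ℕ}

/-- Loops: self-avoiding, in the closed half space, from the wall to the wall. -/
def Loop (l : Wlk d) : Prop := SA l ∧ (∀ u v : Wlk d, l = u ++ v → 0 ≤ pos u 0) ∧ pos l 0 = 0

/-- Blocks of `k` excursions. -/
def Blk (k : ℕ) (l : Wlk d) : Prop := Loop l ∧ ret l = k

/-- The walks of the block model. -/
def BW (k : ℕ) (w : Wlk d) : Prop := ∃ L : List (Wlk d), (∀ b ∈ L, Blk k b) ∧ w = L.flatten

/-- The partition function of the walks of length `n` in `A`. -/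
def Zr (A : Set (Wlk d)) (α : ℝ) (n : ℕ) : ℝ :=
  ∑' w : {w : Wlk d | w ∈ A ∧ w.length = n}, Real.exp (α * (ret w.1 : ℝ))

/-- The grand partition function. -/
def GE (A : Set (Wlk d)) (α t : ℝ) : ℝ≥0∞ :=
  ∑' w : Wlk d, A.indicator (fun w => ENNReal.ofReal (Real.exp (α * (ret w : ℝ) - t * (w.length : ℝ)))) w

/-- The number of `k`-blocks of length `n`. -/
def bn (d k n : ℕ) : ℝ := (Set.ncard {l : Wlk d | Blk k l ∧ l.length = n} : ℝ)

end EXC
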