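import Pool.Agent.EXC.SEC

/-!
# EXC SLO: Cauchy-Schwarz over the heights

A leg of class `n` has height `≥ 1` and `< 2 ^ (n + 1)`.  `ms z (Lg j n ∩ {pos l 0 < h}) = ∑ k ∈ [1, h), U j n k`, and
`(∑ k ∈ [1, h), U k) ^ 2 ≤ h * ∑ U k ^ 2 ≤ h * F j n` (go to the reals or use `inner_mul_le_norm_mul_norm`, `sq_sum_le_card_mul_sum_sq`
after `ENNReal.toReal`; all `U` are finite).
-/

set_option autoImplicit false

open scoped ENNReal BigOperators
open CNP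

namespace EXC

variable {d : ℕ}

theorem slo_cs {ι : Type*} (s : Finset ι) (u : ι → ℝ≥0∞) (hu : ∀ i ∈ s, u i ≠ ⊤) :
    (∑ i ∈ s, u i) ^ 2 ≤ (s.card : ℝ≥0∞) * ∑ i ∈ s, u i ^ 2 := by
  have h1 : ∑ i ∈ s, u i = ((∑ i ∈ s, (u i).toNNReal : NNReal) : ℝ≥0∞) := by
    rw [ENNReal.ofNNReal_finsetSum]
    exact Finset.sum_congr rfl fun i hi => (ENNReal.coe_toNNReal (hu i hi)).symm
  have h2 : ∑ i ∈ s, u i ^ 2 = ((∑ i ∈ s, (u i).toNNReal ^ 2 : NNReal) : ℝ≥0∞) := by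
    rw [ENNReal.ofNNReal_finsetSum]
    refine Finset.sum_congr rfl fun i hi => ?_
    rw [ENNReal.coe_pow, ENNReal.coe_toNNReal (hu i hi)]
  rw [h1, h2]
  have h3 := sq_sum_le_card_mul_sum_sq (s := s) (f := fun i => (u i).toNNReal)
  exact_mod_cast h3

theorem slo_union (z : ℝ≥0∞) (K : Finset ℕ) (A : Set (Wlk d)) (B : ℕ → Set (Wlk d))
    (h : ∀ l ∈ A, ∃ k ∈ K, l ∈ B k) : ms z A ≤ ∑ k ∈ K, ms z (B k) := by
  induction K using Finset.induction_on generalizing A with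
  | empty =>
    have : A = ∅ := by
      ext l
      constructor
      · intro hl
        obtain ⟨k, hk, _⟩ := h l hl
        exact absurd hk (Finset.notMem_empty k)
      · intro hl
        exact absurd hl (Set.notMem_empty l)
    rw [this, ms_empty]
    exact zero_le
  | insert b K hb ih =>
    rw [Finset.sum_insert hb]
    have h1 : A ⊆ B b ∪ (A \ B b) := by
      intro l hl
      by_cases h2 : l ∈ B b
      · exact Or.inl h2
      · exact Or.inr ⟨hl, h2⟩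
    refine (ms_mono z h1).trans ((ms_union_le z _ _).trans ?_)
    refine add_le_add le_rfl (ih _ ?_)
    intro l hl
    obtain ⟨k, hk, hlk⟩ := h l hl.1
    rcases Finset.mem_insert.mp hk with h3 | h3
    · rw [h3] at hlk
      exact absurd hlk hl.2
    · exact ⟨k, h3, hlk⟩

theorem slow (j : Fin (d + 1)) (n h : ℕ) :
    ms (zc d) (Lg j n ∩ {l | pos l 0 < (h : ℤ)}) ^ 2 ≤ (h : ℝ≥0∞) * F j n := by
  have h1 : ms (zc d) (Lg j n ∩ {l | pos l 0 < (h : ℤ)}) ≤ ∑ k ∈ Finset.range h, U j n (k : ℤ) := by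
    unfold U
    apply slo_union (zc d) (Finset.range h) _ (fun k => Lg j n ∩ {l | pos l 0 = (k : ℤ)})
    intro l hl
    have h2 : 0 ≤ pos l 0 := Ips_nonneg hl.1.1.2.2.1
    have h3 : pos l 0 < (h : ℤ) := hl.2
    refine ⟨(pos l 0).toNat, ?_, hl.1, ?_⟩
    · rw [Finset.mem_range]
      omega
    · show pos l 0 = (((pos l 0).toNat : ℕ) : ℤ)
      omega
  have h2 : ∑ k ∈ Finset.range h, U j n (k : ℤ) ^ 2 ≤ F j n := by
    unfold F
    have hinj : Function.Injective (fun k : ℕ => (k : ℤ)) := Nat.cast_injective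
    calc ∑ k ∈ Finset.range h, U j n (k : ℤ) ^ 2 ≤ ∑' k : ℕ, U j n (k : ℤ) ^ 2 :=
          ENNReal.sum_le_tsum _
      _ ≤ ∑' k : ℤ, U j n k ^ 2 :=
          ENNReal.tsum_comp_le_tsum_of_injective hinj (fun k : ℤ => U j n k ^ 2)
  calc ms (zc d) (Lg j n ∩ {l | pos l 0 < (h : ℤ)}) ^ 2
      ≤ (∑ k ∈ Finset.range h, U j n (k : ℤ)) ^ 2 := by gcongr
    _ ≤ ((Finset.range h).card : ℝ≥0∞) * ∑ k ∈ Finset.range h, U j n (k : ℤ) ^ 2 :=
        slo_cs _ _ (fun k _ => U_ne_top j n _)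
    _ ≤ (h : ℝ≥0∞) * F j n := by
        rw [Finset.card_range]
        gcongr

theorem slow_all (j : Fin (d + 1)) (n : ℕ) : am j n ^ 2 ≤ 2 ^ (n + 1) * F j n := by
  have h := slow j n (2 ^ (n + 1))
  have h1 : am j n ≤ ms (zc d) (Lg j n ∩ {l | pos l 0 < ((2 ^ (n + 1) : ℕ) : ℤ)}) := by
    unfold am
    apply ms_mono
    intro l hl
    refine ⟨hl, ?_⟩
    have h2 := pos_le_len l 0
    have h3 : l.length + 1 < 2 ^ (n + 1) := hl.2.2
    show pos l 0 < ((2 ^ (n + 1) : ℕ) : ℤ)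
    omega
  calc am j n ^ 2 ≤ ms (zc d) (Lg j n ∩ {l | pos l 0 < ((2 ^ (n + 1) : ℕ) : ℤ)}) ^ 2 := by gcongr
    _ ≤ ((2 ^ (n + 1) : ℕ) : ℝ≥0∞) * F j n := h
    _ = 2 ^ (n + 1) * F j n := by
      push_cast
      rfl

end EXC
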