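import Pool.Agent.EXC.GLU
import Pool.Agent.CNP.SWP

/-!
# EXC WBM: the mass of the short weak bridges

The map `P ↦ swp j (P ++ [ej j])` from the weak bridges of length less than `2 ^ n` to the bridges with
`length + 1 < 2 ^ (n + 1)` is injective and adds one to the length (`SA_glue` with `v = []`; `swp_pos`, `swp_SA`).
-/

set_option autoImplicit false

open scoped ENNReal BigOperators
open CNP

namespace EXC

variable {d : ℕ}

private theorem wbm_split {j : Fin (d + 1)} {l u v : Wlk d} (h : swp j l = u ++ v) : l = swp j u ++ swp j v := by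
  have h1 : swp j (u ++ v) = swp j u ++ swp j v := by
    unfold swp
    rw [List.map_append]
  rw [← h1, ← h, swp_swp]

private theorem wbm_nil {j : Fin (d + 1)} {u : Wlk d} (h : swp j u = []) : u = [] := by
  unfold swp at h
  exact List.map_eq_nil_iff.mp h

private theorem wbm_pos (j : Fin (d + 1)) (u : Wlk d) : pos u 0 = pos (swp j u) j := by
  rw [swp_pos, Equiv.swap_apply_right]

private theorem wbm_SB {j : Fin (d + 1)} {P : Wlk d} (h : WB j P) : SB (swp j (P ++ [ej j])) := by
  obtain ⟨h0, h1, h2, h3⟩ := h
  refine ⟨?_, ?_, ?_, ?_⟩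
  · intro h4
    have h5 := wbm_nil h4
    exact h0 (List.append_eq_nil_iff.mp h5).1
  · apply swp_SA
    refine SA_glue j P [] h1 SA_nil ?_ ?_
    · intro a b hab
      have h4 := h3 a b hab
      rw [hab, pos_append_apply] at h4
      omega
    · intro a b hab
      rw [(List.append_eq_nil_iff.mp hab.symm).1, pos_nil_apply]
  · intro u v huv hu
    have h4 := wbm_split huv
    rw [wbm_pos j u]
    have hu' : swp j u ≠ [] := fun h => hu (wbm_nil h)
    rcases List.append_eq_append_iff.mp h4 with ⟨s, h5, h6⟩ | ⟨s, h5, h6⟩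
    · -- swp j u = P ++ s
      rw [h5, pos_append_apply]
      have h7 := h2 P [] (List.append_nil P).symm h0
      rcases List.append_eq_singleton_iff.mp h6.symm with ⟨h8, h9⟩ | ⟨h8, h9⟩
      · rw [h8, pos_nil_apply]
        omega
      · rw [h8, pos_ej_self]
        omega
    · exact h2 _ s h5 hu'
  · intro u v huv hv
    have h4 := wbm_split huv
    rw [wbm_pos j v]
    have hv' : swp j v ≠ [] := fun h => hv (wbm_nil h)
    rcases List.append_eq_append_iff.mp h4 with ⟨s, h5, h6⟩ | ⟨s, h5, h6⟩
    · -- [ej] = s ++ swp j v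
      rcases List.append_eq_singleton_iff.mp h6.symm with ⟨h8, h9⟩ | ⟨h8, h9⟩
      · rw [h9, pos_ej_self]
        omega
      · exact absurd h9 hv'
    · -- P = swp j u ++ s, swp j v = s ++ [ej]
      rw [h6, pos_append_apply, pos_ej_self]
      have h7 := h3 _ s h5
      rw [h5, pos_append_apply] at h7
      omega

theorem wbt_le (j : Fin (d + 1)) (n : ℕ) : zc d * wbt j n ≤ bet d (n + 1) := by
  by_cases hn : n = 0
  · subst hn
    have h1 : {l : Wlk d | WB j l ∧ l.length < 2 ^ 0} = ∅ := by
      ext l
      simp only [pow_zero, Set.mem_setOf_eq, Set.mem_empty_iff_false, iff_false, not_and]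
      intro h2 h3
      exact h2.1 (List.length_eq_zero_iff.mp (by omega))
    unfold wbt
    rw [h1, ms_empty, mul_zero]
    exact zero_le
  · have h1 := ms_mono (zc d) (S := (fun P => swp j (P ++ [ej j])) '' {l : Wlk d | WB j l ∧ l.length < 2 ^ n})
      (T := {l : Wlk d | SB l ∧ l.length + 1 < 2 ^ (n + 1)}) (by
      rintro l ⟨P, ⟨h2, h3⟩, rfl⟩
      refine ⟨wbm_SB h2, ?_⟩
      have h4 : (swp j (P ++ [ej j])).length = P.length + 1 := by
        unfold swp
        rw [List.length_map, List.length_append, List.length_singleton]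
      have h5 : 2 ^ 1 ≤ 2 ^ n := Nat.pow_le_pow_right (by norm_num) (by omega)
      change (swp j (P ++ [ej j])).length + 1 < 2 ^ (n + 1)
      rw [h4, pow_succ]
      omega)
    have h2 : zc d * wbt j n =
        ms (zc d) ((fun P => swp j (P ++ [ej j])) '' {l : Wlk d | WB j l ∧ l.length < 2 ^ n}) := by
      have hinj : Set.InjOn (fun P : Wlk d => swp j (P ++ [ej j])) {l : Wlk d | WB j l ∧ l.length < 2 ^ n} := by
        intro P _ P' _ h
        have h3 := congrArg (swp j) h
        simp only [swp_swp] at h3
        exact List.append_cancel_right h3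
      unfold wbt
      rw [ms_subtype, ms_subtype, ← (Equiv.Set.imageOfInjOn _ _ hinj).tsum_eq, ← ENNReal.tsum_mul_left]
      refine tsum_congr fun P => ?_
      change zc d * zc d ^ P.1.length = zc d ^ (swp j (P.1 ++ [ej j])).length
      have h4 : (swp j (P.1 ++ [ej j])).length = P.1.length + 1 := by
        unfold swp
        rw [List.length_map, List.length_append, List.length_singleton]
      rw [h4, pow_succ, mul_comm]
    rw [h2]
    exact h1

end EXC
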