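import Pool.Agent.EXC.BRL
import Pool.Agent.EXC.WBM
import Pool.Agent.EXC.ASM
import Pool.Agent.EXC.FST
import Pool.Agent.EXC.SLO
import Pool.Agent.EXC.LWL
import Pool.Agent.EXC.ANA

/-!
# EXC THA: critical half-space self-avoiding excursions have infinite mean length

Suppose `AA d < ⊤`; then `ms (zc d) {Exc} ≤ AA d < ⊤`.  Put everything into `ana` with `j = 1`, `a = am`, `F`, `s = S`
(`toReal`), `E = max 1 (2 * ms {Exc})`; `z F ≤ (1 + 2 wbt) ms G`, `z wbt ≤ bet (n + 1) ≤ S (n + 1) ^ 2`, so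
`(1 + 2 wbt) ≤ (3 / z) S (n + 1) ^ 2` and `∑ 2 ^ n F n / S (n + 1) ^ 2 ≤ (3 / z ^ 2) ∑ 2 ^ n ms G ≤ (3 / z ^ 2) AA`.
-/

set_option autoImplicit false

open scoped ENNReal BigOperators
open CNP

namespace EXC

variable {d : ℕ}

theorem Exc_le_AA (d : ℕ) : ms (zc d) {l : Wlk d | Exc l} ≤ AA d := by
  unfold ms AA
  refine ENNReal.tsum_le_tsum fun l => ?_
  by_cases h : l ∈ {l : Wlk d | Exc l}
  · rw [Set.indicator_of_mem h, Set.indicator_of_mem h]
    have h1 : 1 ≤ l.length := List.length_pos_iff.mpr h.1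
    have h2 : (1 : ℝ≥0∞) ≤ (l.length : ℝ≥0∞) := by exact_mod_cast h1
    calc zc d ^ l.length = 1 * zc d ^ l.length := (one_mul _).symm
      _ ≤ _ := mul_le_mul' h2 le_rfl
  · rw [Set.indicator_of_notMem h, Set.indicator_of_notMem h]

/-- the key inequality in `ℝ≥0∞` -/
theorem zzF_le (j : Fin (d + 1)) (hj : j ≠ 0) (n : ℕ) :
    zc d * (zc d * F j n) ≤ 3 * S j (n + 1) ^ 2 * ms (zc d) (G j n) := by
  have h1 := sec j hj n
  have h2 := wbt_le j n
  have h3 := bet_le j hj (n + 1)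
  have h4 : (1 : ℝ≥0∞) ≤ S j (n + 1) ^ 2 := one_le_pow_of_one_le' (one_le_S j (n + 1)) 2
  calc zc d * (zc d * F j n) ≤ zc d * ((1 + 2 * wbt j n) * ms (zc d) (G j n)) := mul_le_mul' le_rfl h1
    _ = (zc d + 2 * (zc d * wbt j n)) * ms (zc d) (G j n) := by ring
    _ ≤ (S j (n + 1) ^ 2 + 2 * S j (n + 1) ^ 2) * ms (zc d) (G j n) :=
        mul_le_mul' (add_le_add ((zc_le_one d).trans h4) (mul_le_mul' le_rfl (h2.trans h3))) le_rfl
    _ = _ := by ring

theorem exc_mean (d : ℕ) (hd : 1 ≤ d) : AA d = ⊤ := by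
  by_contra hAA
  obtain ⟨j, hj⟩ : ∃ j : Fin (d + 1), j ≠ 0 :=
    ⟨⟨1, by omega⟩, fun h => by simpa using congrArg Fin.val h⟩
  have hE0 : ms (zc d) {l : Wlk d | Exc l} ≠ ⊤ := ne_top_of_le_ne_top hAA (Exc_le_AA d)
  have hG : ∀ n, (2 : ℝ≥0∞) ^ n * ms (zc d) (G j n) ≤ AA d := fun n =>
    (ENNReal.le_tsum n).trans (asm j hj)
  have hGt : ∀ n, ms (zc d) (G j n) ≠ ⊤ := fun n => by
    refine ne_top_of_le_ne_top hAA (le_trans ?_ (hG n))
    calc ms (zc d) (G j n) = 1 * ms (zc d) (G j n) := (one_mul _).symm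
      _ ≤ _ := mul_le_mul' (one_le_pow_of_one_le' (by norm_num) n) le_rfl
  obtain ⟨ε, hε, hlw⟩ := lwl d
  obtain ⟨z, hz⟩ : ∃ z : ℝ, z = (zc d).toReal := ⟨_, rfl⟩
  have hz0 : 0 < z := by
    rw [hz]; exact ENNReal.toReal_pos (zc_ne_zero d) (zc_ne_top d)
  have hs1 : ∀ n, 1 ≤ (S j n).toReal := fun n => by
    have := (ENNReal.toReal_le_toReal ENNReal.one_ne_top (S_ne_top j n)).2 (one_le_S j n)
    simpa using this
  have hbet : ∀ n, (bet d n).toReal ≤ (S j n).toReal ^ 2 := fun n => by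
    have := (ENNReal.toReal_le_toReal (bet_ne_top n) (ENNReal.pow_ne_top (S_ne_top j n))).2
      (bet_le j hj n)
    rwa [ENNReal.toReal_pow] at this
  have hc : ∀ n, ms (zc d) (Lg j n) ≠ ⊤ := fun n => am_ne_top j n
  refine ana (fun n => (am j n).toReal) (fun n => (F j n).toReal) (fun n => (S j n).toReal)
    (3 / z ^ 2 * (AA d).toReal) (max 1 (2 * (ms (zc d) {l : Wlk d | Exc l}).toReal)) ε
    (fun n => ENNReal.toReal_nonneg) (fun n => ENNReal.toReal_nonneg) ?_ (le_max_left _ _) hε ?_ ?_ ?_ ?_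
  · -- hs
    intro n
    unfold S
    rw [ENNReal.toReal_add ENNReal.one_ne_top
      (ENNReal.sum_lt_top.mpr (fun i _ => lt_top_iff_ne_top.mpr (am_ne_top j i))).ne,
      ENNReal.toReal_sum (fun i _ => am_ne_top j i)]
    simp
  · -- h1
    intro N
    have h1 : ∀ n, 2 ^ n * (F j n).toReal / (S j (n + 1)).toReal ^ 2 ≤
        3 / z ^ 2 * (2 ^ n * (ms (zc d) (G j n)).toReal) := by
      intro n
      have h2 := (ENNReal.toReal_le_toReal
        (ENNReal.mul_ne_top (zc_ne_top d) (ENNReal.mul_ne_top (zc_ne_top d) (F_ne_top j n)))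
        (ENNReal.mul_ne_top (ENNReal.mul_ne_top (by norm_num)
          (ENNReal.pow_ne_top (S_ne_top j (n + 1)))) (hGt n))).2 (zzF_le j hj n)
      simp only [ENNReal.toReal_mul, ENNReal.toReal_pow] at h2
      rw [← hz] at h2
      have h3 : (3 : ℝ≥0∞).toReal = 3 := by simp
      rw [h3] at h2
      have hs : 0 < (S j (n + 1)).toReal := lt_of_lt_of_le one_pos (hs1 _)
      rw [div_le_iff₀ (by positivity)]
      have h4 : 3 / z ^ 2 * (2 ^ n * (ms (zc d) (G j n)).toReal) * (S j (n + 1)).toReal ^ 2 =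
          (2 ^ n * (3 * (S j (n + 1)).toReal ^ 2 * (ms (zc d) (G j n)).toReal)) / z ^ 2 := by
        field_simp
      rw [h4, le_div_iff₀ (by positivity)]
      have h5 : 2 ^ n * (F j n).toReal * z ^ 2 = 2 ^ n * (z * (z * (F j n).toReal)) := by ring
      rw [h5]
      exact mul_le_mul_of_nonneg_left h2 (by positivity)
    refine (Finset.sum_le_sum fun n _ => h1 n).trans ?_
    rw [← Finset.mul_sum]
    refine mul_le_mul_of_nonneg_left ?_ (by positivity)
    have h2 : ∑ n ∈ Finset.range N, (2 : ℝ≥0∞) ^ n * ms (zc d) (G j n) ≤ AA d :=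
      (ENNReal.sum_le_tsum _).trans (asm j hj)
    have h3 := (ENNReal.toReal_le_toReal (ne_top_of_le_ne_top hAA h2) hAA).2 h2
    rw [ENNReal.toReal_sum (fun n _ => ne_top_of_le_ne_top hAA (hG n))] at h3
    simpa [ENNReal.toReal_mul, ENNReal.toReal_pow] using h3
  · -- h2
    intro n
    have h1 := (ENNReal.toReal_le_toReal (ENNReal.pow_ne_top (am_ne_top j n))
      (ENNReal.mul_ne_top (ENNReal.pow_ne_top (by norm_num)) (F_ne_top j n))).2 (slow_all j n)
    simpa [ENNReal.toReal_mul, ENNReal.toReal_pow] using h1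
  · -- h3
    intro n Q h hQ
    have hA : ms (zc d) (Lg j n ∩ {l | pos l 0 < (h : ℤ)}) ≠ ⊤ :=
      ne_top_of_le_ne_top (hc n) (ms_mono _ Set.inter_subset_left)
    have hB : ms (zc d) (Lg j n ∩ {l | (h : ℤ) ≤ pos l 0}) ≠ ⊤ :=
      ne_top_of_le_ne_top (hc n) (ms_mono _ Set.inter_subset_left)
    refine ⟨(ms (zc d) (Lg j n ∩ {l | pos l 0 < (h : ℤ)})).toReal,
      (ms (zc d) (Lg j n ∩ {l | (h : ℤ) ≤ pos l 0})).toReal,
      ENNReal.toReal_nonneg, ENNReal.toReal_nonneg, ?_, ?_, ?_⟩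
    · rw [← ENNReal.toReal_add hA hB]
      refine (ENNReal.toReal_le_toReal (am_ne_top j n) (ENNReal.add_ne_top.2 ⟨hA, hB⟩)).2 ?_
      refine le_trans (ms_mono _ ?_) (ms_union_le _ _ _)
      intro l hl
      rcases lt_or_ge (pos l 0) (h : ℤ) with h1 | h1
      · exact Or.inl ⟨hl, h1⟩
      · exact Or.inr ⟨hl, h1⟩
    · have h1 := (ENNReal.toReal_le_toReal (ENNReal.pow_ne_top hA)
        (ENNReal.mul_ne_top (ENNReal.natCast_ne_top h) (F_ne_top j n))).2 (slow j n h)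
      simpa [ENNReal.toReal_mul, ENNReal.toReal_pow] using h1
    · have hsumt : (∑ q ∈ Finset.range Q, (2 * ms (zc d) {l : Wlk d | Exc l}) ^ q) ≠ ⊤ :=
        (ENNReal.sum_lt_top.mpr (fun i _ => lt_top_iff_ne_top.mpr
          (ENNReal.pow_ne_top (ENNReal.mul_ne_top (by norm_num) hE0)))).ne
      have h1 := (ENNReal.toReal_le_toReal (ENNReal.mul_ne_top (ENNReal.natCast_ne_top h) hB)
        (ENNReal.mul_ne_top (by norm_num) (ENNReal.mul_ne_top
          (ENNReal.mul_ne_top (bet_ne_top (n + 1)) hsumt) (S_ne_top j (n + 1))))).2 (fast j n Q h hQ)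
      rw [ENNReal.toReal_mul, ENNReal.toReal_mul, ENNReal.toReal_mul, ENNReal.toReal_mul,
        ENNReal.toReal_natCast, ENNReal.toReal_sum (fun i _ =>
          ENNReal.pow_ne_top (ENNReal.mul_ne_top (by norm_num) hE0))] at h1
      have h2 : (2 : ℝ≥0∞).toReal = 2 := by simp
      rw [h2] at h1
      refine h1.trans ?_
      have h3 : ∑ q ∈ Finset.range Q, ((2 * ms (zc d) {l : Wlk d | Exc l}) ^ q).toReal ≤
          ∑ q ∈ Finset.range Q, (max 1 (2 * (ms (zc d) {l : Wlk d | Exc l}).toReal)) ^ q := by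
        refine Finset.sum_le_sum fun q _ => ?_
        rw [ENNReal.toReal_pow, ENNReal.toReal_mul, h2]
        exact pow_le_pow_left₀ (by positivity) (le_max_right _ _) q
      have h4 : 0 ≤ ∑ q ∈ Finset.range Q, ((2 * ms (zc d) {l : Wlk d | Exc l}) ^ q).toReal :=
        Finset.sum_nonneg fun q _ => ENNReal.toReal_nonneg
      have hs0 : 0 ≤ (S j (n + 1)).toReal := ENNReal.toReal_nonneg
      calc 2 * ((bet d (n + 1)).toReal *
            (∑ q ∈ Finset.range Q, ((2 * ms (zc d) {l : Wlk d | Exc l}) ^ q).toReal) *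
            (S j (n + 1)).toReal)
          ≤ 2 * ((S j (n + 1)).toReal ^ 2 *
            (∑ q ∈ Finset.range Q, (max 1 (2 * (ms (zc d) {l : Wlk d | Exc l}).toReal)) ^ q) *
            (S j (n + 1)).toReal) := by
            refine mul_le_mul_of_nonneg_left ?_ (by norm_num)
            refine mul_le_mul_of_nonneg_right ?_ hs0
            exact mul_le_mul (hbet (n + 1)) h3 h4 (by positivity)
        _ = _ := by ring
  · -- h4
    intro C
    obtain ⟨n, hn⟩ := hlw C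
    refine ⟨n, ?_⟩
    rcases le_or_gt 0 (ε * n + C) with h0 | h0
    · have h1 := (ENNReal.ofReal_lt_iff_lt_toReal h0 (bet_ne_top n)).1 hn
      exact lt_of_lt_of_le h1 (hbet n)
    · have := hs1 n
      nlinarith

end EXC
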