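import Pool.Agent.EXC.RET

/-!
# EXC ZPF: the partition functions

* `Zr_fin`: the set `{w | w ∈ A ∧ w.length = n}` is finite (`len_fin`), so `Zr` is a finite sum.
* `GE_eq`: group the walks by their length; `exp (α ret - t n) = exp (α ret) * exp (- t n)`.
* `Zr_mul`: `(w, w') ↦ w ++ w'` is injective (lengths `m`, `n` are fixed), maps into `BW k` and `ret` is additive
  (`ret_append`, walks in `BW k` have `pos w 0 = 0`).
* `Zr_le`: at most `(2 * (d + 1)) ^ n` walks of length `n`, `ret w ≤ n`.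
-/

set_option autoImplicit false

open scoped ENNReal BigOperators
open CNP

namespace EXC

variable {d : ℕ}

theorem zpf_fin (A : Set (Wlk d)) (n : ℕ) : {w : Wlk d | w ∈ A ∧ w.length = n}.Finite :=
  (len_fin d n).subset fun _ h => h.2

theorem zpf_summable (A : Set (Wlk d)) (n : ℕ) (f : {w : Wlk d | w ∈ A ∧ w.length = n} → ℝ) : Summable f := by
  have : Finite {w : Wlk d | w ∈ A ∧ w.length = n} := zpf_fin A n
  exact Summable.of_finite

theorem zpf_sum (A : Set (Wlk d)) (α : ℝ) (n : ℕ) :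
    Zr A α n = ∑ w ∈ (zpf_fin A n).toFinset, Real.exp (α * (ret w : ℝ)) := by
  unfold Zr
  have h := Finset.tsum_subtype (zpf_fin A n).toFinset (fun w : Wlk d => Real.exp (α * (ret w : ℝ)))
  rw [← h]
  have e : {w : Wlk d | w ∈ A ∧ w.length = n} = ((zpf_fin A n).toFinset : Set (Wlk d)) :=
    (zpf_fin A n).coe_toFinset.symm
  exact tsum_congr_set_coe (fun w : Wlk d => Real.exp (α * (ret w : ℝ))) e

theorem Zr_nonneg (A : Set (Wlk d)) (α : ℝ) (n : ℕ) : 0 ≤ Zr A α n :=
  tsum_nonneg fun _ => (Real.exp_pos _).le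

theorem Zr_ge {A : Set (Wlk d)} {α : ℝ} {w : Wlk d} (h : w ∈ A) : Real.exp (α * (ret w : ℝ)) ≤ Zr A α w.length := by
  have h1 := (zpf_summable A w.length (fun v => Real.exp (α * (ret v.1 : ℝ)))).le_tsum ⟨w, h, rfl⟩
    (fun _ _ => (Real.exp_pos _).le)
  exact h1

theorem Zr_pos {A : Set (Wlk d)} {α : ℝ} {n : ℕ} (h : ∃ w ∈ A, w.length = n) : 0 < Zr A α n := by
  obtain ⟨w, hw, rfl⟩ := h
  exact lt_of_lt_of_le (Real.exp_pos _) (Zr_ge hw)

theorem GE_eq (A : Set (Wlk d)) (α t : ℝ) :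
    GE A α t = ∑' n : ℕ, ENNReal.ofReal (Zr A α n * Real.exp (-(t * (n : ℝ)))) := by
  have h1 : ∀ n : ℕ, ENNReal.ofReal (Zr A α n * Real.exp (-(t * (n : ℝ)))) =
      ∑' w : Wlk d, {w : Wlk d | w ∈ A ∧ w.length = n}.indicator
        (fun w => ENNReal.ofReal (Real.exp (α * (ret w : ℝ) - t * (w.length : ℝ)))) w := by
    intro n
    rw [← tsum_subtype]
    unfold Zr
    rw [← tsum_mul_right, ENNReal.ofReal_tsum_of_nonneg (fun w => by positivity) (zpf_summable A n _)]
    refine tsum_congr fun w => ?_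
    have h2 : (w.1.length : ℝ) = n := by exact_mod_cast w.2.2
    rw [h2, ← Real.exp_add, sub_eq_add_neg]
  rw [tsum_congr h1, ENNReal.tsum_comm]
  unfold GE
  refine tsum_congr fun w => ?_
  rw [tsum_eq_single w.length]
  · by_cases hw : w ∈ A
    · rw [Set.indicator_of_mem hw, Set.indicator_of_mem (show w ∈ {v : Wlk d | v ∈ A ∧ v.length = w.length} from ⟨hw, rfl⟩)]
    · rw [Set.indicator_of_notMem hw, Set.indicator_of_notMem (fun h => hw h.1)]
  · intro n hn
    exact Set.indicator_of_notMem (fun h => hn h.2.symm) _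

theorem zpf_pos {k : ℕ} {w : Wlk d} (h : BW k w) : pos w 0 = 0 := by
  obtain ⟨L, hL, rfl⟩ := h
  induction L with
  | nil => rw [List.flatten_nil, pos_nil_apply]
  | cons b L ih =>
    rw [List.flatten_cons, pos_append_apply, (hL b List.mem_cons_self).1.2.2, zero_add]
    exact ih (fun c hc => hL c (List.mem_cons_of_mem _ hc))

theorem zpf_append {k : ℕ} {w w' : Wlk d} (h : BW k w) (h' : BW k w') : BW k (w ++ w') := by
  obtain ⟨L, hL, rfl⟩ := h
  obtain ⟨L', hL', rfl⟩ := h'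
  refine ⟨L ++ L', ?_, by rw [List.flatten_append]⟩
  intro b hb
  rcases List.mem_append.mp hb with hb | hb
  · exact hL b hb
  · exact hL' b hb

theorem Zr_mul (k : ℕ) (α : ℝ) (m n : ℕ) :
    Zr {w : Wlk d | BW k w} α m * Zr {w : Wlk d | BW k w} α n ≤ Zr {w : Wlk d | BW k w} α (m + n) := by
  classical
  rw [zpf_sum, zpf_sum, zpf_sum, Finset.sum_mul_sum, ← Finset.sum_product']
  have h1 : ∀ q ∈ (zpf_fin {w : Wlk d | BW k w} m).toFinset ×ˢ (zpf_fin {w : Wlk d | BW k w} n).toFinset,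
      Real.exp (α * (ret q.1 : ℝ)) * Real.exp (α * (ret q.2 : ℝ)) = Real.exp (α * (ret (q.1 ++ q.2) : ℝ)) := by
    rintro ⟨w, w'⟩ hq
    rw [Finset.mem_product, Set.Finite.mem_toFinset, Set.Finite.mem_toFinset] at hq
    simp only
    rw [ret_append w w' (zpf_pos hq.1.1), ← Real.exp_add]
    push_cast
    ring_nf
  rw [Finset.sum_congr rfl h1]
  have hinj : Set.InjOn (fun q : Wlk d × Wlk d => q.1 ++ q.2)
      ↑((zpf_fin {w : Wlk d | BW k w} m).toFinset ×ˢ (zpf_fin {w : Wlk d | BW k w} n).toFinset) := by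
    rintro ⟨w, w'⟩ hq ⟨v, v'⟩ hq' h
    rw [Finset.mem_coe, Finset.mem_product, Set.Finite.mem_toFinset, Set.Finite.mem_toFinset] at hq hq'
    have h3 : w.length = v.length := by
      have e1 : w.length = m := hq.1.2
      have e2 : v.length = m := hq'.1.2
      rw [e1, e2]
    obtain ⟨h4, h5⟩ := List.append_inj h h3
    exact Prod.ext h4 h5
  have h2 := Finset.sum_image (f := fun w : Wlk d => Real.exp (α * (ret w : ℝ))) hinj
  rw [← h2]
  refine Finset.sum_le_sum_of_subset_of_nonneg ?_ (fun _ _ _ => (Real.exp_pos _).le)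
  intro w hw
  rw [Finset.mem_image] at hw
  obtain ⟨⟨u, v⟩, hq, rfl⟩ := hw
  rw [Finset.mem_product, Set.Finite.mem_toFinset, Set.Finite.mem_toFinset] at hq
  rw [Set.Finite.mem_toFinset]
  refine ⟨zpf_append hq.1.1 hq.2.1, ?_⟩
  have e1 : u.length = m := hq.1.2
  have e2 : v.length = n := hq.2.2
  rw [List.length_append, e1, e2]

theorem zpf_card (A : Set (Wlk d)) (n : ℕ) : (zpf_fin A n).toFinset.card ≤ (2 * (d + 1)) ^ n := by
  have h1 : ((Set.univ : Set (Fin n → Stp d))).ncard = (2 * (d + 1)) ^ n := by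
    rw [Set.ncard_univ, Nat.card_fun]
    unfold Stp
    rw [Nat.card_prod, Nat.card_fin, Nat.card_fin, Nat.card_eq_fintype_card, Fintype.card_bool, mul_comm]
  rw [← Set.ncard_eq_toFinset_card _ (zpf_fin A n), ← h1]
  have hsub : {w : Wlk d | w ∈ A ∧ w.length = n} ⊆ Set.range (fun f : Fin n → Stp d => List.ofFn f) := by
    rintro w ⟨-, rfl⟩
    exact ⟨fun i => w.get i, List.ofFn_get w⟩
  have hf : (Set.range (fun f : Fin n → Stp d => List.ofFn f)).Finite := by
    have : Finite (Fin n → Stp d) := by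
      unfold Stp
      infer_instance
    exact Set.finite_range _
  refine (Set.ncard_le_ncard hsub hf).trans ?_
  rw [← Set.image_univ]
  have : Finite (Fin n → Stp d) := by
    unfold Stp
    infer_instance
  exact Set.ncard_image_le Set.finite_univ

theorem Zr_le (A : Set (Wlk d)) (α : ℝ) (n : ℕ) :
    Zr A α n ≤ Real.exp ((Real.log (2 * ((d : ℝ) + 1)) + |α|) * (n : ℝ)) := by
  rw [zpf_sum]
  have h1 : ∀ w ∈ (zpf_fin A n).toFinset, Real.exp (α * (ret w : ℝ)) ≤ Real.exp (|α| * (n : ℝ)) := by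
    intro w hw
    rw [Set.Finite.mem_toFinset] at hw
    rw [Real.exp_le_exp]
    have h2 : (ret w : ℝ) ≤ n := by
      have e1 : w.length = n := hw.2
      have := ret_le w
      rw [e1] at this
      exact_mod_cast this
    exact mul_le_mul (le_abs_self α) h2 (Nat.cast_nonneg _) (abs_nonneg _)
  refine (Finset.sum_le_card_nsmul _ _ _ h1).trans ?_
  rw [nsmul_eq_mul]
  have h3 : ((zpf_fin A n).toFinset.card : ℝ) ≤ (2 * ((d : ℝ) + 1)) ^ n := by
    exact_mod_cast zpf_card A n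
  have h4 : (2 * ((d : ℝ) + 1)) ^ n = Real.exp (Real.log (2 * ((d : ℝ) + 1)) * (n : ℝ)) := by
    rw [mul_comm (Real.log (2 * ((d : ℝ) + 1))), Real.exp_nat_mul, Real.exp_log (by positivity)]
  rw [add_mul, Real.exp_add, ← h4]
  exact mul_le_mul_of_nonneg_right h3 (Real.exp_pos _).le

end EXC
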