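import Pool.Agent.EXC.BUQ
import Pool.Agent.EXC.ZPF
import Pool.Agent.EXC.BLX
import Pool.Agent.EXC.FEK
import Pool.Agent.EXC.THA

/-!
# EXC PHI: the free energy of the block model

`fek` for `u n = Zr {BW k} α n` (`Zr_mul`, `Zr_pos` with `BW_len`, `Zr_le`); `GE_eq`, `GE_BW`: a geometric series is finite iff its
ratio is less than one.  `ms_bn`: `ms (ofReal (exp (- t))) {Blk k} = ∑' n, ofReal (bn d k n * exp (- t n))`.
`phi_ge`: for `t < log μ` the mass `ms (ofReal (exp (- t))) {Blk k}` is infinite by `Blk_mean`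
(`length * zc ^ length ≤ C * (exp (- t)) ^ length`), so `GE = ⊤` and `t ≤ φ α`.
`bn_fin`: `chi_fin`; `bn_inf`: `Blk_mean`.
-/

set_option autoImplicit false

open scoped ENNReal BigOperators Topology
open CNP Filter

namespace EXC

/-- A sum over walks of a function of the length. -/
theorem sum_len {d : ℕ} (A : Set (Wlk d)) (g : ℕ → ℝ≥0∞) :
    ∑' l : Wlk d, A.indicator (fun l => g l.length) l =
      ∑' n : ℕ, (Set.ncard {l : Wlk d | l ∈ A ∧ l.length = n} : ℝ≥0∞) * g n := by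
  have h1 : ∀ l : Wlk d, A.indicator (fun l => g l.length) l =
      ∑' n : ℕ, {l : Wlk d | l ∈ A ∧ l.length = n}.indicator (fun l => g l.length) l := by
    intro l
    by_cases hl : l ∈ A
    · rw [Set.indicator_of_mem hl, tsum_eq_single l.length,
        Set.indicator_of_mem (show l ∈ {l' : Wlk d | l' ∈ A ∧ l'.length = l.length} from ⟨hl, rfl⟩)]
      intro n hn
      exact Set.indicator_of_notMem (fun h => hn h.2.symm) _
    · rw [Set.indicator_of_notMem hl]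
      symm
      rw [ENNReal.tsum_eq_zero]
      intro n
      exact Set.indicator_of_notMem (fun h => hl h.1) _
  rw [tsum_congr h1, ENNReal.tsum_comm]
  refine tsum_congr fun n => ?_
  rw [← tsum_subtype]
  have h2 : ∀ l : {l : Wlk d | l ∈ A ∧ l.length = n}, g l.1.length = g n := fun l => by rw [l.2.2]
  rw [tsum_congr h2]
  have hfin : {l : Wlk d | l ∈ A ∧ l.length = n}.Finite := (len_fin d n).subset (fun l hl => hl.2)
  have : Fintype {l : Wlk d | l ∈ A ∧ l.length = n} := hfin.fintype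
  rw [tsum_fintype, Finset.sum_const, nsmul_eq_mul, Finset.card_univ, Set.ncard_eq_toFinset_card', Set.toFinset_card]

theorem ms_bn (d k : ℕ) (t : ℝ) : ms (ENNReal.ofReal (Real.exp (-t))) {l : Wlk d | Blk k l} =
    ∑' n : ℕ, ENNReal.ofReal (bn d k n * Real.exp (-(t * (n : ℝ)))) := by
  unfold ms
  rw [sum_len {l : Wlk d | Blk k l} (fun n => ENNReal.ofReal (Real.exp (-t)) ^ n)]
  refine tsum_congr fun n => ?_
  unfold bn
  rw [ENNReal.ofReal_mul (Nat.cast_nonneg _), ENNReal.ofReal_natCast, ← ENNReal.ofReal_pow (Real.exp_pos _).le,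
    ← Real.exp_nat_mul]
  congr 3
  ring

theorem bn_nonneg (d k n : ℕ) : 0 ≤ bn d k n := Nat.cast_nonneg _

theorem exp_lt_zc (d : ℕ) (t : ℝ) (ht : Real.log (mu d) < t) : ENNReal.ofReal (Real.exp (-t)) < zc d := by
  unfold zc
  rw [ENNReal.ofReal_lt_ofReal_iff (inv_pos.mpr (mu_pos d)), Real.exp_neg]
  refine inv_strictAnti₀ (mu_pos d) ?_
  rw [← Real.log_lt_iff_lt_exp (mu_pos d)]
  exact ht

theorem ms_Blk_lt (d k : ℕ) (t : ℝ) (ht : Real.log (mu d) < t) :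
    ms (ENNReal.ofReal (Real.exp (-t))) {l : Wlk d | Blk k l} < ⊤ :=
  lt_of_le_of_lt (ms_mono _ (fun l hl => hl.1.1)) (chi_fin d _ (exp_lt_zc d t ht))

theorem bn_fin (d k : ℕ) (t : ℝ) (ht : Real.log (mu d) < t) :
    Summable (fun n : ℕ => bn d k n * Real.exp (-(t * (n : ℝ)))) := by
  have h1 := ms_Blk_lt d k t ht
  rw [ms_bn] at h1
  have h2 := ENNReal.summable_toReal h1.ne
  refine h2.congr (fun n => ?_)
  exact ENNReal.toReal_ofReal (mul_nonneg (bn_nonneg d k n) (Real.exp_pos _).le)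

theorem zc_eq_exp (d : ℕ) : zc d = ENNReal.ofReal (Real.exp (-Real.log (mu d))) := by
  unfold zc
  rw [Real.exp_neg, Real.exp_log (mu_pos d)]

theorem bn_inf (d k : ℕ) (hd : 1 ≤ d) (hk : 1 ≤ k) :
    ∑' n : ℕ, ENNReal.ofReal ((n : ℝ) * bn d k n * Real.exp (-(Real.log (mu d) * (n : ℝ)))) = ⊤ := by
  have h1 := Blk_mean (d := d) hd (exc_mean d hd) k hk
  rw [sum_len {l : Wlk d | Blk k l} (fun n => (n : ℝ≥0∞) * zc d ^ n)] at h1
  rw [← h1]
  refine tsum_congr fun n => ?_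
  unfold bn
  rw [zc_eq_exp, ENNReal.ofReal_mul (by positivity), ENNReal.ofReal_mul (Nat.cast_nonneg _), ENNReal.ofReal_natCast,
    ENNReal.ofReal_natCast, ← ENNReal.ofReal_pow (Real.exp_pos _).le, ← Real.exp_nat_mul]
  have h2 : (n : ℝ) * -Real.log (mu d) = -(Real.log (mu d) * (n : ℝ)) := by ring
  rw [h2]
  simp only [Set.mem_setOf_eq]
  ring

/-- Below `log μ` the mass of the blocks is infinite. -/
theorem ms_Blk_top (d k : ℕ) (hd : 1 ≤ d) (hk : 1 ≤ k) (t : ℝ) (ht : t < Real.log (mu d)) :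
    ms (ENNReal.ofReal (Real.exp (-t))) {l : Wlk d | Blk k l} = ⊤ := by
  rw [ms_bn]
  by_contra hne
  have h1 := bn_inf d k hd hk
  obtain ⟨δ, hδ⟩ : ∃ δ : ℝ, δ = Real.log (mu d) - t := ⟨_, rfl⟩
  have hδ0 : 0 < δ := by linarith
  have h2 : ∀ n : ℕ, ENNReal.ofReal ((n : ℝ) * bn d k n * Real.exp (-(Real.log (mu d) * (n : ℝ)))) ≤
      ENNReal.ofReal (1 / δ) * ENNReal.ofReal (bn d k n * Real.exp (-(t * (n : ℝ)))) := by
    intro n
    rw [← ENNReal.ofReal_mul (by positivity)]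
    apply ENNReal.ofReal_le_ofReal
    have h3 : Real.log (mu d) * (n : ℝ) = δ * n + t * n := by
      rw [hδ]
      ring
    have h4 : δ * (n : ℝ) ≤ Real.exp (δ * n) := by
      have := Real.add_one_le_exp (δ * n)
      linarith
    have h5 : (n : ℝ) * Real.exp (-(δ * n)) ≤ 1 / δ := by
      rw [le_div_iff₀ hδ0, Real.exp_neg]
      have h6 : 0 < Real.exp (δ * n) := Real.exp_pos _
      calc (n : ℝ) * (Real.exp (δ * n))⁻¹ * δ = (δ * n) * (Real.exp (δ * n))⁻¹ := by ring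
        _ ≤ Real.exp (δ * n) * (Real.exp (δ * n))⁻¹ := mul_le_mul_of_nonneg_right h4 (by positivity)
        _ = 1 := mul_inv_cancel₀ h6.ne'
    have h6 : Real.exp (-(Real.log (mu d) * (n : ℝ))) = Real.exp (-(δ * n)) * Real.exp (-(t * n)) := by
      rw [h3, ← Real.exp_add]
      congr 1
      ring
    have h7 : 0 ≤ bn d k n * Real.exp (-(t * (n : ℝ))) := mul_nonneg (bn_nonneg d k n) (Real.exp_pos _).le
    calc (n : ℝ) * bn d k n * Real.exp (-(Real.log (mu d) * (n : ℝ)))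
        = ((n : ℝ) * Real.exp (-(δ * n))) * (bn d k n * Real.exp (-(t * n))) := by
          rw [h6]
          ring
      _ ≤ 1 / δ * (bn d k n * Real.exp (-(t * n))) := mul_le_mul_of_nonneg_right h5 h7
  have h3 := ENNReal.tsum_le_tsum h2
  rw [h1, ENNReal.tsum_mul_left] at h3
  exact ENNReal.mul_ne_top ENNReal.ofReal_ne_top hne (top_le_iff.mp h3)

theorem geo_lt {x : ℝ≥0∞} (h : ∑' m : ℕ, x ^ m < ⊤) : x < 1 := by
  rw [ENNReal.tsum_geometric, ENNReal.inv_lt_top, tsub_pos_iff_lt] at h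
  exact h

theorem geo_ge {x : ℝ≥0∞} (h : ∑' m : ℕ, x ^ m = ⊤) : 1 ≤ x := by
  rw [ENNReal.tsum_geometric, ENNReal.inv_eq_top, tsub_eq_zero_iff_le] at h
  exact h

theorem phi_ex (d k : ℕ) (hd : 1 ≤ d) (hk : 1 ≤ k) : ∃ φ : ℝ → ℝ,
    (∀ α, Tendsto (fun n : ℕ => Real.log (Zr {w : Wlk d | BW k w} α n) / (n : ℝ)) atTop (𝓝 (φ α))) ∧
    (∀ α t, φ α < t → ENNReal.ofReal (Real.exp (k * α)) * ms (ENNReal.ofReal (Real.exp (-t))) {l : Wlk d | Blk k l} < 1) ∧
    (∀ α t, t < φ α → 1 ≤ ENNReal.ofReal (Real.exp (k * α)) * ms (ENNReal.ofReal (Real.exp (-t))) {l : Wlk d | Blk k l}) ∧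
    ∀ α, Real.log (mu d) ≤ φ α := by
  obtain ⟨n0, hn0⟩ := BW_len (d := d) hd k hk
  have hfek : ∀ α : ℝ, ∃ L : ℝ,
      Tendsto (fun n : ℕ => Real.log (Zr {w : Wlk d | BW k w} α n) / (n : ℝ)) atTop (𝓝 L) ∧
      (∀ t, L < t → ∑' n : ℕ, ENNReal.ofReal (Zr {w : Wlk d | BW k w} α n * Real.exp (-(t * (n : ℝ)))) < ⊤) ∧
      (∀ t, t < L → ∑' n : ℕ, ENNReal.ofReal (Zr {w : Wlk d | BW k w} α n * Real.exp (-(t * (n : ℝ)))) = ⊤) := by
    intro α
    exact fek (Zr {w : Wlk d | BW k w} α) (fun n => Zr_nonneg _ α n) (fun m n => Zr_mul k α m n) n0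
      (fun n hn => Zr_pos (hn0 n hn)) _ (fun n => Zr_le _ α n)
  choose φ h1 h2 h3 using hfek
  have hge : ∀ α t, ∑' n : ℕ, ENNReal.ofReal (Zr {w : Wlk d | BW k w} α n * Real.exp (-(t * (n : ℝ)))) =
      ∑' m : ℕ, (ENNReal.ofReal (Real.exp (k * α)) *
        ms (ENNReal.ofReal (Real.exp (-t))) {l : Wlk d | Blk k l}) ^ m := by
    intro α t
    rw [← GE_eq, GE_BW k hk, mul_comm α (k : ℝ)]
  have h4 : ∀ α t, φ α < t → ENNReal.ofReal (Real.exp (k * α)) *
      ms (ENNReal.ofReal (Real.exp (-t))) {l : Wlk d | Blk k l} < 1 := by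
    intro α t ht
    have h5 := h2 α t ht
    rw [hge] at h5
    exact geo_lt h5
  refine ⟨φ, h1, h4, ?_, ?_⟩
  · intro α t ht
    have h5 := h3 α t ht
    rw [hge] at h5
    exact geo_ge h5
  · intro α
    by_contra hcon
    rw [not_le] at hcon
    obtain ⟨t, ht1, ht2⟩ := exists_between hcon
    have h5 := h4 α t ht1
    rw [ms_Blk_top d k hd hk t ht2, ENNReal.mul_top (ENNReal.ofReal_pos.mpr (Real.exp_pos _)).ne'] at h5
    exact absurd h5 (not_lt.mpr le_top)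

end EXC
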