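import Pool.Agent.EXC.MDF

/-!
# EXC RET: the number of returns

`ret w = (List.range w.length).countP (fun i => pos (w.take (i + 1)) 0 = 0)`.
* `ret_append`: by induction from the right (`LEV_ret_concat`).
* `split_ret`: by `ret_dec`: `l = L.flatten ++ τ`, `τ = []` as `pos τ 0 = 0`; take the first `a` members of `L`.
-/

set_option autoImplicit false

open scoped ENNReal BigOperators
open CNP

namespace EXC

variable {d : ℕ}

theorem ret_nil : ret ([] : Wlk d) = 0 := by
  rfl

theorem ret_append (u v : Wlk d) (h : pos u 0 = 0) : ret (u ++ v) = ret u + ret v := by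
  induction v using List.reverseRecOn with
  | nil => rw [List.append_nil, ret_nil, add_zero]
  | append_singleton v s ih =>
    rw [← List.append_assoc, LEV_ret_concat, LEV_ret_concat, ih]
    have h1 : pos (u ++ v ++ [s]) 0 = pos (v ++ [s]) 0 := by
      rw [List.append_assoc, pos_append_apply, h, zero_add]
    rw [h1, add_assoc]

theorem ret_le (w : Wlk d) : ret w ≤ w.length := by
  unfold ret
  refine List.countP_le_length.trans ?_
  rw [List.length_range]

theorem ret_pos {w : Wlk d} (hw : w ≠ []) (h : pos w 0 = 0) : 1 ≤ ret w := by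
  have h1 : w = w.dropLast ++ [w.getLast hw] := (List.dropLast_append_getLast hw).symm
  rw [h1, LEV_ret_concat, ← h1, if_pos h]
  omega

/-- A walk without returns. -/
theorem ret_eq_zero {w : Wlk d} (h : ∀ a b : Wlk d, w = a ++ b → a ≠ [] → pos a 0 ≠ 0) : ret w = 0 := by
  unfold ret
  rw [List.countP_eq_zero]
  intro i hi
  rw [List.mem_range] at hi
  have h1 : w.take (i + 1) ≠ [] := by
    intro h2
    rw [List.take_eq_nil_iff] at h2
    rcases h2 with h2 | h2
    · omega
    · rw [h2] at hi
      simp at hi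
  have h3 := h (w.take (i + 1)) (w.drop (i + 1)) (List.take_append_drop _ _).symm h1
  simpa using h3

theorem ret_LE {w : Wlk d} (h : LE w) : ret w = 1 := by
  obtain ⟨hne, -, hp, hr⟩ := h
  obtain ⟨v, s, hvs⟩ : ∃ (v : Wlk d) (s : Stp d), w = v ++ [s] :=
    ⟨w.dropLast, w.getLast hne, (List.dropLast_append_getLast hne).symm⟩
  have h1 : ret v = 0 := by
    apply ret_eq_zero
    intro a b hab ha
    refine hr a (b ++ [s]) ?_ ha ?_
    · rw [hvs, hab, List.append_assoc]
    · intro h5
      exact List.cons_ne_nil _ _ (List.append_eq_nil_iff.mp h5).2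
  rw [hvs, LEV_ret_concat, ← hvs, if_pos hp, h1]

theorem pos_rep_zero (s : Stp d) (hs : s.1 ≠ 0) (m : ℕ) : pos (List.replicate m s) 0 = 0 := by
  induction m with
  | zero => rw [List.replicate_zero, pos_nil_apply]
  | succ m ih =>
    rw [List.replicate_succ, pos_cons, Pi.add_apply, ih, add_zero]
    unfold stp
    rw [Pi.single_eq_of_ne (Ne.symm hs)]

/-- Horizontal steps: all vertices are returns. -/
theorem ret_rep (s : Stp d) (hs : s.1 ≠ 0) (m : ℕ) : ret (List.replicate m s) = m := by
  induction m with
  | zero => rfl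
  | succ m ih =>
    have h1 : List.replicate (m + 1) s = List.replicate m s ++ [s] := List.replicate_succ'
    have h2 := pos_rep_zero s hs (m + 1)
    rw [h1] at h2
    rw [h1, LEV_ret_concat, ih, if_pos h2]

theorem ret_flatten {k : ℕ} (L : List (Wlk d)) (h : ∀ b ∈ L, Blk k b) : ret L.flatten = k * L.length := by
  induction L with
  | nil => rw [List.flatten_nil, ret_nil, List.length_nil, mul_zero]
  | cons a L ih =>
    have h1 := h a List.mem_cons_self
    rw [List.flatten_cons, ret_append _ _ h1.1.2.2, ih (fun b hb => h b (List.mem_cons_of_mem a hb)), h1.2,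
      List.length_cons, Nat.mul_succ, add_comm]

theorem ret_LE_flatten (L : List (Wlk d)) (h : ∀ b ∈ L, LE b) : ret L.flatten = L.length := by
  induction L with
  | nil => rfl
  | cons a L ih =>
    have h1 := h a List.mem_cons_self
    rw [List.flatten_cons, ret_append _ _ h1.2.2.1, ih (fun b hb => h b (List.mem_cons_of_mem a hb)), ret_LE h1,
      List.length_cons, add_comm]

theorem Blk_split {a b : ℕ} {l : Wlk d} (h : Blk (a + b) l) : ∃ u v : Wlk d, l = u ++ v ∧ Blk a u ∧ Blk b v := by
  obtain ⟨⟨hSA, hnn, hp⟩, hret⟩ := h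
  obtain ⟨L, τ, h1, h2, h3, h4⟩ := ret_dec l hSA
  have hτ : τ = [] := by
    by_contra hne
    refine h4 τ [] (List.append_nil τ).symm hne ?_
    rw [h1, pos_append_apply, LEV_flat_pos L h3, zero_add] at hp
    exact hp
  rw [hret] at h2
  have hA : ∀ b ∈ L.take a, LE b := fun b hb => h3 b (List.mem_of_mem_take hb)
  have hB : ∀ b ∈ L.drop a, LE b := fun b hb => h3 b (List.mem_of_mem_drop hb)
  have hl : l = (L.take a).flatten ++ (L.drop a).flatten := by
    rw [← List.flatten_append, List.take_append_drop, h1, hτ, List.append_nil]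
  have hpA := LEV_flat_pos _ hA
  have hpB := LEV_flat_pos _ hB
  refine ⟨(L.take a).flatten, (L.drop a).flatten, hl, ⟨⟨?_, ?_, hpA⟩, ?_⟩, ⟨⟨?_, ?_, hpB⟩, ?_⟩⟩
  · rw [hl] at hSA
    exact SA_left hSA
  · intro u v huv
    refine hnn u (v ++ (L.drop a).flatten) ?_
    rw [hl, huv, List.append_assoc]
  · rw [ret_LE_flatten _ hA, List.length_take, h2]
    omega
  · rw [hl] at hSA
    exact SA_right hSA
  · intro u v huv
    have h5 := hnn ((L.take a).flatten ++ u) v (by rw [hl, huv, List.append_assoc])
    rw [pos_append_apply, hpA, zero_add] at h5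
    exact h5
  · rw [ret_LE_flatten _ hB, List.length_drop, h2]
    omega

/-- A loop without returns is empty. -/
theorem Blk_zero {l : Wlk d} : Blk 0 l ↔ l = [] := by
  constructor
  · rintro ⟨⟨-, -, hp⟩, hr⟩
    by_contra hne
    have := ret_pos hne hp
    omega
  · rintro rfl
    refine ⟨⟨SA_nil, ?_, pos_nil_apply 0⟩, ret_nil⟩
    intro u v huv
    rw [(List.append_eq_nil_iff.mp huv.symm).1, pos_nil_apply]

end EXC
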