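import Pool.Agent.EXC.GLU

/-!
# EXC SEC: the second moment of the number of renewals

`z = zc d`, `L = Lg j n`.  For `γ` let `r γ` be the number of pairs `(σ, τ) ∈ L × L` with the same end height and
`glu j σ τ = γ` (as an element of `ℝ≥0∞`).
* first moment: `∑' γ, r γ * z ^ γ.length = z * F j n`.
* second moment: `∑' γ, (r γ) ^ 2 * z ^ γ.length ≤ z * F j n * (1 + 2 * wbt j n)`: two different pairs `(σ, τ)`, `(σ', τ')`
  with the same glued walk have `σ.length ≠ σ'.length` (`glu_inj`); if `σ.length < σ'.length` then `σ' = σ ++ P` with a weak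
  bridge `P` of length less than `2 ^ n`; `(σ, P, τ')` determines the two pairs, the heights satisfy
  `pos σ 0 + pos P 0 = pos τ' 0`, the length is `σ.length + P.length + 1 + τ'.length`; for fixed `P` the sum over
  `(σ, τ')` is `∑' k, U k * U (k + pos P 0) ≤ ∑' k, U k ^ 2` by `2 * x * y ≤ x ^ 2 + y ^ 2` and translation.
* with `Λ = 1 + 2 * wbt j n`: `2 * Λ * r ≤ Λ ^ 2 * [r ≠ 0] + r ^ 2`, so `2 Λ z F ≤ Λ ^ 2 * ms z (G j n) + z F Λ`; all
  quantities are finite (`F j n ≤ (am j n) ^ 2`).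
-/

set_option autoImplicit false

open scoped ENNReal BigOperators
open CNP

namespace EXC

variable {d : ℕ}

theorem two_mul_le (x y : ℝ≥0∞) : 2 * x * y ≤ x ^ 2 + y ^ 2 := by
  rcases le_total x y with h | h
  · obtain ⟨t, rfl⟩ := exists_add_of_le h
    have h1 : x ^ 2 + (x + t) ^ 2 = 2 * x * (x + t) + t ^ 2 := by ring
    rw [h1]
    exact le_self_add
  · obtain ⟨t, rfl⟩ := exists_add_of_le h
    have h1 : (y + t) ^ 2 + y ^ 2 = 2 * (y + t) * y + t ^ 2 := by ring
    rw [h1]
    exact le_self_add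

/-- The mass of the legs by heights. -/
theorem U_sum (j : Fin (d + 1)) (n : ℕ) : ∑' k : ℤ, U j n k = am j n := by
  unfold U am ms
  rw [ENNReal.tsum_comm]
  refine tsum_congr fun l => ?_
  rw [tsum_eq_single (pos l 0)]
  · by_cases hl : l ∈ Lg j n
    · rw [Set.indicator_of_mem hl, Set.indicator_of_mem (show l ∈ Lg j n ∩ {l' | pos l' 0 = pos l 0} from ⟨hl, rfl⟩)]
    · rw [Set.indicator_of_notMem hl, Set.indicator_of_notMem (fun h => hl h.1)]
  · intro k hk
    exact Set.indicator_of_notMem (fun h => hk h.2.symm) _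

theorem F_le (j : Fin (d + 1)) (n : ℕ) : F j n ≤ am j n ^ 2 := by
  unfold F
  calc ∑' k : ℤ, U j n k ^ 2 ≤ ∑' k : ℤ, U j n k * am j n := by
        refine ENNReal.tsum_le_tsum fun k => ?_
        rw [sq]
        exact mul_le_mul' le_rfl (U_le j n k)
    _ = am j n ^ 2 := by
        rw [ENNReal.tsum_mul_right, U_sum, sq]

theorem F_ne_top (j : Fin (d + 1)) (n : ℕ) : F j n ≠ ⊤ :=
  ne_top_of_le_ne_top (ENNReal.pow_ne_top (am_ne_top j n)) (F_le j n)

open Classical in
/-- Pairs of legs with height difference `h`. -/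
noncomputable def Dh (j : Fin (d + 1)) (n : ℕ) (h : ℤ) : ℝ≥0∞ :=
  ∑' s : Lg j n, ∑' t : Lg j n, if pos s.1 0 + h = pos t.1 0 then zc d ^ s.1.length * zc d ^ t.1.length else 0

theorem U_sub (j : Fin (d + 1)) (n : ℕ) (k : ℤ) [DecidableEq ℤ] :
    U j n k = ∑' s : Lg j n, if pos s.1 0 = k then zc d ^ s.1.length else 0 := by
  classical
  unfold U ms
  rw [tsum_subtype (Lg j n) (fun l : Wlk d => if pos l 0 = k then zc d ^ l.length else 0)]
  refine tsum_congr fun l => ?_
  by_cases h1 : l ∈ Lg j n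
  · by_cases h2 : pos l 0 = k
    · rw [Set.indicator_of_mem (show l ∈ Lg j n ∩ {l | pos l 0 = k} from ⟨h1, h2⟩), Set.indicator_of_mem h1, if_pos h2]
    · rw [Set.indicator_of_notMem (fun h => h2 h.2), Set.indicator_of_mem h1, if_neg h2]
  · rw [Set.indicator_of_notMem (fun h => h1 h.1), Set.indicator_of_notMem h1]

theorem Dh_eq (j : Fin (d + 1)) (n : ℕ) (h : ℤ) : Dh j n h = ∑' k : ℤ, U j n k * U j n (k + h) := by
  classical
  have h1 : ∀ k : ℤ, U j n k * U j n (k + h) = ∑' s : Lg j n, ∑' t : Lg j n,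
      (if pos s.1 0 = k then zc d ^ s.1.length else 0) * (if pos t.1 0 = k + h then zc d ^ t.1.length else 0) := by
    intro k
    rw [U_sub, U_sub, ← ENNReal.tsum_mul_right]
    refine tsum_congr fun s => ?_
    rw [← ENNReal.tsum_mul_left]
  rw [tsum_congr h1, ENNReal.tsum_comm]
  unfold Dh
  refine tsum_congr fun s => ?_
  rw [ENNReal.tsum_comm]
  refine tsum_congr fun t => ?_
  rw [tsum_eq_single (pos s.1 0)]
  · rw [if_pos rfl]
    by_cases h2 : pos s.1 0 + h = pos t.1 0
    · rw [if_pos h2, if_pos h2.symm]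
    · rw [if_neg h2, if_neg (fun h3 => h2 h3.symm), mul_zero]
  · intro k hk
    rw [if_neg (fun h2 => hk h2.symm), zero_mul]

theorem Dh_zero (j : Fin (d + 1)) (n : ℕ) : Dh j n 0 = F j n := by
  rw [Dh_eq]
  unfold F
  refine tsum_congr fun k => ?_
  rw [add_zero, sq]

theorem Dh_le (j : Fin (d + 1)) (n : ℕ) (h : ℤ) : Dh j n h ≤ F j n := by
  rw [Dh_eq]
  have h1 : 2 * ∑' k : ℤ, U j n k * U j n (k + h) ≤ 2 * F j n := by
    rw [← ENNReal.tsum_mul_left]
    calc ∑' k : ℤ, 2 * (U j n k * U j n (k + h)) ≤ ∑' k : ℤ, (U j n k ^ 2 + U j n (k + h) ^ 2) := by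
          refine ENNReal.tsum_le_tsum fun k => ?_
          rw [← mul_assoc]
          exact two_mul_le _ _
      _ = F j n + F j n := by
          rw [ENNReal.tsum_add]
          congr 1
          exact (Equiv.addRight h).tsum_eq (fun k : ℤ => U j n k ^ 2)
      _ = 2 * F j n := (two_mul _).symm
  exact (ENNReal.mul_le_mul_iff_right two_ne_zero ENNReal.ofNat_ne_top).mp h1

/-- Pairs of legs of class `n` with the same end height. -/
def Pr (j : Fin (d + 1)) (n : ℕ) : Type := {p : Lg j n × Lg j n // pos p.1.1 0 = pos p.2.1 0}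

/-- The glued walk. -/
def gl (j : Fin (d + 1)) (n : ℕ) (p : Pr j n) : Wlk d := glu j p.1.1.1 p.1.2.1

open Classical in
/-- The number of pairs which are glued to `γ`. -/
noncomputable def rr (j : Fin (d + 1)) (n : ℕ) (γ : Wlk d) : ℝ≥0∞ := ∑' p : Pr j n, if gl j n p = γ then 1 else 0

theorem rr_G {j : Fin (d + 1)} {n : ℕ} {γ : Wlk d} (h : γ ∉ G j n) : rr j n γ = 0 := by
  classical
  unfold rr
  rw [ENNReal.tsum_eq_zero]
  intro p
  refine if_neg (fun h1 => h ?_)
  exact ⟨p.1.1.1, p.1.1.2, p.1.2.1, p.1.2.2, p.2, h1.symm⟩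

theorem first (j : Fin (d + 1)) (n : ℕ) :
    ∑' γ : Wlk d, rr j n γ * zc d ^ γ.length = ∑' p : Pr j n, zc d ^ (gl j n p).length := by
  classical
  have h1 : ∀ γ : Wlk d, rr j n γ * zc d ^ γ.length =
      ∑' p : Pr j n, (if gl j n p = γ then zc d ^ γ.length else 0) := by
    intro γ
    unfold rr
    rw [← ENNReal.tsum_mul_right]
    refine tsum_congr fun p => ?_
    rw [ite_mul, one_mul, zero_mul]
  rw [tsum_congr h1, ENNReal.tsum_comm]
  refine tsum_congr fun p => ?_
  rw [tsum_eq_single (gl j n p), if_pos rfl]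
  intro γ hγ
  exact if_neg (fun h => hγ h.symm)

open Classical in
theorem second (j : Fin (d + 1)) (n : ℕ) :
    ∑' γ : Wlk d, rr j n γ ^ 2 * zc d ^ γ.length =
      ∑' p : Pr j n, ∑' q : Pr j n, if gl j n p = gl j n q then zc d ^ (gl j n p).length else 0 := by
  have h1 : ∀ γ : Wlk d, rr j n γ ^ 2 * zc d ^ γ.length =
      ∑' p : Pr j n, ∑' q : Pr j n, (if gl j n p = γ then (if gl j n q = γ then zc d ^ γ.length else 0) else 0) := by
    intro γ
    unfold rr
    rw [sq, mul_assoc, ← ENNReal.tsum_mul_right]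
    refine tsum_congr fun p => ?_
    rw [← ENNReal.tsum_mul_right, ite_mul, one_mul, zero_mul]
    by_cases hp : gl j n p = γ
    · rw [if_pos hp]
      refine tsum_congr fun q => ?_
      rw [if_pos hp, ite_mul, one_mul, zero_mul]
    · rw [if_neg hp]
      symm
      rw [ENNReal.tsum_eq_zero]
      intro q
      rw [if_neg hp]
  rw [tsum_congr h1, ENNReal.tsum_comm]
  refine tsum_congr fun p => ?_
  rw [ENNReal.tsum_comm]
  refine tsum_congr fun q => ?_
  rw [tsum_eq_single (gl j n p)]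
  · rw [if_pos rfl]
    by_cases h : gl j n p = gl j n q
    · rw [if_pos h, if_pos h.symm]
    · rw [if_neg h, if_neg (fun h2 => h h2.symm)]
  · intro γ hγ
    exact if_neg (fun h => hγ h.symm)

theorem first_eq (j : Fin (d + 1)) (n : ℕ) :
    ∑' p : Pr j n, zc d ^ (gl j n p).length = zc d * F j n := by
  classical
  rw [← Dh_zero]
  unfold Dh
  have h1 : ∑' p : Pr j n, zc d ^ (gl j n p).length = ∑' p : Lg j n × Lg j n,
      {p : Lg j n × Lg j n | pos p.1.1 0 = pos p.2.1 0}.indicator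
        (fun p => zc d * (zc d ^ p.1.1.length * zc d ^ p.2.1.length)) p := by
    rw [← tsum_subtype]
    refine tsum_congr fun p => ?_
    change zc d ^ (glu j p.1.1.1 p.1.2.1).length = _
    rw [glu_length, pow_add, pow_add, pow_one]
    ring
  rw [h1, ENNReal.tsum_prod', ← ENNReal.tsum_mul_left]
  refine tsum_congr fun s => ?_
  rw [← ENNReal.tsum_mul_left]
  refine tsum_congr fun t => ?_
  rw [add_zero]
  by_cases h : pos s.1 0 = pos t.1 0
  · rw [if_pos h, Set.indicator_of_mem (show (s, t) ∈ {p : Lg j n × Lg j n | pos p.1.1 0 = pos p.2.1 0} from h)]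
  · rw [if_neg h, Set.indicator_of_notMem (show (s, t) ∉ {p : Lg j n × Lg j n | pos p.1.1 0 = pos p.2.1 0} from h),
      mul_zero]

open Classical in
theorem third (j : Fin (d + 1)) (hj : j ≠ 0) (n : ℕ) :
    ∑' p : Pr j n, ∑' q : Pr j n, (if gl j n p = gl j n q ∧ p.1.1.1.length < q.1.1.1.length then
      zc d ^ (gl j n p).length else 0) ≤ zc d * F j n * wbt j n := by
  have hW : zc d * F j n * wbt j n = ∑' P : {l : Wlk d | WB j l ∧ l.length < 2 ^ n},
      zc d * F j n * zc d ^ P.1.length := by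
    unfold wbt
    rw [ms_subtype, ENNReal.tsum_mul_left]
  rw [hW]
  have h1 : ∑' P : {l : Wlk d | WB j l ∧ l.length < 2 ^ n}, zc d * Dh j n (pos P.1 0) * zc d ^ P.1.length ≤
      ∑' P : {l : Wlk d | WB j l ∧ l.length < 2 ^ n}, zc d * F j n * zc d ^ P.1.length := by
    refine ENNReal.tsum_le_tsum fun P => ?_
    exact mul_le_mul' (mul_le_mul' le_rfl (Dh_le j n _)) le_rfl
  refine le_trans ?_ h1
  have h2 : ∀ P : {l : Wlk d | WB j l ∧ l.length < 2 ^ n}, zc d * Dh j n (pos P.1 0) * zc d ^ P.1.length =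
      ∑' s : Lg j n, ∑' t : Lg j n, (if pos s.1 0 + pos P.1 0 = pos t.1 0 then
        zc d * (zc d ^ s.1.length * zc d ^ t.1.length) * zc d ^ P.1.length else 0) := by
    intro P
    unfold Dh
    rw [← ENNReal.tsum_mul_left, ← ENNReal.tsum_mul_right]
    refine tsum_congr fun s => ?_
    rw [← ENNReal.tsum_mul_left, ← ENNReal.tsum_mul_right]
    refine tsum_congr fun t => ?_
    rw [mul_ite, ite_mul, mul_zero, zero_mul]
  rw [tsum_congr h2]
  have h3 : ∑' P : {l : Wlk d | WB j l ∧ l.length < 2 ^ n}, ∑' s : Lg j n, ∑' t : Lg j n,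
      (if pos s.1 0 + pos P.1 0 = pos t.1 0 then
        zc d * (zc d ^ s.1.length * zc d ^ t.1.length) * zc d ^ P.1.length else 0) =
      ∑' x : {l : Wlk d | WB j l ∧ l.length < 2 ^ n} × (Lg j n × Lg j n),
      (if pos x.2.1.1 0 + pos x.1.1 0 = pos x.2.2.1 0 then
        zc d * (zc d ^ x.2.1.1.length * zc d ^ x.2.2.1.length) * zc d ^ x.1.1.length else 0) := by
    rw [ENNReal.tsum_prod']
    refine tsum_congr fun P => ?_
    rw [ENNReal.tsum_prod']
  rw [h3]
  have h4 : ∑' p : Pr j n, ∑' q : Pr j n, (if gl j n p = gl j n q ∧ p.1.1.1.length < q.1.1.1.length then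
      zc d ^ (gl j n p).length else 0) =
      ∑' x : {x : Pr j n × Pr j n | gl j n x.1 = gl j n x.2 ∧ x.1.1.1.1.length < x.2.1.1.1.length},
        zc d ^ (gl j n x.1.1).length := by
    rw [tsum_subtype {x : Pr j n × Pr j n | gl j n x.1 = gl j n x.2 ∧ x.1.1.1.1.length < x.2.1.1.1.length}
      (fun x : Pr j n × Pr j n => zc d ^ (gl j n x.1).length), ENNReal.tsum_prod']
    refine tsum_congr fun p => tsum_congr fun q => ?_
    by_cases h : gl j n p = gl j n q ∧ p.1.1.1.length < q.1.1.1.length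
    · rw [if_pos h, Set.indicator_of_mem (show (p, q) ∈ {x : Pr j n × Pr j n | gl j n x.1 = gl j n x.2 ∧
        x.1.1.1.1.length < x.2.1.1.1.length} from h)]
    · rw [if_neg h, Set.indicator_of_notMem (show (p, q) ∉ {x : Pr j n × Pr j n | gl j n x.1 = gl j n x.2 ∧
        x.1.1.1.1.length < x.2.1.1.1.length} from h)]
  rw [h4]
  -- the piece between the two renewals
  have h5 : ∀ x : {x : Pr j n × Pr j n | gl j n x.1 = gl j n x.2 ∧ x.1.1.1.1.length < x.2.1.1.1.length},
      ∃ P : Wlk d, x.1.2.1.1.1 = x.1.1.1.1.1 ++ P ∧ WB j P := by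
    intro x
    exact glu_split j hj x.1.1.1.2.2.1 x.1.2.1.1.2.1 x.2.1 x.2.2
  choose P hP hPW using h5
  have hPlen : ∀ x, (P x).length < 2 ^ n := by
    intro x
    have h6 := congrArg List.length (hP x)
    rw [List.length_append] at h6
    have h7 := x.1.2.1.1.2.2.2
    have h8 := x.1.1.1.1.2.2.1
    rw [pow_succ] at h7
    omega
  have hinj : Function.Injective (fun x : {x : Pr j n × Pr j n | gl j n x.1 = gl j n x.2 ∧
      x.1.1.1.1.length < x.2.1.1.1.length} =>
      ((⟨P x, hPW x, hPlen x⟩, (x.1.1.1.1, x.1.2.1.2)) : {l : Wlk d | WB j l ∧ l.length < 2 ^ n} × (Lg j n × Lg j n))) := by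
    intro x y hxy
    simp only [Prod.mk.injEq, Subtype.mk.injEq] at hxy
    obtain ⟨h6, h7, h8⟩ := hxy
    have h9 : x.1.2.1.1 = y.1.2.1.1 := by
      apply Subtype.ext
      rw [hP x, hP y, h6, h7]
    have h10 : x.1.2 = y.1.2 := by
      apply Subtype.ext
      exact Prod.ext h9 h8
    have h11 : gl j n x.1.1 = gl j n y.1.1 := by
      rw [x.2.1, y.2.1, h10]
    have h12 := glu_inj j h11 (by rw [h7])
    have h13 : x.1.1 = y.1.1 := by
      apply Subtype.ext
      exact Prod.ext h7 (Subtype.ext h12.2)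
    exact Subtype.ext (Prod.ext h13 h10)
  refine le_trans (le_of_eq ?_) (ENNReal.tsum_comp_le_tsum_of_injective hinj _)
  refine tsum_congr fun x => ?_
  have h6 : pos x.1.1.1.1.1 0 + pos (P x) 0 = pos x.1.2.1.2.1 0 := by
    rw [← pos_append_apply, ← hP x]
    exact x.1.2.2
  rw [if_pos h6, x.2.1]
  unfold gl
  rw [glu_length, hP x, List.length_append, pow_add, pow_add, pow_add, pow_one]
  ring

theorem second_le (j : Fin (d + 1)) (hj : j ≠ 0) (n : ℕ) :
    ∑' γ : Wlk d, rr j n γ ^ 2 * zc d ^ γ.length ≤ zc d * F j n * (1 + 2 * wbt j n) := by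
  classical
  rw [second]
  have h1 : ∀ p q : Pr j n, (if gl j n p = gl j n q then zc d ^ (gl j n p).length else 0) ≤
      (if p = q then zc d ^ (gl j n p).length else 0) +
      ((if gl j n p = gl j n q ∧ p.1.1.1.length < q.1.1.1.length then zc d ^ (gl j n p).length else 0) +
      (if gl j n q = gl j n p ∧ q.1.1.1.length < p.1.1.1.length then zc d ^ (gl j n q).length else 0)) := by
    intro p q
    by_cases h : gl j n p = gl j n q
    · rw [if_pos h]
      rcases lt_trichotomy p.1.1.1.length q.1.1.1.length with h2 | h2 | h2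
      · rw [if_pos (show gl j n p = gl j n q ∧ p.1.1.1.length < q.1.1.1.length from ⟨h, h2⟩)]
        exact le_add_left le_self_add
      · have h3 := glu_inj j h h2
        have h4 : p = q := Subtype.ext (Prod.ext (Subtype.ext h3.1) (Subtype.ext h3.2))
        rw [if_pos h4]
        exact le_self_add
      · rw [if_pos (show gl j n q = gl j n p ∧ q.1.1.1.length < p.1.1.1.length from ⟨h.symm, h2⟩), h]
        exact le_add_left le_add_self
    · rw [if_neg h]
      exact zero_le
  refine (ENNReal.tsum_le_tsum fun p => ENNReal.tsum_le_tsum fun q => h1 p q).trans ?_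
  have h2 : ∑' p : Pr j n, ∑' q : Pr j n, ((if p = q then zc d ^ (gl j n p).length else 0) +
      ((if gl j n p = gl j n q ∧ p.1.1.1.length < q.1.1.1.length then zc d ^ (gl j n p).length else 0) +
      (if gl j n q = gl j n p ∧ q.1.1.1.length < p.1.1.1.length then zc d ^ (gl j n q).length else 0))) =
      (∑' p : Pr j n, ∑' q : Pr j n, (if p = q then zc d ^ (gl j n p).length else 0)) +
      ((∑' p : Pr j n, ∑' q : Pr j n,
        (if gl j n p = gl j n q ∧ p.1.1.1.length < q.1.1.1.length then zc d ^ (gl j n p).length else 0)) +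
      (∑' p : Pr j n, ∑' q : Pr j n,
        (if gl j n q = gl j n p ∧ q.1.1.1.length < p.1.1.1.length then zc d ^ (gl j n q).length else 0))) := by
    rw [← ENNReal.tsum_add, ← ENNReal.tsum_add]
    refine tsum_congr fun p => ?_
    rw [← ENNReal.tsum_add, ← ENNReal.tsum_add]
  rw [h2]
  have h3 : ∑' p : Pr j n, ∑' q : Pr j n, (if p = q then zc d ^ (gl j n p).length else 0) = zc d * F j n := by
    rw [← first_eq]
    refine tsum_congr fun p => ?_
    rw [tsum_eq_single p, if_pos rfl]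
    intro q hq
    exact if_neg (fun h => hq h.symm)
  have h4 := third j hj n
  have h5 : ∑' p : Pr j n, ∑' q : Pr j n,
      (if gl j n q = gl j n p ∧ q.1.1.1.length < p.1.1.1.length then zc d ^ (gl j n q).length else 0) ≤
      zc d * F j n * wbt j n := by
    rw [ENNReal.tsum_comm]
    exact h4
  rw [h3]
  refine (add_le_add le_rfl (add_le_add h4 h5)).trans (le_of_eq ?_)
  ring

theorem sec (j : Fin (d + 1)) (hj : j ≠ 0) (n : ℕ) :
    zc d * F j n ≤ (1 + 2 * wbt j n) * ms (zc d) (G j n) := by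
  obtain ⟨Λ, hΛ⟩ : ∃ Λ : ℝ≥0∞, Λ = 1 + 2 * wbt j n := ⟨_, rfl⟩
  have hΛ0 : Λ ≠ 0 := by
    rw [hΛ]
    exact (lt_of_lt_of_le one_pos le_self_add).ne'
  have hΛt : Λ ≠ ⊤ := by
    rw [hΛ]
    exact ENNReal.add_ne_top.mpr ⟨ENNReal.one_ne_top, ENNReal.mul_ne_top ENNReal.ofNat_ne_top (wbt_ne_top j n)⟩
  have h1 : ∀ γ : Wlk d, 2 * Λ * (rr j n γ * zc d ^ γ.length) ≤
      Λ ^ 2 * (G j n).indicator (fun l => zc d ^ l.length) γ + rr j n γ ^ 2 * zc d ^ γ.length := by
    intro γ
    by_cases hγ : γ ∈ G j n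
    · rw [Set.indicator_of_mem hγ]
      calc 2 * Λ * (rr j n γ * zc d ^ γ.length) = (2 * Λ * rr j n γ) * zc d ^ γ.length := by ring
        _ ≤ (Λ ^ 2 + rr j n γ ^ 2) * zc d ^ γ.length := mul_le_mul' (two_mul_le _ _) le_rfl
        _ = _ := by ring
    · rw [rr_G hγ, zero_mul, mul_zero]
      exact zero_le
  have h2 := ENNReal.tsum_le_tsum h1
  rw [ENNReal.tsum_mul_left, ENNReal.tsum_add, ENNReal.tsum_mul_left, first, first_eq] at h2
  have h3 := h2.trans (add_le_add le_rfl (second_le j hj n))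
  rw [← hΛ] at h3 ⊢
  have hN : zc d * F j n ≠ ⊤ := ENNReal.mul_ne_top (zc_ne_top d) (F_ne_top j n)
  have h4 : Λ * (zc d * F j n) + Λ * (zc d * F j n) ≤ Λ * (Λ * ms (zc d) (G j n)) + Λ * (zc d * F j n) := by
    have h5 : Λ * (zc d * F j n) + Λ * (zc d * F j n) = 2 * Λ * (zc d * F j n) := by ring
    have h6 : Λ * (Λ * ms (zc d) (G j n)) + Λ * (zc d * F j n) =
        Λ ^ 2 * ms (zc d) (G j n) + zc d * F j n * Λ := by ring
    rw [h5, h6]
    exact h3
  have h5 := (ENNReal.add_le_add_iff_right (ENNReal.mul_ne_top hΛt hN)).mp h4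
  exact (ENNReal.mul_le_mul_iff_right hΛ0 hΛt).mp h5

end EXC
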